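import Pool.Agent.J6H39.SP.Stm

/-!
# Project SP, module EQ2: the equivalence with square root remainder (helper67)
-/

set_option autoImplicit false

open MeasureTheory Set Filter Topology Complex

namespace Pool.Agent.J6H39.SP.EQ2

open Pool.Agent.J6H39.CG (zh zh_bound zh_cont)

lemma F_cont (k : ℕ) : Continuous (F k) := zh_cont.norm.pow _

lemma F_nonneg (k : ℕ) (t : ℝ) : 0 ≤ F k t := by unfold F; positivity

lemma F_le (k : ℕ) (t : ℝ) : F k t ≤ (16 * (1 + |t|)) ^ (2 * k) :=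
  pow_le_pow_left₀ (norm_nonneg _) (zh_bound t) _

lemma F_ii (k : ℕ) (a b : ℝ) : IntervalIntegrable (F k) volume a b := (F_cont k).intervalIntegrable a b

lemma int_nonneg (k : ℕ) {a b : ℝ} (h : a ≤ b) : 0 ≤ ∫ t in a..b, F k t :=
  intervalIntegral.integral_nonneg h fun t _ => F_nonneg k t

lemma int_split (k : ℕ) (a b c : ℝ) : (∫ t in a..b, F k t) + ∫ t in b..c, F k t = ∫ t in a..c, F k t :=
  intervalIntegral.integral_add_adjacent_intervals (F_ii k a b) (F_ii k b c)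

/-- the integral over a short interval about `0` -/
lemma int_short (k : ℕ) {h : ℝ} (h0 : 0 ≤ h) : ∫ t in (-h)..h, F k t ≤ 2 * h * (16 * (1 + h)) ^ (2 * k) := by
  have h1 : ∫ t in (-h)..h, F k t ≤ ∫ _t in (-h)..h, (16 * (1 + h)) ^ (2 * k) := by
    refine intervalIntegral.integral_mono_on (by linarith) (F_ii k _ _) (by simp) fun t ht => ?_
    refine (F_le k t).trans (pow_le_pow_left₀ (by positivity) ?_ _)
    have : |t| ≤ h := abs_le.2 ht
    linarith
  refine h1.trans (le_of_eq ?_)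
  rw [intervalIntegral.integral_const, smul_eq_mul]
  ring

lemma abs_log_le {δ u : ℝ} (hδ : 0 < δ) (hu : 0 < u) : |Real.log u| ≤ (max u u⁻¹) ^ δ / δ := by
  have hm1 : u ≤ max u u⁻¹ := le_max_left _ _
  have hm2 : u⁻¹ ≤ max u u⁻¹ := le_max_right _ _
  rw [abs_le]
  constructor
  · have h1 := Real.log_le_rpow_div (inv_nonneg.2 hu.le) hδ
    rw [Real.log_inv] at h1
    have h2 : u⁻¹ ^ δ ≤ (max u u⁻¹) ^ δ := Real.rpow_le_rpow (inv_nonneg.2 hu.le) hm2 hδ.le
    have h3 : u⁻¹ ^ δ / δ ≤ (max u u⁻¹) ^ δ / δ := div_le_div_of_nonneg_right h2 hδ.le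
    linarith
  · have h1 := Real.log_le_rpow_div hu.le hδ
    have h2 : u ^ δ ≤ (max u u⁻¹) ^ δ := Real.rpow_le_rpow hu.le hm1 hδ.le
    have h3 : u ^ δ / δ ≤ (max u u⁻¹) ^ δ / δ := div_le_div_of_nonneg_right h2 hδ.le
    linarith

lemma one_le_m {u : ℝ} (hu : 0 < u) : 1 ≤ max u u⁻¹ := by
  rcases le_or_gt 1 u with h | h
  · exact h.trans (le_max_left _ _)
  · exact ((one_le_inv₀ hu).2 h.le).trans (le_max_right _ _)

lemma log_pow_le (n : ℕ) {η : ℝ} (hη : 0 < η) : ∃ C : ℝ, 0 ≤ C ∧ ∀ u : ℝ, 0 < u →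
    |Real.log u| ^ n ≤ C * (max u u⁻¹) ^ η := by
  have hn : (0 : ℝ) < (n : ℝ) + 1 := by positivity
  set δ : ℝ := η / (n + 1) with hδ
  have hδ0 : 0 < δ := by positivity
  refine ⟨(δ⁻¹) ^ n, by positivity, fun u hu => ?_⟩
  have hm := one_le_m hu
  have hm0 : 0 ≤ max u u⁻¹ := by linarith
  calc |Real.log u| ^ n ≤ ((max u u⁻¹) ^ δ / δ) ^ n := pow_le_pow_left₀ (abs_nonneg _) (abs_log_le hδ0 hu) n
    _ = (δ⁻¹) ^ n * (max u u⁻¹) ^ (δ * n) := by
        rw [div_eq_mul_inv, mul_pow, mul_comm, ← Real.rpow_mul_natCast hm0]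
    _ ≤ (δ⁻¹) ^ n * (max u u⁻¹) ^ η := by
        refine mul_le_mul_of_nonneg_left (Real.rpow_le_rpow_of_exponent_le hm ?_) (by positivity)
        rw [hδ, div_mul_eq_mul_div, div_le_iff₀ hn]
        nlinarith

lemma poly_log_u (P : Polynomial ℝ) {η : ℝ} (hη : 0 < η) : ∃ C : ℝ, 0 ≤ C ∧ ∀ u : ℝ, 0 < u →
    |P.eval (Real.log u)| ≤ C * (max u u⁻¹) ^ η := by
  choose C hC0 hC using fun n : ℕ => log_pow_le n hη
  refine ⟨∑ i ∈ Finset.range (P.natDegree + 1), |P.coeff i| * C i,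
    Finset.sum_nonneg fun i _ => mul_nonneg (abs_nonneg _) (hC0 i), fun u hu => ?_⟩
  rw [Polynomial.eval_eq_sum_range, Finset.sum_mul]
  refine (Finset.abs_sum_le_sum_abs _ _).trans (Finset.sum_le_sum fun i _ => ?_)
  rw [abs_mul, abs_pow, mul_assoc]
  exact mul_le_mul_of_nonneg_left (hC i u hu) (abs_nonneg _)

/-- the main term grows slowly -/
lemma poly_log (P : Polynomial ℝ) {η : ℝ} (hη : 0 < η) (hη1 : η ≤ 1) : ∃ C : ℝ, 0 ≤ C ∧ ∀ t : ℝ, 0 < t →
    |P.eval (Real.log (t / (2 * Real.pi)))| ≤ C * (t ^ η + t ^ (-η)) := by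
  obtain ⟨C, hC0, hC⟩ := poly_log_u P hη
  refine ⟨C * 7, by positivity, fun t ht => ?_⟩
  have hpi := Real.pi_gt_three
  have hpi2 := Real.pi_lt_d2
  have h2pi : (1 : ℝ) ≤ 2 * Real.pi := by linarith
  have hu : 0 < t / (2 * Real.pi) := by positivity
  refine (hC _ hu).trans ?_
  rw [mul_assoc]
  refine mul_le_mul_of_nonneg_left ?_ hC0
  have h7 : (2 * Real.pi) ^ η ≤ 7 := by
    calc (2 * Real.pi) ^ η ≤ (2 * Real.pi) ^ (1 : ℝ) := Real.rpow_le_rpow_of_exponent_le h2pi hη1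
      _ = 2 * Real.pi := Real.rpow_one _
      _ ≤ 7 := by linarith
  have h8 : (1 : ℝ) ≤ (2 * Real.pi) ^ η := Real.one_le_rpow h2pi hη.le
  have ht1 : 0 < t ^ η := Real.rpow_pos_of_pos ht _
  have ht2 : 0 < t ^ (-η) := Real.rpow_pos_of_pos ht _
  rcases le_total (t / (2 * Real.pi)) (t / (2 * Real.pi))⁻¹ with h | h
  · rw [max_eq_right h]
    have h9 : (t / (2 * Real.pi))⁻¹ ^ η = (2 * Real.pi) ^ η * t ^ (-η) := by
      rw [inv_div, Real.div_rpow (by positivity) ht.le, Real.rpow_neg ht.le, div_eq_mul_inv]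
    rw [h9]
    nlinarith
  · rw [max_eq_left h]
    have h9 : (t / (2 * Real.pi)) ^ η ≤ t ^ η := by
      refine Real.rpow_le_rpow hu.le ?_ hη.le
      exact div_le_self ht.le h2pi
    linarith

lemma mt_meas (P : Polynomial ℝ) : Measurable fun t : ℝ => P.eval (Real.log (t / (2 * Real.pi))) :=
  P.continuous.measurable.comp (Real.measurable_log.comp (measurable_id.div_const _))

lemma g_ii {η : ℝ} (hη : 0 < η) (hη1 : η < 1) (C a b : ℝ) :
    IntervalIntegrable (fun t : ℝ => C * (t ^ η + t ^ (-η))) volume a b :=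
  ((intervalIntegral.intervalIntegrable_rpow' (by linarith)).add
    (intervalIntegral.intervalIntegrable_rpow' (by linarith))).const_mul C

lemma mt_ii (P : Polynomial ℝ) {a b : ℝ} (ha : 0 ≤ a) (hb : 0 ≤ b) :
    IntervalIntegrable (fun t : ℝ => P.eval (Real.log (t / (2 * Real.pi)))) volume a b := by
  obtain ⟨C, hC0, hC⟩ := poly_log P (η := 1 / 2) (by norm_num) (by norm_num)
  refine (g_ii (η := 1 / 2) (by norm_num) (by norm_num) C a b).mono_fun' (mt_meas P).aestronglyMeasurable ?_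
  rw [EventuallyLE, ae_restrict_iff' measurableSet_uIoc]
  refine Eventually.of_forall fun t ht => ?_
  have ht0 : 0 < t := lt_of_le_of_lt (le_min ha hb) ht.1
  exact hC t ht0

/-- the main term is bounded on bounded sets -/
lemma mt_bdd (P : Polynomial ℝ) : ∃ K : ℝ, 0 ≤ K ∧ ∀ T : ℝ, 0 ≤ T → T ≤ 16 → |Mt P T| ≤ K := by
  obtain ⟨C, hC0, hC⟩ := poly_log P (η := 1 / 2) (by norm_num) (by norm_num)
  have hg0 : ∀ t : ℝ, 0 ≤ t → 0 ≤ C * (t ^ (1 / 2 : ℝ) + t ^ (-(1 / 2) : ℝ)) := fun t ht =>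
    mul_nonneg hC0 (add_nonneg (Real.rpow_nonneg ht _) (Real.rpow_nonneg ht _))
  have gi : ∀ a b : ℝ, IntervalIntegrable (fun t : ℝ => C * (t ^ (1 / 2 : ℝ) + t ^ (-(1 / 2) : ℝ))) volume a b :=
    fun a b => g_ii (η := 1 / 2) (by norm_num) (by norm_num) C a b
  refine ⟨∫ t in (0:ℝ)..16, C * (t ^ (1 / 2 : ℝ) + t ^ (-(1 / 2) : ℝ)),
    intervalIntegral.integral_nonneg (by norm_num) fun t ht => hg0 t ht.1, fun T hT0 hT => ?_⟩
  have h1 : |Mt P T| ≤ ∫ t in (0:ℝ)..T, C * (t ^ (1 / 2 : ℝ) + t ^ (-(1 / 2) : ℝ)) := by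
    unfold Mt
    exact intervalIntegral.norm_integral_le_of_norm_le
      (f := fun t : ℝ => P.eval (Real.log (t / (2 * Real.pi)))) hT0
      (Eventually.of_forall fun t ht => hC t ht.1) (gi _ _)
  refine h1.trans ?_
  have h2 := intervalIntegral.integral_add_adjacent_intervals (gi 0 T) (gi T 16)
  have h3 : 0 ≤ ∫ t in T..16, C * (t ^ (1 / 2 : ℝ) + t ^ (-(1 / 2) : ℝ)) :=
    intervalIntegral.integral_nonneg hT fun t ht => hg0 t (hT0.trans ht.1)
  linarith

/-- the increments of the main term -/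
lemma mt_incr (P : Polynomial ℝ) {η : ℝ} (hη : 0 < η) (hη1 : η ≤ 1) : ∃ C : ℝ, 0 ≤ C ∧ ∀ a b : ℝ, 1 ≤ a → a ≤ b →
    |Mt P b - Mt P a| ≤ C * b ^ η * (b - a) := by
  obtain ⟨C, hC0, hC⟩ := poly_log P hη hη1
  refine ⟨2 * C, by positivity, fun a b ha hab => ?_⟩
  have h1 : Mt P b - Mt P a = ∫ t in a..b, P.eval (Real.log (t / (2 * Real.pi))) := by
    unfold Mt
    rw [intervalIntegral.integral_interval_sub_left (mt_ii P le_rfl (by linarith))
      (mt_ii P le_rfl (by linarith))]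
  rw [h1]
  have h2 := intervalIntegral.norm_integral_le_of_norm_le_const (a := a) (b := b) (C := 2 * C * b ^ η)
    (f := fun t => P.eval (Real.log (t / (2 * Real.pi)))) (fun t ht => by
      rw [uIoc_of_le hab] at ht
      have ht1 : 1 ≤ t := ha.trans ht.1.le
      have h3 : t ^ η ≤ b ^ η := Real.rpow_le_rpow (by linarith) ht.2 hη.le
      have h4 : t ^ (-η) ≤ b ^ η := by
        have h5 : t ^ (-η) ≤ 1 := Real.rpow_le_one_of_one_le_of_nonpos ht1 (by linarith)
        exact h5.trans (Real.one_le_rpow (by linarith) hη.le)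
      have h6 := hC t (by linarith)
      rw [Real.norm_eq_abs]
      refine h6.trans ?_
      nlinarith)
  rw [abs_of_nonneg (sub_nonneg.2 hab)] at h2
  exact h2

lemma Ds_nonneg (k : ℕ) (a b α θ : ℝ) (hα : 0 ≤ α) : 0 ≤ Ds k a b α θ := by
  classical
  unfold Ds
  refine mul_nonneg hα (tsum_nonneg fun n => ?_)
  split_ifs
  · exact F_nonneg k _
  · exact le_rfl

/-- parameters -/
structure PT (k : ℕ) (e : ℝ) : Prop where
  he : 0 < e
  he1 : e ≤ 1 / 16
  hek : (2 * (k : ℝ) + 1) * e ≤ 1 / 2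

lemma exists_PT (k : ℕ) (hk : 1 ≤ k) {ε : ℝ} (hε : 0 < ε) : ∃ e : ℝ, PT k e ∧ e ≤ ε := by
  have hk' : (1 : ℝ) ≤ k := by exact_mod_cast hk
  refine ⟨min ε (1 / (8 * k + 8)), ⟨lt_min hε (by positivity), (min_le_right _ _).trans ?_, ?_⟩, min_le_left _ _⟩
  · apply one_div_le_one_div_of_le <;> linarith
  · have h1 : (2 * (k : ℝ) + 1) * min ε (1 / (8 * k + 8)) ≤ (2 * (k : ℝ) + 1) * (1 / (8 * k + 8)) :=
      mul_le_mul_of_nonneg_left (min_le_right _ _) (by positivity)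
    refine h1.trans ?_
    rw [mul_one_div, div_le_iff₀ (by positivity)]
    linarith

variable {k : ℕ} {e : ℝ}

lemma PT.short (h : PT k e) : ∃ C : ℝ, 0 ≤ C ∧ ∀ T : ℝ, 1 ≤ T → ∀ r : ℝ, 0 ≤ r → r ≤ 2 * T ^ e →
    ∫ t in (-r)..r, F k t ≤ C * T ^ (1 / 2 + e) := by
  refine ⟨4 * 48 ^ (2 * k), by positivity, fun T hT r hr0 hr => ?_⟩
  have hT0 : 0 ≤ T := by linarith
  have h1 : 1 ≤ T ^ e := Real.one_le_rpow hT h.he.le
  have h2 : (16 * (1 + r)) ^ (2 * k) ≤ (48 * T ^ e) ^ (2 * k) := by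
    refine pow_le_pow_left₀ (by positivity) ?_ _
    linarith
  calc ∫ t in (-r)..r, F k t ≤ 2 * r * (16 * (1 + r)) ^ (2 * k) := int_short k hr0
    _ ≤ (4 * T ^ e) * (48 * T ^ e) ^ (2 * k) := by
        refine mul_le_mul (by linarith) h2 (by positivity) (by positivity)
    _ = 4 * 48 ^ (2 * k) * T ^ ((2 * (k : ℝ) + 1) * e) := by
        rw [mul_pow, ← Real.rpow_mul_natCast hT0,
          show (2 * (k : ℝ) + 1) * e = e + e * ((2 * k : ℕ) : ℝ) by push_cast; ring,
          Real.rpow_add (by linarith)]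
        ring
    _ ≤ 4 * 48 ^ (2 * k) * T ^ (1 / 2 + e) := by
        refine mul_le_mul_of_nonneg_left (Real.rpow_le_rpow_of_exponent_le hT ?_) (by positivity)
        linarith [h.hek, h.he]

lemma PT.incr (h : PT k e) (P : Polynomial ℝ) : ∃ C : ℝ, 0 ≤ C ∧ ∀ T : ℝ, 2 ≤ T → ∀ a b : ℝ, 1 ≤ a → a ≤ b →
    b ≤ 3 * T → b - a ≤ 2 * T ^ e → |Mt P b - Mt P a| ≤ C * T ^ (1 / 2 + e) := by
  obtain ⟨C, hC0, hC⟩ := mt_incr P h.he (by linarith [h.he1])
  refine ⟨C * 6, by positivity, fun T hT a b ha hab hb hba => (hC a b ha hab).trans ?_⟩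
  have hT0 : 0 ≤ T := by linarith
  have h1 : b ^ e ≤ 3 * T ^ e := by
    calc b ^ e ≤ (3 * T) ^ e := Real.rpow_le_rpow (by linarith) hb h.he.le
      _ = 3 ^ e * T ^ e := Real.mul_rpow (by norm_num) hT0
      _ ≤ 3 * T ^ e := by
          refine mul_le_mul_of_nonneg_right ?_ (Real.rpow_nonneg hT0 _)
          calc (3 : ℝ) ^ e ≤ 3 ^ (1 : ℝ) := Real.rpow_le_rpow_of_exponent_le (by norm_num) (by linarith [h.he1])
            _ = 3 := Real.rpow_one _
  have h2 : T ^ e * T ^ e ≤ T ^ (1 / 2 + e) := by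
    rw [← Real.rpow_add (by linarith)]
    exact Real.rpow_le_rpow_of_exponent_le (by linarith) (by linarith [h.he1])
  have h3 : 0 ≤ T ^ e := Real.rpow_nonneg hT0 _
  calc C * b ^ e * (b - a) ≤ C * (3 * T ^ e) * (2 * T ^ e) := by
        refine mul_le_mul (mul_le_mul_of_nonneg_left h1 hC0) hba (by linarith) (by positivity)
    _ = C * 6 * (T ^ e * T ^ e) := by ring
    _ ≤ C * 6 * T ^ (1 / 2 + e) := mul_le_mul_of_nonneg_left h2 (by positivity)

/-- elementary facts on the sizes -/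
lemma PT.size (h : PT k e) {T : ℝ} (hT : 2 ≤ T) : 1 ≤ T ^ e ∧ T ^ e ≤ T ∧
    (T + 2 * T ^ e) ^ e ≤ 2 * T ^ e ∧ (∀ S : ℝ, 0 ≤ S → S ≤ 3 * T → S ^ (1 / 2 + e) ≤ 3 * T ^ (1 / 2 + e)) ∧
    (16 ≤ T → 2 * T ^ e ≤ T / 2) := by
  have hT0 : 0 ≤ T := by linarith
  have he1 := h.he1
  have he := h.he
  have h1 : 1 ≤ T ^ e := Real.one_le_rpow (by linarith) h.he.le
  have h2 : T ^ e ≤ T := by
    calc T ^ e ≤ T ^ (1 : ℝ) := Real.rpow_le_rpow_of_exponent_le (by linarith) (by linarith)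
      _ = T := Real.rpow_one _
  have h34 : (3 : ℝ) ^ e ≤ 2 := by
    calc (3 : ℝ) ^ e ≤ 4 ^ e := Real.rpow_le_rpow (by norm_num) (by norm_num) he.le
      _ ≤ 4 ^ (1 / 2 : ℝ) := Real.rpow_le_rpow_of_exponent_le (by norm_num) (by linarith)
      _ = 2 := by
          rw [show (4 : ℝ) = 2 ^ (2 : ℝ) by norm_num, ← Real.rpow_mul (by norm_num)]
          norm_num
  refine ⟨h1, h2, ?_, ?_, ?_⟩
  · calc (T + 2 * T ^ e) ^ e ≤ (3 * T) ^ e := Real.rpow_le_rpow (by positivity) (by linarith) he.le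
      _ = 3 ^ e * T ^ e := Real.mul_rpow (by norm_num) hT0
      _ ≤ 2 * T ^ e := mul_le_mul_of_nonneg_right h34 (by linarith)
  · intro S hS0 hS
    calc S ^ (1 / 2 + e) ≤ (3 * T) ^ (1 / 2 + e) := Real.rpow_le_rpow hS0 hS (by linarith)
      _ = 3 ^ (1 / 2 + e) * T ^ (1 / 2 + e) := Real.mul_rpow (by norm_num) hT0
      _ ≤ 3 * T ^ (1 / 2 + e) := by
          refine mul_le_mul_of_nonneg_right ?_ (Real.rpow_nonneg hT0 _)
          calc (3 : ℝ) ^ (1 / 2 + e) ≤ 3 ^ (1 : ℝ) := Real.rpow_le_rpow_of_exponent_le (by norm_num) (by linarith)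
            _ = 3 := Real.rpow_one _
  · intro h16
    have h3 : T ^ e ≤ Real.sqrt T := by
      rw [Real.sqrt_eq_rpow]
      exact Real.rpow_le_rpow_of_exponent_le (by linarith) (by linarith)
    have h4 : Real.sqrt T ≤ T / 4 := by
      rw [Real.sqrt_le_left (by positivity)]
      nlinarith
    linarith

end Pool.Agent.J6H39.SP.EQ2

namespace Pool.Agent.J6H39.SP

open EQ2

theorem t_EQ2 (hM : S_MAIN) : S_EQ2 := by
  intro k hk x hx P
  have hk' : (1 : ℝ) ≤ k := by exact_mod_cast hk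
  have hstep : ∀ T : ℝ, 2 ≤ T → 0 < st x T ∧ st x T ≤ 2 * Real.pi / (k * Real.log T) := by
    intro T hT
    have hlog : 0 < Real.log T := Real.log_pos (by linarith)
    have hx0 : 0 < x := by linarith
    constructor
    · unfold st; positivity
    · unfold st
      apply div_le_div_of_nonneg_left (by positivity) (by positivity)
      exact mul_le_mul_of_nonneg_right hx hlog.le
  obtain ⟨K, hK0, hK⟩ := mt_bdd P
  constructor
  · intro hA ε hε
    obtain ⟨e, hp, heε⟩ := exists_PT k hk hε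
    obtain ⟨CA, hCA⟩ := hA e hp.he
    obtain ⟨CM, hCM0, hCM⟩ := hM k hk k e (by linarith) (by linarith) hp.he
    obtain ⟨CS, hCS0, hCS⟩ := hp.short
    obtain ⟨CI, hCI0, hCI⟩ := hp.incr P
    refine ⟨3 * |CA| + CM + CS + CI + K, fun T hT => ?_⟩
    obtain ⟨s1, s2, s3, s4, s5⟩ := hp.size hT
    obtain ⟨hα0, hα⟩ := hstep T hT
    have hT0 : 0 < T := by linarith
    have hE1 : 1 ≤ T ^ (1 / 2 + e) := Real.one_le_rpow (by linarith) (by linarith [hp.he])
    have hEε : T ^ (1 / 2 + e) ≤ T ^ (1 / 2 + ε) :=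
      Real.rpow_le_rpow_of_exponent_le (by linarith) (by linarith)
    obtain ⟨hlo, hup⟩ := hCM T hT 0 T (st x T) 0 le_rfl hT0.le le_rfl hα0 hα
    have hexp : ((k : ℝ) + 1 - k) / 2 + e = 1 / 2 + e := by ring
    rw [hexp] at hlo hup
    have hshort := hCS T (by linarith) (T ^ e) (by linarith) (by linarith)
    have hsum0 : 0 ≤ 3 * |CA| + CM + CS + CI + K := by positivity
    refine le_trans ?_ (mul_le_mul_of_nonneg_left hEε hsum0)
    set X := T ^ (1 / 2 + e) with hX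
    have hcoef : (3 * |CA| + CM + CS + CI + K) * X = 3 * (|CA| * X) + CM * X + CS * X + CI * X + K * X := by ring
    have hCAX : 0 ≤ |CA| * X := by positivity
    have hCMX : 0 ≤ CM * X := by positivity
    have hCSX : 0 ≤ CS * X := by positivity
    have hCIX : 0 ≤ CI * X := by positivity
    have hKX : K ≤ K * X := le_mul_of_one_le_right hK0 hE1
    rw [abs_le, hcoef]
    constructor
    · -- lower bound
      rcases lt_or_ge T 16 with h16 | h16
      · have h1 := Ds_nonneg k 0 T (st x T) 0 hα0.le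
        have h2 := (abs_le.1 (hK T hT0.le h16.le)).2
        linarith
      · have h5 := s5 h16
        have h6 : 2 ≤ T - T ^ e := by linarith
        have h7 := (abs_le.1 (hCA (T - T ^ e) h6)).1
        have h8 := s4 (T - T ^ e) (by linarith) (by linarith)
        have h9 : CA * (T - T ^ e) ^ (1 / 2 + e) ≤ 3 * (|CA| * X) := by
          have h10 : 0 ≤ (T - T ^ e) ^ (1 / 2 + e) := Real.rpow_nonneg (by linarith) _
          calc CA * (T - T ^ e) ^ (1 / 2 + e) ≤ |CA| * (T - T ^ e) ^ (1 / 2 + e) :=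
                mul_le_mul_of_nonneg_right (le_abs_self _) h10
            _ ≤ |CA| * (3 * X) := mul_le_mul_of_nonneg_left h8 (abs_nonneg _)
            _ = 3 * (|CA| * X) := by ring
        have h11 := (abs_le.1 (hCI T hT (T - T ^ e) T (by linarith) (by linarith) (by linarith) (by linarith))).2
        rw [zero_add] at hlo
        have h12 := int_split k 0 (T ^ e) (T - T ^ e)
        have h13 : ∫ t in (0:ℝ)..(T ^ e), F k t ≤ CS * X := by
          have h14 := int_split k (-(T ^ e)) 0 (T ^ e)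
          have h15 := int_nonneg k (a := -(T ^ e)) (b := 0) (by linarith)
          linarith
        linarith
    · -- upper bound
      have h6 : 2 ≤ T + T ^ e := by linarith
      have h7 := (abs_le.1 (hCA (T + T ^ e) h6)).2
      have h8 := s4 (T + T ^ e) (by linarith) (by linarith)
      have h9 : CA * (T + T ^ e) ^ (1 / 2 + e) ≤ 3 * (|CA| * X) := by
        have h10 : 0 ≤ (T + T ^ e) ^ (1 / 2 + e) := Real.rpow_nonneg (by linarith) _
        calc CA * (T + T ^ e) ^ (1 / 2 + e) ≤ |CA| * (T + T ^ e) ^ (1 / 2 + e) :=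
              mul_le_mul_of_nonneg_right (le_abs_self _) h10
          _ ≤ |CA| * (3 * X) := mul_le_mul_of_nonneg_left h8 (abs_nonneg _)
          _ = 3 * (|CA| * X) := by ring
      have h11 := (abs_le.1 (hCI T hT T (T + T ^ e) (by linarith) (by linarith) (by linarith) (by linarith))).2
      rw [zero_sub] at hup
      have h12 := int_split k (-(T ^ e)) 0 (T + T ^ e)
      have h13 : ∫ t in (-(T ^ e))..(0:ℝ), F k t ≤ CS * X := by
        have h14 := int_split k (-(T ^ e)) 0 (T ^ e)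
        have h15 := int_nonneg k (a := 0) (b := T ^ e) (by linarith)
        linarith
      linarith
  · intro hB ε hε
    obtain ⟨e, hp, heε⟩ := exists_PT k hk hε
    obtain ⟨CB, hCB⟩ := hB e hp.he
    obtain ⟨CM, hCM0, hCM⟩ := hM k hk k e (by linarith) (by linarith) hp.he
    obtain ⟨CS, hCS0, hCS⟩ := hp.short
    obtain ⟨CI, hCI0, hCI⟩ := hp.incr P
    refine ⟨3 * |CB| + 3 * CM + CS + CI + K, fun T hT => ?_⟩
    obtain ⟨s1, s2, s3, s4, s5⟩ := hp.size hT
    have hT0 : 0 < T := by linarith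
    have hE1 : 1 ≤ T ^ (1 / 2 + e) := Real.one_le_rpow (by linarith) (by linarith [hp.he])
    have hEε : T ^ (1 / 2 + e) ≤ T ^ (1 / 2 + ε) :=
      Real.rpow_le_rpow_of_exponent_le (by linarith) (by linarith)
    have hexp : ((k : ℝ) + 1 - k) / 2 + e = 1 / 2 + e := by ring
    have hsum0 : 0 ≤ 3 * |CB| + 3 * CM + CS + CI + K := by positivity
    refine le_trans ?_ (mul_le_mul_of_nonneg_left hEε hsum0)
    set X := T ^ (1 / 2 + e) with hX
    have hcoef : (3 * |CB| + 3 * CM + CS + CI + K) * X =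
      3 * (|CB| * X) + 3 * (CM * X) + CS * X + CI * X + K * X := by ring
    have hCBX : 0 ≤ |CB| * X := by positivity
    have hCMX : 0 ≤ CM * X := by positivity
    have hCSX : 0 ≤ CS * X := by positivity
    have hCIX : 0 ≤ CI * X := by positivity
    have hKX : K ≤ K * X := le_mul_of_one_le_right hK0 hE1
    rw [abs_le, hcoef]
    constructor
    · -- lower bound
      rcases lt_or_ge T 16 with h16 | h16
      · have h1 := int_nonneg k hT0.le
        have h2 := (abs_le.1 (hK T hT0.le h16.le)).2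
        linarith
      · have h5 := s5 h16
        obtain ⟨T₂, hT₂⟩ : ∃ T₂ : ℝ, T₂ = T - 2 * T ^ e := ⟨_, rfl⟩
        have h6 : 2 ≤ T₂ := by rw [hT₂]; linarith
        have h6' : T₂ ≤ T := by rw [hT₂]; linarith
        have hh2 : T₂ ^ e ≤ T ^ e := Real.rpow_le_rpow (by linarith) h6' hp.he.le
        have hh20 : 0 ≤ T₂ ^ e := Real.rpow_nonneg (by linarith) _
        obtain ⟨hα0, hα⟩ := hstep T₂ h6
        obtain ⟨hlo, hup⟩ := hCM T₂ h6 0 T₂ (st x T₂) 0 le_rfl (by linarith) le_rfl hα0 hα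
        rw [hexp] at hup
        have h7 := (abs_le.1 (hCB T₂ h6)).1
        have h8 := s4 T₂ (by linarith) (by linarith)
        have h10 : 0 ≤ T₂ ^ (1 / 2 + e) := Real.rpow_nonneg (by linarith) _
        have h9 : CB * T₂ ^ (1 / 2 + e) ≤ 3 * (|CB| * X) := by
          calc CB * T₂ ^ (1 / 2 + e) ≤ |CB| * T₂ ^ (1 / 2 + e) :=
                mul_le_mul_of_nonneg_right (le_abs_self _) h10
            _ ≤ |CB| * (3 * X) := mul_le_mul_of_nonneg_left h8 (abs_nonneg _)
            _ = 3 * (|CB| * X) := by ring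
        have h9' : CM * T₂ ^ (1 / 2 + e) ≤ 3 * (CM * X) := by
          calc CM * T₂ ^ (1 / 2 + e) ≤ CM * (3 * X) := mul_le_mul_of_nonneg_left h8 hCM0
            _ = 3 * (CM * X) := by ring
        have h11 := (abs_le.1 (hCI T hT T₂ T (by linarith) h6' (by linarith) (by rw [hT₂]; linarith))).2
        rw [zero_sub] at hup
        -- the integral over `[-T₂^e, T₂ + T₂^e]` is at most the one over `[-T^e, T]`
        have h12 := int_split k (-(T₂ ^ e)) 0 (T₂ + T₂ ^ e)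
        have h13 : ∫ t in (-(T₂ ^ e))..(0:ℝ), F k t ≤ CS * X := by
          have h14 := int_split k (-(T₂ ^ e)) 0 (T₂ ^ e)
          have h15 := int_nonneg k (a := 0) (b := T₂ ^ e) hh20
          have h16' := hCS T (by linarith) (T₂ ^ e) hh20 (by linarith)
          linarith
        have h17 := int_split k 0 (T₂ + T₂ ^ e) T
        have h18 := int_nonneg k (a := T₂ + T₂ ^ e) (b := T) (by rw [hT₂]; rw [hT₂] at hh2; linarith)
        linarith
    · -- upper bound
      obtain ⟨T₁, hT₁⟩ : ∃ T₁ : ℝ, T₁ = T + 2 * T ^ e := ⟨_, rfl⟩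
      rw [← hT₁] at s3
      have h6 : 2 ≤ T₁ := by rw [hT₁]; linarith
      have h63 : T₁ ≤ 3 * T := by rw [hT₁]; linarith
      have hh0 : 0 ≤ T₁ ^ e := Real.rpow_nonneg (by linarith) _
      obtain ⟨hα0, hα⟩ := hstep T₁ h6
      obtain ⟨hlo, hup⟩ := hCM T₁ h6 0 T₁ (st x T₁) 0 le_rfl (by linarith) le_rfl hα0 hα
      rw [hexp] at hlo
      have h7 := (abs_le.1 (hCB T₁ h6)).2
      have h8 := s4 T₁ (by linarith) h63
      have h10 : 0 ≤ T₁ ^ (1 / 2 + e) := Real.rpow_nonneg (by linarith) _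
      have h9 : CB * T₁ ^ (1 / 2 + e) ≤ 3 * (|CB| * X) := by
        calc CB * T₁ ^ (1 / 2 + e) ≤ |CB| * T₁ ^ (1 / 2 + e) :=
              mul_le_mul_of_nonneg_right (le_abs_self _) h10
          _ ≤ |CB| * (3 * X) := mul_le_mul_of_nonneg_left h8 (abs_nonneg _)
          _ = 3 * (|CB| * X) := by ring
      have h9' : CM * T₁ ^ (1 / 2 + e) ≤ 3 * (CM * X) := by
        calc CM * T₁ ^ (1 / 2 + e) ≤ CM * (3 * X) := mul_le_mul_of_nonneg_left h8 hCM0
          _ = 3 * (CM * X) := by ring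
      have h11 := (abs_le.1 (hCI T hT T T₁ (by linarith) (by rw [hT₁]; linarith) h63 (by rw [hT₁]; linarith))).2
      rw [zero_add] at hlo
      have h12 := int_split k 0 (T₁ ^ e) (T₁ - T₁ ^ e)
      have h13 : ∫ t in (0:ℝ)..(T₁ ^ e), F k t ≤ CS * X := by
        have h14 := int_split k (-(T₁ ^ e)) 0 (T₁ ^ e)
        have h15 := int_nonneg k (a := -(T₁ ^ e)) (b := 0) (by linarith)
        have h16' := hCS T (by linarith) (T₁ ^ e) hh0 (by linarith)
        linarith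
      have h17 := int_split k 0 T (T₁ - T₁ ^ e)
      have h18 := int_nonneg k (a := T) (b := T₁ - T₁ ^ e) (by rw [hT₁]; rw [hT₁] at s3; linarith)
      linarith

end Pool.Agent.J6H39.SP
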