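import Pool.Agent.J6H39.SP.Stm
import Pool.Agent.E8helper52.OR.Contour

/-! Project SP: the contour shift (`S_CT`). -/

set_option autoImplicit false

open MeasureTheory Set Filter Topology Complex

namespace Pool.Agent.J6H39.SP

open H345 (XX)
open Pool.Agent.E8helper52.OR

namespace CT

/-! ### growth -/

theorem norm_strip {s : ℂ} (h1 : 1 / 2 ≤ s.re) (h2 : s.re ≤ 2) : ‖s‖ ≤ 2 + |s.im| := by
  refine (Complex.norm_le_abs_re_add_abs_im s).trans ?_
  rw [abs_of_nonneg (by linarith)]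
  linarith

theorem zeta_strip {s : ℂ} (h1 : 1 / 2 ≤ s.re) (h2 : s.re ≤ 2) (h3 : 1 ≤ |s.im|) :
    ‖riemannZeta s‖ ≤ 3 * (3 + |s.im|) ^ 2 := by
  have hs1 : s ≠ 1 := by
    rintro rfl
    simp at h3
    linarith
  have n2 : 1 ≤ ‖s - 1‖ := by
    have := Complex.abs_im_le_norm (s - 1)
    simp only [sub_im, one_im, sub_zero] at this
    exact h3.trans this
  rw [riemannZeta_eq_inv_sub_mul hs1, norm_mul, norm_inv]
  calc ‖s - 1‖⁻¹ * ‖riemannZeta₁ s‖ ≤ 1 * (3 * (‖s‖ + 1) ^ 2) := by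
        refine mul_le_mul (inv_le_one_of_one_le₀ n2) (Pool.Agent.H437R2.z1_norm_le h1) (norm_nonneg _)
          zero_le_one
    _ ≤ 3 * (3 + |s.im|) ^ 2 := by
        rw [one_mul]
        have := norm_strip h1 h2
        have h5 : ‖s‖ + 1 ≤ 3 + |s.im| := by linarith
        gcongr

theorem XX_strip : ∃ K : ℝ, 0 < K ∧ ∀ s : ℂ, 1 / 2 ≤ s.re → s.re ≤ 2 → 1 ≤ |s.im| →
    ‖XX s‖ ≤ K * (3 + |s.im|) ^ 2 := by
  obtain ⟨K, hK, hX⟩ := H345.Chi.XX_size
  have key : ∀ s : ℂ, 1 / 2 ≤ s.re → s.re ≤ 2 → 1 ≤ s.im → ‖XX s‖ ≤ Real.exp K * (3 + |s.im|) ^ 2 := by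
    intro s h1 h2 h3
    refine (hX s h1 (by linarith) h3).2.trans ?_
    refine mul_le_mul_of_nonneg_left ?_ (Real.exp_pos K).le
    calc s.im ^ (s.re - 1 / 2) ≤ s.im ^ (2 : ℝ) := Real.rpow_le_rpow_of_exponent_le h3 (by linarith)
      _ = s.im ^ 2 := Real.rpow_two _
      _ ≤ (3 + |s.im|) ^ 2 := by
        have := le_abs_self s.im
        exact pow_le_pow_left₀ (by linarith) (by linarith) 2
  refine ⟨Real.exp K, Real.exp_pos K, fun s h1 h2 h3 => ?_⟩
  rcases le_abs.1 h3 with h | h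
  · exact key s h1 h2 h
  · have h4 := key ((starRingEnd ℂ) s) (by simpa using h1) (by simpa using h2) (by simpa using h)
    rw [H345.Chi.XX_conj, RCLike.norm_conj] at h4
    simpa using h4

theorem prod_strip (k : ℕ) : ∃ C : ℝ, 0 ≤ C ∧ ∀ s : ℂ, 1 / 2 ≤ s.re → s.re ≤ 2 → 1 ≤ |s.im| →
    ‖riemannZeta s ^ k * riemannZeta (1 - s) ^ k‖ ≤ C * (3 + |s.im|) ^ (6 * k) := by
  obtain ⟨K, hK, hX⟩ := XX_strip
  refine ⟨(9 * K) ^ k, by positivity, fun s h1 h2 h3 => ?_⟩
  have hs1 : s ≠ 1 := by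
    rintro rfl
    simp at h3
    linarith
  have hz := zeta_strip h1 h2 h3
  have hx := hX s h1 h2 h3
  have fe : riemannZeta (1 - s) = XX s * riemannZeta s := by
    refine H345.zeta_fe s (fun n hn => ?_) hs1
    rw [hn] at h1
    simp only [neg_re, natCast_re] at h1
    have : (0:ℝ) ≤ n := Nat.cast_nonneg n
    linarith
  have h4 : ‖riemannZeta s‖ * ‖riemannZeta (1 - s)‖ ≤ (9 * K) * (3 + |s.im|) ^ 6 := by
    rw [fe, norm_mul]
    calc ‖riemannZeta s‖ * (‖XX s‖ * ‖riemannZeta s‖)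
        ≤ (3 * (3 + |s.im|) ^ 2) * ((K * (3 + |s.im|) ^ 2) * (3 * (3 + |s.im|) ^ 2)) := by
          gcongr
      _ = _ := by ring
  rw [norm_mul, norm_pow, norm_pow, ← mul_pow]
  calc (‖riemannZeta s‖ * ‖riemannZeta (1 - s)‖) ^ k ≤ ((9 * K) * (3 + |s.im|) ^ 6) ^ k :=
        pow_le_pow_left₀ (by positivity) h4 k
    _ = _ := by rw [mul_pow, ← pow_mul]

/-- the window in the coordinate `s` -/
theorem arg_eq (s : ℂ) : (s - 1 / 2) / I = ((s.im : ℝ) : ℂ) + (((-(s.re - 1 / 2) : ℝ)) : ℂ) * I := by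
  rw [div_I]
  apply Complex.ext
  · simp
  · simp

theorem W_strip (hW : S_W) {a b Δ : ℝ} (hab : a ≤ b) (hΔ : 1 ≤ Δ) {s : ℂ} (h1 : 1 / 2 ≤ s.re) (h2 : s.re ≤ 2) :
    ‖Wd a b Δ ((s - 1 / 2) / I)‖ ≤ Real.exp 4 * Real.exp (-(ds a b s.im / Δ) ^ 2) := by
  rw [arg_eq]
  refine (hW a b Δ hab hΔ).2.2.1 _ _ ?_
  rw [abs_neg, abs_of_nonneg (by linarith)]
  linarith

theorem N_strip {N : ℝ} (hN : 1 ≤ N) {s : ℂ} {x : ℝ} (h1 : x ≤ s.re) :
    ‖(N : ℂ) ^ (1 / 2 - s)‖ ≤ N ^ (1 / 2 - x) := by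
  rw [Complex.norm_cpow_eq_rpow_re_of_pos (by linarith)]
  apply Real.rpow_le_rpow_of_exponent_le hN
  simp only [sub_re, div_ofNat_re, one_re]
  linarith

theorem ds_ge (a b t : ℝ) : |t| - (|a| + |b|) ≤ ds a b t := by
  unfold ds
  rcases le_total 0 t with h | h
  · rw [abs_of_nonneg h]
    have := le_abs_self b
    have := abs_nonneg a
    refine le_trans ?_ (le_max_right _ _)
    refine le_trans ?_ (le_max_right _ _)
    linarith
  · rw [abs_of_nonpos h]
    have := neg_abs_le a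
    have := abs_nonneg b
    refine le_trans ?_ (le_max_right _ _)
    refine le_trans ?_ (le_max_left _ _)
    linarith

theorem decay (a b : ℝ) {Δ : ℝ} (hΔ : 1 ≤ Δ) (n : ℕ) {t : ℝ} (ht : 1 ≤ |t|) :
    (3 + |t|) ^ n * Real.exp (-(ds a b t / Δ) ^ 2) ≤
      (n + 2).factorial * Real.exp (3 + (|a| + |b|) + Δ ^ 2 / 4) / t ^ 2 := by
  have ht2 : 0 < t ^ 2 := by
    rw [← sq_abs]; positivity
  rw [le_div_iff₀ ht2]
  have h1 : (3 + |t|) ^ (n + 2) ≤ (n + 2).factorial * Real.exp (3 + |t|) := by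
    have := Real.pow_div_factorial_le_exp (3 + |t|) (by positivity) (n + 2)
    rw [div_le_iff₀ (by positivity)] at this
    linarith
  have h2 : t ^ 2 ≤ (3 + |t|) ^ 2 := by
    rw [← sq_abs]
    exact pow_le_pow_left₀ (abs_nonneg _) (by linarith) 2
  have h3 : -(ds a b t / Δ) ^ 2 ≤ Δ ^ 2 / 4 - ds a b t := by
    have h4 : 0 ≤ (ds a b t / Δ - Δ / 2) ^ 2 := sq_nonneg _
    have h5 : (ds a b t / Δ - Δ / 2) ^ 2 = (ds a b t / Δ) ^ 2 - ds a b t + Δ ^ 2 / 4 := by
      have : Δ ≠ 0 := by linarith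
      field_simp
      ring
    linarith
  have h6 := ds_ge a b t
  calc (3 + |t|) ^ n * Real.exp (-(ds a b t / Δ) ^ 2) * t ^ 2
      ≤ (3 + |t|) ^ n * Real.exp (-(ds a b t / Δ) ^ 2) * (3 + |t|) ^ 2 := by gcongr
    _ = (3 + |t|) ^ (n + 2) * Real.exp (-(ds a b t / Δ) ^ 2) := by ring
    _ ≤ ((n + 2).factorial * Real.exp (3 + |t|)) * Real.exp (-(ds a b t / Δ) ^ 2) := by gcongr
    _ = (n + 2).factorial * Real.exp (3 + |t| + -(ds a b t / Δ) ^ 2) := by rw [mul_assoc, ← Real.exp_add]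
    _ ≤ (n + 2).factorial * Real.exp (3 + (|a| + |b|) + Δ ^ 2 / 4) := by
        have : 3 + |t| + -(ds a b t / Δ) ^ 2 ≤ 3 + (|a| + |b|) + Δ ^ 2 / 4 := by linarith
        gcongr

theorem Ps_bound (hW : S_W) (k : ℕ) {a b Δ N : ℝ} (hab : a ≤ b) (hΔ : 1 ≤ Δ) (hN : 1 ≤ N) :
    ∃ C : ℝ, 0 ≤ C ∧ ∀ z : ℂ, 1 / 2 ≤ z.re → z.re ≤ 2 → 1 ≤ |z.im| → ‖Ps k N a b Δ z‖ ≤ C / z.im ^ 2 := by
  obtain ⟨C, hC, hb⟩ := prod_strip k
  refine ⟨C * Real.exp 4 * ((6 * k + 2).factorial * Real.exp (3 + (|a| + |b|) + Δ ^ 2 / 4)), by positivity, ?_⟩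
  intro z h1 h2 h3
  have e1 := hb z h1 h2 h3
  have e2 := W_strip hW hab hΔ h1 h2
  have e3 := N_strip hN h1
  rw [sub_self, Real.rpow_zero] at e3
  have e4 := decay a b hΔ (6 * k) h3
  unfold Ps
  rw [norm_mul, norm_mul]
  calc ‖riemannZeta z ^ k * riemannZeta (1 - z) ^ k‖ * ‖(N : ℂ) ^ (1 / 2 - z)‖ * ‖Wd a b Δ ((z - 1 / 2) / I)‖
      ≤ (C * (3 + |z.im|) ^ (6 * k)) * 1 * (Real.exp 4 * Real.exp (-(ds a b z.im / Δ) ^ 2)) := by
        gcongr
    _ = C * Real.exp 4 * ((3 + |z.im|) ^ (6 * k) * Real.exp (-(ds a b z.im / Δ) ^ 2)) := by ring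
    _ ≤ C * Real.exp 4 * ((6 * k + 2).factorial * Real.exp (3 + (|a| + |b|) + Δ ^ 2 / 4) / z.im ^ 2) := by
        gcongr
    _ = _ := by ring

theorem Ps_diff (hW : S_W) (k : ℕ) {a b Δ N : ℝ} (hab : a ≤ b) (hΔ : 1 ≤ Δ) (hN : 1 ≤ N) {z : ℂ}
    (h0 : 1 / 2 ≤ z.re) (h1 : z ≠ 1) : DifferentiableAt ℂ (Ps k N a b Δ) z := by
  have d1 : DifferentiableAt ℂ riemannZeta z := differentiableAt_riemannZeta h1
  have d2 : DifferentiableAt ℂ (fun s : ℂ => riemannZeta (1 - s)) z := by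
    have h2 : (1 - z) ≠ 1 := by
      intro h
      have := congrArg Complex.re h
      simp only [sub_re, one_re] at this
      linarith
    exact DifferentiableAt.comp z (g := riemannZeta) (differentiableAt_riemannZeta h2) (by fun_prop)
  have d3 : DifferentiableAt ℂ (fun s : ℂ => (N : ℂ) ^ (1 / 2 - s)) z := by
    refine DifferentiableAt.const_cpow (by fun_prop) (Or.inl ?_)
    have : N ≠ 0 := by linarith
    exact_mod_cast this
  have d4 : DifferentiableAt ℂ (fun s : ℂ => Wd a b Δ ((s - 1 / 2) / I)) z :=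
    DifferentiableAt.comp z (g := Wd a b Δ) ((hW a b Δ hab hΔ).1 _) (by fun_prop)
  exact (((d1.pow k).mul (d2.pow k)).mul d3).mul d4

/-! ### the shift past a singularity at `1` -/

theorem shift {f : ℂ → ℂ} {r M C : ℝ} (hr : 0 < r) (hr1 : r ≤ 1) (hC : 0 ≤ C)
    (hd : ∀ z : ℂ, 1 - r ≤ z.re → z.re ≤ 1 + r → z ≠ 1 → DifferentiableAt ℂ f z)
    (hb : ∀ z : ℂ, 1 - r ≤ z.re → z.re ≤ 1 + r → 1 ≤ |z.im| → ‖f z‖ ≤ C / z.im ^ 2)
    (hM : ∀ z : ℂ, 1 - r ≤ z.re → z.re ≤ 1 + r → |z.im| ≤ r → r ≤ ‖z - 1‖ → ‖f z‖ ≤ M) :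
    ‖(∫ y : ℝ, f (((1 - r : ℝ) : ℂ) + y * I)) - ∫ y : ℝ, f (((1 + r : ℝ) : ℂ) + y * I)‖ ≤ 8 * r * M := by
  set a : ℝ := 1 - r with ha
  set b : ℝ := 1 + r with hb'
  have hab : a ≤ b := by linarith
  have ne1 : ∀ x y : ℝ, (x ≠ 1 ∨ y ≠ 0) → ((x : ℂ) + y * I) ≠ 1 := by
    intro x y h h2
    have e1 := congrArg Complex.re h2
    have e2 := congrArg Complex.im h2
    simp at e1 e2
    rcases h with h | h
    · exact h e1
    · exact h e2
  have hcont : ∀ x : ℝ, a ≤ x → x ≤ b → x ≠ 1 → Continuous (fun y : ℝ => f (x + y * I)) := fun x h1 h2 h3 =>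
    cont_line (fun z hz => hd z (by rw [hz]; exact h1) (by rw [hz]; exact h2) (by
      rintro rfl
      rw [one_re] at hz
      exact h3 hz.symm))
  have hint : ∀ x : ℝ, a ≤ x → x ≤ b → x ≠ 1 → Integrable (fun y : ℝ => f (x + y * I)) := by
    intro x h1 h2 h3
    obtain ⟨C', -, hC'⟩ := global_bd (hcont x h1 h2 h3) hC le_rfl (fun y hy => by
      have := hb (x + y * I) (by simpa using h1) (by simpa using h2) (by simpa using hy)
      simpa using this)
    exact integrable_of_bd (hcont x h1 h2 h3) hC'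
  have ha1 : a ≠ 1 := by rw [ha]; linarith
  have hb1 : b ≠ 1 := by rw [hb']; linarith
  have hrect : ∀ c d : ℝ, (c ≤ d) → (r ≤ c ∨ d ≤ -r) → (∫ x in a..b, f (x + (c : ℝ) * I)) - (∫ x in a..b, f (x + (d : ℝ) * I)) +
      I • (∫ y in c..d, f (b + y * I)) - I • (∫ y in c..d, f (a + y * I)) = 0 := by
    intro c d hcd hcd'
    have := Complex.integral_boundary_rect_eq_zero_of_differentiableOn f (⟨a, c⟩ : ℂ) (⟨b, d⟩ : ℂ) (by
      intro z hz
      rw [mem_reProdIm] at hz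
      have h1 := hz.1
      have h2 := hz.2
      simp only [uIcc_of_le hab] at h1
      simp only [uIcc_of_le hcd] at h2
      refine (hd z h1.1 h1.2 ?_).differentiableWithinAt
      rintro rfl
      rw [one_im] at h2
      rcases hcd' with h | h
      · linarith [h2.1]
      · linarith [h2.2])
    exact this
  -- the bound on the small square
  have hsq1 : ∀ y : ℝ, |y| ≤ r → ‖f (a + y * I)‖ ≤ M := by
    intro y hy
    refine hM _ (by simp) (by simpa using hab) (by simpa using hy) ?_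
    have := Complex.abs_re_le_norm ((a : ℂ) + y * I - 1)
    have e : ((a : ℂ) + y * I - 1).re = -r := by simp [ha]
    rw [e, abs_neg, abs_of_pos hr] at this
    exact this
  have hsq2 : ∀ y : ℝ, |y| ≤ r → ‖f (b + y * I)‖ ≤ M := by
    intro y hy
    refine hM _ (by simpa using hab) (by simp) (by simpa using hy) ?_
    have := Complex.abs_re_le_norm ((b : ℂ) + y * I - 1)
    have e : ((b : ℂ) + y * I - 1).re = r := by simp [hb']
    rw [e, abs_of_pos hr] at this
    exact this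
  have hsq3 : ∀ x y : ℝ, a ≤ x → x ≤ b → |y| = r → ‖f (x + y * I)‖ ≤ M := by
    intro x y h1 h2 hy
    refine hM _ (by simpa using h1) (by simpa using h2) (by simpa using hy.le) ?_
    have := Complex.abs_im_le_norm ((x : ℂ) + y * I - 1)
    have e : ((x : ℂ) + y * I - 1).im = y := by simp
    rw [e, hy] at this
    exact this
  have hM0 : 0 ≤ M := (norm_nonneg _).trans (hsq1 0 (by simpa using hr.le))
  -- finite version
  have hfin : ∀ R : ℝ, 1 ≤ R → ‖(∫ y in (-R)..R, f (a + y * I)) - ∫ y in (-R)..R, f (b + y * I)‖ ≤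
      8 * r * M + (C / R ^ 2 * (b - a) + C / R ^ 2 * (b - a)) := by
    intro R hR
    have u1 := hrect r R (by linarith) (Or.inl le_rfl)
    have u2 := hrect (-R) (-r) (by linarith) (Or.inr le_rfl)
    have ia : ∀ c d : ℝ, IntervalIntegrable (fun y : ℝ => f (a + y * I)) volume c d := fun c d =>
      (hcont a le_rfl hab ha1).intervalIntegrable c d
    have ib : ∀ c d : ℝ, IntervalIntegrable (fun y : ℝ => f (b + y * I)) volume c d := fun c d =>
      (hcont b hab le_rfl hb1).intervalIntegrable c d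
    have sa : (∫ y in (-R)..R, f (a + y * I)) = (∫ y in (-R)..(-r), f (a + y * I)) +
        (∫ y in (-r)..r, f (a + y * I)) + ∫ y in r..R, f (a + y * I) := by
      rw [intervalIntegral.integral_add_adjacent_intervals (ia _ _) (ia _ _),
        intervalIntegral.integral_add_adjacent_intervals (ia _ _) (ia _ _)]
    have sb : (∫ y in (-R)..R, f (b + y * I)) = (∫ y in (-R)..(-r), f (b + y * I)) +
        (∫ y in (-r)..r, f (b + y * I)) + ∫ y in r..R, f (b + y * I) := by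
      rw [intervalIntegral.integral_add_adjacent_intervals (ib _ _) (ib _ _),
        intervalIntegral.integral_add_adjacent_intervals (ib _ _) (ib _ _)]
    set A1 := ∫ y in (-R)..(-r), f (a + y * I)
    set A2 := ∫ y in (-r)..r, f (a + y * I) with hA2
    set A3 := ∫ y in r..R, f (a + y * I)
    set B1 := ∫ y in (-R)..(-r), f (b + y * I)
    set B2 := ∫ y in (-r)..r, f (b + y * I) with hB2
    set B3 := ∫ y in r..R, f (b + y * I)
    set X1 := ∫ x in a..b, f (x + ((r : ℝ) : ℂ) * I) with hX1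
    set X2 := ∫ x in a..b, f (x + ((R : ℝ) : ℂ) * I) with hX2
    set X3 := ∫ x in a..b, f (x + ((-R : ℝ) : ℂ) * I) with hX3
    set X4 := ∫ x in a..b, f (x + ((-r : ℝ) : ℂ) * I) with hX4
    have e : I * ((∫ y in (-R)..R, f (a + y * I)) - ∫ y in (-R)..R, f (b + y * I)) =
        I * A2 - I * B2 + X1 - X2 + X3 - X4 := by
      rw [sa, sb]
      simp only [smul_eq_mul] at u1 u2
      linear_combination (-1 : ℂ) * u1 - u2
    have n1 : ‖A2‖ ≤ M * (2 * r) := by
      have := intervalIntegral.norm_integral_le_of_norm_le_const (a := -r) (b := r) (C := M)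
        (f := fun y : ℝ => f (a + y * I)) (fun y hy => by
          rw [uIoc_of_le (by linarith)] at hy
          exact hsq1 y (abs_le.2 ⟨hy.1.le, hy.2⟩))
      rw [abs_of_nonneg (by linarith)] at this
      rw [hA2]
      linarith
    have n2 : ‖B2‖ ≤ M * (2 * r) := by
      have := intervalIntegral.norm_integral_le_of_norm_le_const (a := -r) (b := r) (C := M)
        (f := fun y : ℝ => f (b + y * I)) (fun y hy => by
          rw [uIoc_of_le (by linarith)] at hy
          exact hsq2 y (abs_le.2 ⟨hy.1.le, hy.2⟩))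
      rw [abs_of_nonneg (by linarith)] at this
      rw [hB2]
      linarith
    have nx : ∀ y B : ℝ, (∀ x : ℝ, a ≤ x → x ≤ b → ‖f (x + y * I)‖ ≤ B) →
        ‖∫ x in a..b, f (x + (y : ℂ) * I)‖ ≤ B * (b - a) := by
      intro y B hB
      have := intervalIntegral.norm_integral_le_of_norm_le_const (a := a) (b := b) (C := B)
        (f := fun x : ℝ => f (x + (y : ℂ) * I)) (fun x hx => by
          rw [uIoc_of_le hab] at hx
          exact hB x hx.1.le hx.2)
      rwa [abs_of_nonneg (by linarith)] at this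
    have n3 : ‖X1‖ ≤ M * (b - a) := nx r M fun x h1 h2 => hsq3 x r h1 h2 (abs_of_pos hr)
    have n4 : ‖X4‖ ≤ M * (b - a) := nx (-r) M fun x h1 h2 => hsq3 x (-r) h1 h2 (by
      rw [abs_neg, abs_of_pos hr])
    have n5 : ‖X2‖ ≤ C / R ^ 2 * (b - a) := nx R _ fun x h1 h2 => by
      have := hb (x + (R : ℂ) * I) (by simpa using h1) (by simpa using h2) (by
        simp only [add_im, ofReal_im, mul_im, ofReal_re, I_im, mul_one, I_re, mul_zero, add_zero, zero_add]
        rw [abs_of_nonneg (by linarith)]; exact hR)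
      simpa using this
    have n6 : ‖X3‖ ≤ C / R ^ 2 * (b - a) := nx (-R) _ fun x h1 h2 => by
      have := hb (x + ((-R : ℝ) : ℂ) * I) (by simpa using h1) (by simpa using h2) (by
        simp only [add_im, ofReal_im, mul_im, ofReal_re, I_im, mul_one, I_re, mul_zero, add_zero, zero_add]
        rw [abs_neg, abs_of_nonneg (by linarith)]; exact hR)
      simpa using this
    have n0 : ‖I * ((∫ y in (-R)..R, f (a + y * I)) - ∫ y in (-R)..R, f (b + y * I))‖ =
        ‖(∫ y in (-R)..R, f (a + y * I)) - ∫ y in (-R)..R, f (b + y * I)‖ := by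
      rw [norm_mul, norm_I, one_mul]
    rw [← n0, e]
    have q1 : ‖I * A2‖ = ‖A2‖ := by rw [norm_mul, norm_I, one_mul]
    have q2 : ‖I * B2‖ = ‖B2‖ := by rw [norm_mul, norm_I, one_mul]
    have t1 := norm_sub_le (I * A2 - I * B2 + X1 - X2 + X3) X4
    have t2 := norm_add_le (I * A2 - I * B2 + X1 - X2) X3
    have t3 := norm_sub_le (I * A2 - I * B2 + X1) X2
    have t4 := norm_add_le (I * A2 - I * B2) X1
    have t5 := norm_sub_le (I * A2) (I * B2)
    have hba : b - a = 2 * r := by rw [ha, hb']; ring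
    rw [hba] at n3 n4 n5 n6 ⊢
    linarith
  have hA := intervalIntegral_tendsto_integral (hint a le_rfl hab ha1) tendsto_neg_atTop_atBot tendsto_id
  have hB := intervalIntegral_tendsto_integral (hint b hab le_rfl hb1) tendsto_neg_atTop_atBot tendsto_id
  have hlim := (hA.sub hB).norm
  have h0 : Tendsto (fun R : ℝ => C / R ^ 2 * (b - a)) atTop (𝓝 0) := by
    have h1 : Tendsto (fun R : ℝ => C / R ^ 2 * (b - a)) atTop (𝓝 (0 * (b - a))) := by
      apply Tendsto.mul_const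
      exact tendsto_const_nhds.div_atTop (tendsto_pow_atTop (by norm_num))
    rwa [zero_mul] at h1
  have h1 : Tendsto (fun R : ℝ => 8 * r * M + (C / R ^ 2 * (b - a) + C / R ^ 2 * (b - a))) atTop
      (𝓝 (8 * r * M + (0 + 0))) := tendsto_const_nhds.add (h0.add h0)
  rw [add_zero, add_zero] at h1
  refine le_of_tendsto_of_tendsto hlim h1 ?_
  filter_upwards [eventually_ge_atTop 1] with R hR
  exact hfin R hR

end CT

open CT in
theorem t_CT (hW : S_W) : S_CT := by
  intro k hk σ r hσ hσ2 hr hr2 hrσ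
  -- the bound on the square
  have hM : ∃ M : ℝ, 0 ≤ M ∧ ∀ z : ℂ, 1 - r ≤ z.re → z.re ≤ 1 + r → |z.im| ≤ r → r ≤ ‖z - 1‖ →
      ‖riemannZeta z ^ k * riemannZeta (1 - z) ^ k‖ ≤ M := by
    set K : Set ℂ := Metric.closedBall (1 : ℂ) 2 ∩ {z : ℂ | 1 - r ≤ z.re} ∩ {z : ℂ | r ≤ ‖z - 1‖} with hK
    have hKc : IsCompact K := by
      refine ((isCompact_closedBall (1 : ℂ) 2).inter_right ?_).inter_right ?_
      · exact isClosed_le continuous_const Complex.continuous_re
      · exact isClosed_le continuous_const (by fun_prop)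
    have hcont : ContinuousOn (fun z : ℂ => riemannZeta z ^ k * riemannZeta (1 - z) ^ k) K := by
      intro z hz
      have hz1 : z ≠ 1 := by
        rintro rfl
        have := hz.2
        simp only [mem_setOf_eq, sub_self, norm_zero] at this
        linarith
      have hzre : 1 - r ≤ z.re := hz.1.2
      have h2 : (1 - z) ≠ 1 := by
        intro h
        have := congrArg Complex.re h
        simp only [sub_re, one_re] at this
        linarith
      have d1 : ContinuousAt riemannZeta z := (differentiableAt_riemannZeta hz1).continuousAt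
      have d2 : ContinuousAt (fun s : ℂ => riemannZeta (1 - s)) z :=
        ContinuousAt.comp (g := riemannZeta) (differentiableAt_riemannZeta h2).continuousAt (by fun_prop)
      exact ((d1.pow k).mul (d2.pow k)).continuousWithinAt
    obtain ⟨M, hM⟩ := hKc.exists_bound_of_continuousOn hcont
    refine ⟨max M 0, le_max_right _ _, fun z h1 h2 h3 h4 => (hM z ⟨⟨?_, h1⟩, h4⟩).trans (le_max_left _ _)⟩
    rw [Metric.mem_closedBall, dist_eq_norm]
    refine (Complex.norm_le_abs_re_add_abs_im _).trans ?_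
    simp only [sub_re, one_re, sub_im, one_im, sub_zero]
    have : |z.re - 1| ≤ r := abs_le.2 ⟨by linarith, by linarith⟩
    linarith
  obtain ⟨M, hM0, hM⟩ := hM
  refine ⟨8 * r * (M * Real.exp 4), by positivity, fun a b Δ N hab hΔ hN => ?_⟩
  obtain ⟨C, hC, hbd⟩ := Ps_bound hW k hab hΔ hN
  have hdf : ∀ z : ℂ, 1 / 2 ≤ z.re → z ≠ 1 → DifferentiableAt ℂ (Ps k N a b Δ) z := fun z h1 h2 =>
    Ps_diff hW k hab hΔ hN h1 h2
  have hint : ∀ x : ℝ, 1 / 2 ≤ x → x ≤ 2 → x ≠ 1 → Integrable (fun y : ℝ => Ps k N a b Δ (x + y * I)) := by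
    intro x h1 h2 h3
    have hcont : Continuous (fun y : ℝ => Ps k N a b Δ (x + y * I)) :=
      cont_line (fun z hz => hdf z (by rw [hz]; exact h1) (by
        rintro rfl
        rw [one_re] at hz
        exact h3 hz.symm))
    obtain ⟨C', -, hC'⟩ := global_bd hcont hC le_rfl (fun y hy => by
      have := hbd (x + y * I) (by simpa using h1) (by simpa using h2) (by simpa using hy)
      simpa using this)
    exact integrable_of_bd hcont hC'
  have i1 := hint (1 / 2) le_rfl (by norm_num) (by norm_num)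
  have i2 := hint σ (by linarith) hσ2 (by linarith)
  have hhalf : ((1 / 2 : ℝ) : ℂ) = 1 / 2 := by push_cast; ring
  rw [hhalf] at i1
  refine ⟨i1, i2, ?_⟩
  have s1 := strip_shift (f := Ps k N a b Δ) (a := 1 / 2) (b := 1 - r) (by linarith)
    (fun z h1 h2 => hdf z h1 (by rintro rfl; rw [one_re] at h2; linarith)) hC le_rfl
    (fun z h1 h2 h3 => hbd z h1 (by linarith) h3)
  have s2 := strip_shift (f := Ps k N a b Δ) (a := 1 + r) (b := σ) (by linarith)
    (fun z h1 h2 => hdf z (by linarith) (by rintro rfl; rw [one_re] at h1; linarith)) hC le_rfl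
    (fun z h1 h2 h3 => hbd z (by linarith) (by linarith) h3)
  have s3 := shift (f := Ps k N a b Δ) (r := r) (M := M * Real.exp 4 * N ^ (-(1 / 2) + r)) (C := C) hr
    (by linarith) hC
    (fun z h1 h2 h3 => hdf z (by linarith) h3) (fun z h1 h2 h3 => hbd z (by linarith) (by linarith) h3)
    (fun z h1 h2 h3 h4 => by
      have e1 := hM z h1 h2 h3 h4
      have e2 := W_strip hW hab hΔ (s := z) (by linarith) (by linarith)
      have e3 := N_strip hN h1
      have e4 : Real.exp (-(ds a b z.im / Δ) ^ 2) ≤ 1 := by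
        rw [Real.exp_le_one_iff]
        have := sq_nonneg (ds a b z.im / Δ)
        linarith
      have e5 : (1 / 2 - (1 - r) : ℝ) = -(1 / 2) + r := by ring
      rw [e5] at e3
      unfold Ps
      rw [norm_mul, norm_mul]
      calc ‖riemannZeta z ^ k * riemannZeta (1 - z) ^ k‖ * ‖(N : ℂ) ^ (1 / 2 - z)‖ *
            ‖Wd a b Δ ((z - 1 / 2) / I)‖
          ≤ M * N ^ (-(1 / 2) + r) * (Real.exp 4 * 1) := by
            gcongr
            exact e2.trans (by gcongr)
        _ = _ := by ring)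
  rw [hhalf] at s1
  rw [s1, ← s2]
  have t1 := norm_sub_norm_le (∫ y : ℝ, Ps k N a b Δ (((1 - r : ℝ) : ℂ) + y * I))
    (∫ y : ℝ, Ps k N a b Δ (((1 + r : ℝ) : ℂ) + y * I))
  have t2 : 8 * r * (M * Real.exp 4 * N ^ (-(1 / 2) + r)) = 8 * r * (M * Real.exp 4) * N ^ (-(1 / 2) + r) := by ring
  linarith

end Pool.Agent.J6H39.SP
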