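import Pool.Agent.J6H39.SP.Stm

/-!
# Project SP: module EQ3 (the leading terms of the continuous and of the discrete moment agree)
-/

set_option autoImplicit false

open MeasureTheory Set Filter Topology Complex

namespace Pool.Agent.J6H39.SP

open Pool.Agent.J6H39.CG (zh zh_cont zh_bound)

namespace EQ3

/-- the normaliser -/
noncomputable def Nn (m : ℕ) (T : ℝ) : ℝ := T * Real.log T ^ m

theorem tend_pow (ε : ℝ) (hε : ε < 1) : Tendsto (fun T : ℝ => T ^ (ε - 1)) atTop (𝓝 0) := by
  have h := tendsto_rpow_neg_atTop (y := 1 - ε) (by linarith)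
  refine h.congr (fun T => ?_)
  congr 1; ring

theorem fac (c ε : ℝ) (T : ℝ) (hT : 0 < T) : T + c * T ^ ε = T * (1 + c * T ^ (ε - 1)) := by
  have : T * T ^ (ε - 1) = T ^ ε := by
    rw [Real.rpow_sub_one hT.ne']; field_simp
  rw [mul_add, mul_one, ← this]; ring

theorem tend_fac (c ε : ℝ) (hε : ε < 1) :
    Tendsto (fun T : ℝ => 1 + c * T ^ (ε - 1)) atTop (𝓝 1) := by
  have h := ((tend_pow ε hε).const_mul c).const_add 1
  simpa using h

theorem tend_shift (c ε : ℝ) (hε : ε < 1) : Tendsto (fun T : ℝ => T + c * T ^ ε) atTop atTop := by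
  have h : Tendsto (fun T : ℝ => T * (1 + c * T ^ (ε - 1))) atTop atTop :=
    Tendsto.atTop_mul_pos one_pos tendsto_id (tend_fac c ε hε)
  refine h.congr' ?_
  filter_upwards [eventually_gt_atTop 0] with T hT
  exact (fac c ε T hT).symm

theorem tend_N (m : ℕ) (c ε : ℝ) (hε : ε < 1) :
    Tendsto (fun T : ℝ => Nn m (T + c * T ^ ε) / Nn m T) atTop (𝓝 1) := by
  have h1 := tend_fac c ε hε
  have h2 : Tendsto (fun T : ℝ => Real.log (1 + c * T ^ (ε - 1)) / Real.log T) atTop (𝓝 0) := by
    have h3 : Tendsto (fun T : ℝ => Real.log (1 + c * T ^ (ε - 1))) atTop (𝓝 0) := by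
      have := (Real.continuousAt_log (x := 1) one_ne_zero).tendsto.comp h1
      simpa [Function.comp_def] using this
    exact h3.div_atTop Real.tendsto_log_atTop
  have h4 : Tendsto (fun T : ℝ => (1 + c * T ^ (ε - 1)) *
      (1 + Real.log (1 + c * T ^ (ε - 1)) / Real.log T) ^ m) atTop (𝓝 1) := by
    have := h1.mul ((h2.const_add 1).pow m)
    simpa using this
  refine h4.congr' ?_
  filter_upwards [eventually_gt_atTop 1, h1.eventually (lt_mem_nhds (show (0:ℝ) < 1 by norm_num))]
    with T hT hp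
  have hT0 : 0 < T := by linarith
  have hl : 0 < Real.log T := Real.log_pos hT
  unfold Nn
  rw [fac c ε T hT0, Real.log_mul hT0.ne' hp.ne']
  have e1 : 1 + Real.log (1 + c * T ^ (ε - 1)) / Real.log T
      = (Real.log T + Real.log (1 + c * T ^ (ε - 1))) / Real.log T := by
    field_simp
  rw [e1, div_pow]
  field_simp

theorem shift (G : ℝ → ℝ) (m : ℕ) (c ε γ : ℝ) (hε : ε < 1)
    (h : Tendsto (fun T => G T / Nn m T) atTop (𝓝 γ)) :
    Tendsto (fun T => G (T + c * T ^ ε) / Nn m T) atTop (𝓝 γ) := by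
  have h1 := (h.comp (tend_shift c ε hε)).mul (tend_N m c ε hε)
  rw [mul_one] at h1
  refine h1.congr' ?_
  filter_upwards [(tend_shift c ε hε).eventually (eventually_gt_atTop 1)] with T hT
  have : Nn m (T + c * T ^ ε) ≠ 0 := by
    unfold Nn
    have := Real.log_pos hT
    have h0 : 0 < T + c * T ^ ε := by linarith
    positivity
  simp only [Function.comp]
  field_simp

theorem tend_err (m : ℕ) (C q : ℝ) (hq : q < 1) :
    Tendsto (fun T : ℝ => C * T ^ q / Nn m T) atTop (𝓝 0) := by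
  have h : Tendsto (fun T : ℝ => |C| * T ^ (q - 1)) atTop (𝓝 0) := by
    simpa using (tend_pow q hq).const_mul |C|
  refine squeeze_zero_norm' ?_ h
  filter_upwards [eventually_ge_atTop (Real.exp 1)] with T hT
  have hT0 : 0 < T := lt_of_lt_of_le (Real.exp_pos 1) hT
  have hl : 1 ≤ Real.log T := by
    rw [Real.le_log_iff_exp_le hT0]; exact hT
  have hN : T ≤ Nn m T := by
    unfold Nn
    calc T = T * 1 := by ring
      _ ≤ _ := by gcongr; exact one_le_pow₀ hl
  have hN0 : 0 < Nn m T := lt_of_lt_of_le hT0 hN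
  rw [Real.norm_eq_abs, abs_div, abs_mul, abs_of_pos hN0, abs_of_nonneg (Real.rpow_nonneg hT0.le q),
    Real.rpow_sub_one hT0.ne', mul_div_assoc]
  gcongr

theorem core (M D : ℝ → ℝ) (m : ℕ) (C q ε γ : ℝ) (hq : q < 1) (hε0 : 0 < ε) (hε : ε ≤ 1 / 2)
    (hmono : Monotone M) (hU : ∀ T : ℝ, 2 ≤ T → D T ≤ M (T + T ^ ε) + C * T ^ q)
    (hL : ∀ T : ℝ, 2 ≤ T → M (T - T ^ ε) - C * T ^ q ≤ D T) :
    Tendsto (fun T => M T / Nn m T) atTop (𝓝 γ) ↔ Tendsto (fun T => D T / Nn m T) atTop (𝓝 γ) := by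
  have hε1 : ε < 1 := by linarith
  have hNpos : ∀ T : ℝ, 1 < T → 0 < Nn m T := by
    intro T hT
    unfold Nn
    have := Real.log_pos hT
    have h0 : 0 < T := by linarith
    positivity
  constructor
  · intro h
    have hl : Tendsto (fun T => (M (T - T ^ ε) - C * T ^ q) / Nn m T) atTop (𝓝 γ) := by
      have := (shift M m (-1) ε γ hε1 h).sub (tend_err m C q hq)
      rw [sub_zero] at this
      refine this.congr (fun T => ?_)
      rw [← sub_div]; congr 3; ring
    have hu : Tendsto (fun T => (M (T + T ^ ε) + C * T ^ q) / Nn m T) atTop (𝓝 γ) := by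
      have := (shift M m 1 ε γ hε1 h).add (tend_err m C q hq)
      rw [add_zero] at this
      refine this.congr (fun T => ?_)
      rw [← add_div]; congr 3; ring
    refine tendsto_of_tendsto_of_tendsto_of_le_of_le' hl hu ?_ ?_
    · filter_upwards [eventually_ge_atTop 2] with T hT
      have := hNpos T (by linarith)
      have := hL T hT
      gcongr
    · filter_upwards [eventually_ge_atTop 2] with T hT
      have := hNpos T (by linarith)
      have := hU T hT
      gcongr
  · intro h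
    have hp : Tendsto (fun T => (D T + C * T ^ q) / Nn m T) atTop (𝓝 γ) := by
      have := h.add (tend_err m C q hq)
      rw [add_zero] at this
      refine this.congr (fun T => ?_)
      rw [← add_div]
    have hm : Tendsto (fun T => (D T - C * T ^ q) / Nn m T) atTop (𝓝 γ) := by
      have := h.sub (tend_err m C q hq)
      rw [sub_zero] at this
      refine this.congr (fun T => ?_)
      rw [← sub_div]
    have hu := shift (fun T => D T + C * T ^ q) m 2 ε γ hε1 hp
    have hl := shift (fun T => D T - C * T ^ q) m (-2) ε γ hε1 hm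
    refine tendsto_of_tendsto_of_tendsto_of_le_of_le' hl hu ?_ ?_
    · filter_upwards [eventually_ge_atTop 2,
        (tend_shift (-2) ε hε1).eventually (eventually_ge_atTop 2)] with T hT hT2
      have hN := hNpos T (by linarith)
      have h1 := hU _ hT2
      have hTe : 0 ≤ T ^ ε := Real.rpow_nonneg (by linarith) _
      have h2 : (T + -2 * T ^ ε) ^ ε ≤ T ^ ε :=
        Real.rpow_le_rpow (by linarith) (by linarith) hε0.le
      have h3 : M (T + -2 * T ^ ε + (T + -2 * T ^ ε) ^ ε) ≤ M T := hmono (by linarith)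
      have h4 : D (T + -2 * T ^ ε) - C * (T + -2 * T ^ ε) ^ q ≤ M T := by linarith
      gcongr
    · filter_upwards [eventually_ge_atTop 2] with T hT
      have hN := hNpos T (by linarith)
      have hT0 : (0:ℝ) ≤ T := by linarith
      have hTe : 0 ≤ T ^ ε := Real.rpow_nonneg hT0 _
      have hTe1 : T ^ ε ≤ T := by
        calc T ^ ε ≤ T ^ (1:ℝ) := Real.rpow_le_rpow_of_exponent_le (by linarith) hε1.le
          _ = T := Real.rpow_one T
      have h1 := hL (T + 2 * T ^ ε) (by linarith)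
      have h2 : (T + 2 * T ^ ε) ^ ε ≤ 2 * T ^ ε := by
        calc (T + 2 * T ^ ε) ^ ε ≤ (3 * T) ^ ε :=
              Real.rpow_le_rpow (by linarith) (by linarith) hε0.le
          _ = 3 ^ ε * T ^ ε := Real.mul_rpow (by norm_num) hT0
          _ ≤ 2 * T ^ ε := by
              have h3 : (3:ℝ) ^ ε ≤ 2 := by
                calc (3:ℝ) ^ ε ≤ 4 ^ ε := Real.rpow_le_rpow (by norm_num) (by norm_num) hε0.le
                  _ ≤ 4 ^ (1/2 : ℝ) := Real.rpow_le_rpow_of_exponent_le (by norm_num) hε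
                  _ = 2 := by
                    rw [show (4:ℝ) = 2 ^ (2:ℝ) by norm_num, ← Real.rpow_mul (by norm_num)]
                    norm_num
              gcongr
      have h3 : M T ≤ M (T + 2 * T ^ ε - (T + 2 * T ^ ε) ^ ε) := hmono (by linarith)
      have h4 : M T ≤ D (T + 2 * T ^ ε) + C * (T + 2 * T ^ ε) ^ q := by linarith
      gcongr

theorem F_cont (k : ℕ) : Continuous (F k) := (zh_cont.norm).pow _

theorem F_nonneg (k : ℕ) (t : ℝ) : 0 ≤ F k t := by unfold F; positivity

theorem F_int (k : ℕ) (a b : ℝ) : IntervalIntegrable (F k) volume a b :=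
  (F_cont k).intervalIntegrable a b

theorem F_mono (k : ℕ) : Monotone (fun T : ℝ => ∫ t in (0:ℝ)..T, F k t) := by
  intro a b hab
  have h := intervalIntegral.integral_add_adjacent_intervals (F_int k 0 a) (F_int k a b)
  have h2 : 0 ≤ ∫ t in a..b, F k t :=
    intervalIntegral.integral_nonneg hab (fun t _ => F_nonneg k t)
  show (∫ t in (0:ℝ)..a, F k t) ≤ ∫ t in (0:ℝ)..b, F k t
  linarith

/-- near zero -/
theorem F_small (k : ℕ) (h u v : ℝ) (hh : 1 ≤ h) (hu : |u| ≤ h) (hv : |v| ≤ h) (huv : |v - u| ≤ h) :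
    (∫ t in u..v, F k t) ≤ 32 ^ (2 * k) * h ^ (2 * k + 1) := by
  have h1 : ‖∫ t in u..v, F k t‖ ≤ (32 * h) ^ (2 * k) * |v - u| := by
    refine intervalIntegral.norm_integral_le_of_norm_le_const (fun t ht => ?_)
    rw [Real.norm_eq_abs, abs_of_nonneg (F_nonneg k t)]
    have ht' : |t| ≤ h := by
      rw [abs_le] at hu hv ⊢
      rw [Set.uIoc, Set.mem_Ioc] at ht
      constructor
      · have := le_min hu.1 hv.1
        linarith [ht.1]
      · have := max_le hu.2 hv.2
        linarith [ht.2]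
    unfold F
    refine pow_le_pow_left₀ (norm_nonneg _) ((zh_bound t).trans ?_) _
    linarith
  calc (∫ t in u..v, F k t) ≤ ‖∫ t in u..v, F k t‖ := Real.le_norm_self _
    _ ≤ (32 * h) ^ (2 * k) * |v - u| := h1
    _ ≤ (32 * h) ^ (2 * k) * h := by gcongr
    _ = 32 ^ (2 * k) * h ^ (2 * k + 1) := by rw [mul_pow]; ring

end EQ3

open EQ3 in
theorem t_EQ3 (hM : S_MAIN) : S_EQ3 := by
  intro k hk x hx hxk γ
  -- truncated parameter
  set x' : ℝ := min x (k + 1) with hx'
  have hkR : (1:ℝ) ≤ k := by exact_mod_cast hk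
  have hx'0 : 0 < x' := lt_min hx (by linarith)
  have hx'k : (k:ℝ) - 1 < x' := lt_min hxk (by linarith)
  have hx'le : x' ≤ k + 1 := min_le_right _ _
  have hx'x : x' ≤ x := min_le_left _ _
  set e : ℝ := ((k:ℝ) + 1 - x') / 2 with he
  have he1 : e < 1 := by rw [he]; linarith
  have he0 : 0 ≤ e := by rw [he]; linarith
  set ε : ℝ := min ((1 - e) / 2) (1 / (2 * (2 * (k:ℝ) + 1))) with hε
  have hd : (0:ℝ) < 2 * (2 * (k:ℝ) + 1) := by positivity
  have hε0 : 0 < ε := lt_min (by linarith) (by positivity)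
  have hεe : ε ≤ (1 - e) / 2 := min_le_left _ _
  have hεk : ε ≤ 1 / (2 * (2 * (k:ℝ) + 1)) := min_le_right _ _
  have hεk2 : ε * (2 * (k:ℝ) + 1) ≤ 1 / 2 := by
    rw [le_div_iff₀ hd] at hεk
    linarith
  have hε2 : ε ≤ 1 / 2 := by linarith
  obtain ⟨C, hC0, hC⟩ := hM k hk x' ε hx'0 hx'le hε0
  set q : ℝ := max (1 / 2) (e + ε) with hq
  have hq1 : q < 1 := max_lt (by norm_num) (by linarith)
  -- the two-sided comparison
  have key : ∀ T : ℝ, 2 ≤ T →
      (∫ t in (0:ℝ)..(T - T ^ ε), F k t) - (C + 32 ^ (2 * k)) * T ^ q ≤ Ds k 0 T (st x T) 0 ∧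
      Ds k 0 T (st x T) 0 ≤ (∫ t in (0:ℝ)..(T + T ^ ε), F k t) + (C + 32 ^ (2 * k)) * T ^ q := by
    intro T hT
    have hT0 : (0:ℝ) < T := by linarith
    have hT1 : (1:ℝ) ≤ T := by linarith
    have hl : 0 < Real.log T := Real.log_pos (by linarith)
    have hst0 : 0 < st x T := by unfold st; positivity
    have hst : st x T ≤ 2 * Real.pi / (x' * Real.log T) := by
      unfold st
      gcongr
    obtain ⟨h1, h2⟩ := hC T hT 0 T (st x T) 0 le_rfl hT0.le le_rfl hst0 hst
    have hh1 : 1 ≤ T ^ ε := Real.one_le_rpow hT1 hε0.le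
    have hp1 : T ^ (e + ε) ≤ T ^ q := Real.rpow_le_rpow_of_exponent_le hT1 (le_max_right _ _)
    have hp2 : (T ^ ε) ^ (2 * k + 1) ≤ T ^ q := by
      rw [← Real.rpow_natCast, ← Real.rpow_mul hT0.le]
      refine Real.rpow_le_rpow_of_exponent_le hT1 ?_
      push_cast
      exact hεk2.trans (le_max_left _ _)
    have hC1 : C * T ^ (e + ε) ≤ C * T ^ q := by gcongr
    have hC2 : (32:ℝ) ^ (2 * k) * (T ^ ε) ^ (2 * k + 1) ≤ 32 ^ (2 * k) * T ^ q := by gcongr
    constructor
    · have hs := F_small k (T ^ ε) 0 (T ^ ε) hh1 (by rw [abs_zero]; linarith)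
        (by rw [abs_of_nonneg (by linarith)]) (by rw [sub_zero, abs_of_nonneg (by linarith)])
      have ha := intervalIntegral.integral_add_adjacent_intervals (F_int k 0 (T ^ ε))
        (F_int k (T ^ ε) (T - T ^ ε))
      rw [zero_add] at h1
      have : (C + 32 ^ (2 * k)) * T ^ q = C * T ^ q + 32 ^ (2 * k) * T ^ q := by ring
      linarith
    · have hs := F_small k (T ^ ε) (-T ^ ε) 0 hh1
        (by rw [abs_neg, abs_of_nonneg (by linarith)])
        (by rw [abs_zero]; linarith) (by rw [zero_sub, neg_neg, abs_of_nonneg (by linarith)])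
      have ha := intervalIntegral.integral_add_adjacent_intervals (F_int k (-T ^ ε) 0)
        (F_int k 0 (T + T ^ ε))
      rw [zero_sub] at h2
      have : (C + 32 ^ (2 * k)) * T ^ q = C * T ^ q + 32 ^ (2 * k) * T ^ q := by ring
      linarith
  have := core (fun T => ∫ t in (0:ℝ)..T, F k t) (fun T => Ds k 0 T (st x T) 0) (k ^ 2)
    (C + 32 ^ (2 * k)) q ε γ hq1 hε0 hε2 (F_mono k) (fun T hT => (key T hT).2)
    (fun T hT => (key T hT).1)
  simpa only [Nn] using this

end Pool.Agent.J6H39.SP
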