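import Pool.Agent.J6H39.SP.Stm

/-! Project SP: the Fourier transform of `F` times a window (`S_FT`), the smoothed sampling theorem (`S_SM`), finite sums (`S_DS`). -/

set_option autoImplicit false

open MeasureTheory Set Filter Topology Complex

namespace Pool.Agent.J6H39.SP

open Pool.Agent.J6H39.CG (zh)
open Pool.Agent.J6H39.KV (dv dv_series)
open H345 (XX)

/-- the integrand on the critical line -/
theorem ps_half (hW : S_W) (k : ℕ) {N a b Δ : ℝ} (hab : a ≤ b) (hΔ : 1 ≤ Δ) (t : ℝ) :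
    Ps k N a b Δ (1 / 2 + (t : ℂ) * I) = ((F k t * wr a b Δ t : ℝ) : ℂ) * (N : ℂ) ^ (-((t : ℂ) * I)) := by
  have h1 : (1 : ℂ) - (1 / 2 + (t : ℂ) * I) = (starRingEnd ℂ) (1 / 2 + (t : ℂ) * I) := by
    rw [map_add, map_mul, conj_ofReal, conj_I]
    have : (starRingEnd ℂ) (1 / 2) = 1 / 2 := by
      rw [map_div₀, map_one]
      congr 1
      exact Complex.conj_ofNat 2
    rw [this]
    ring
  have h2 : (1 / 2 + (t : ℂ) * I - 1 / 2) / I = (t : ℂ) := by
    rw [add_sub_cancel_left, mul_div_assoc, div_self I_ne_zero, mul_one]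
  have h3 : (1 / 2 : ℂ) - (1 / 2 + (t : ℂ) * I) = -((t : ℂ) * I) := by ring
  rw [Ps, h1, h2, h3, riemannZeta_conj, (hW a b Δ hab hΔ).2.1 t, F, zh]
  have h4 : riemannZeta (1 / 2 + (t : ℂ) * I) ^ k * (starRingEnd ℂ) (riemannZeta (1 / 2 + (t : ℂ) * I)) ^ k =
      ((‖riemannZeta (1 / 2 + (t : ℂ) * I)‖ ^ (2 * k) : ℝ) : ℂ) := by
    rw [← mul_pow, mul_conj, normSq_eq_norm_sq, pow_mul]
    push_cast
    rfl
  rw [h4]
  push_cast
  ring

/-- **SP-FT** -/
theorem t_FT (hW : S_W) (hPH : S_PH) (hCT : S_CT) : S_FT := by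
  intro k hk ε hε
  set δ : ℝ := min (ε / (k + 1)) (1 / 2) with hδ
  have hk0 : (0 : ℝ) < (k : ℝ) + 1 := by positivity
  have hδ0 : 0 < δ := lt_min (by positivity) (by norm_num)
  have hδ1 : δ ≤ 1 / 2 := min_le_right _ _
  have hδ2 : (k + 1) * δ ≤ ε := by
    have h1 : δ ≤ ε / (k + 1) := min_le_left _ _
    rw [le_div_iff₀ hk0] at h1
    linarith
  have hkδ : (k : ℝ) * δ ≤ ε := by nlinarith
  have hδε : δ ≤ ε := by
    have : (0 : ℝ) ≤ (k : ℝ) * δ := by positivity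
    nlinarith
  set σ : ℝ := 1 + δ with hσ
  have hσ1 : 1 < σ := by linarith
  have hσ2 : σ ≤ 2 := by linarith
  obtain ⟨C₁, hC₁, h1⟩ := hPH k hk σ hσ1 hσ2
  obtain ⟨C₂, hC₂, h2⟩ := hCT k hk σ (δ / 2) hσ1 hσ2 (by linarith) (by linarith) (by linarith)
  -- the series
  have hs : (1 : ℝ) < (σ : ℂ).re := by simpa using hσ1
  set c : ℕ → ℝ := fun n => ‖LSeries.term (fun n => (dv (2 * k) n : ℂ)) (σ : ℂ) n‖ with hc
  have hcs : Summable c := (dv_series (2 * k) hs).1.norm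
  set Z : ℝ := ∑' n, c n with hZ
  have hZ0 : 0 ≤ Z := tsum_nonneg fun _ => norm_nonneg _
  refine ⟨Z * C₁ + C₂, by positivity, ?_⟩
  intro T hT a b Δ ha hab hb hΔ hΔ2 N hN
  have hT0 : 0 < T := by linarith
  have hN0 : 0 < N := by linarith
  obtain ⟨-, -, hct⟩ := h2 a b Δ N hab hΔ hN
  have e0 : (∫ t : ℝ, ((F k t * wr a b Δ t : ℝ) : ℂ) * (N : ℂ) ^ (-((t : ℂ) * I))) =
      ∫ t : ℝ, Ps k N a b Δ (1 / 2 + (t : ℂ) * I) := by
    refine integral_congr_ae (Eventually.of_forall fun t => ?_)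
    exact (ps_half hW k hab hΔ t).symm
  -- the series expansion on the line `σ`
  set Q : ℕ → ℝ → ℂ := fun n t => XX ((σ : ℂ) + (t : ℂ) * I) ^ k * (((n * N : ℝ)) : ℂ) ^ (-((t : ℂ) * I)) *
    Wd a b Δ ((t : ℂ) - ((σ - 1 / 2 : ℝ) : ℂ) * I) with hQ
  set G : ℕ → ℝ → ℂ := fun n t => ((c n * N ^ (1 / 2 - σ) : ℝ) : ℂ) * Q n t with hG
  have hc0 : c 0 = 0 := by
    rw [hc]
    simp
  have hterm : ∀ (n : ℕ) (t : ℝ), G n t = LSeries.term (fun n => (dv (2 * k) n : ℂ)) ((σ : ℂ) + (t : ℂ) * I) n *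
      (XX ((σ : ℂ) + (t : ℂ) * I) ^ k * (N : ℂ) ^ ((1 / 2 : ℂ) - ((σ : ℂ) + (t : ℂ) * I)) *
        Wd a b Δ ((t : ℂ) - ((σ - 1 / 2 : ℝ) : ℂ) * I)) := by
    intro n t
    rcases Nat.eq_zero_or_pos n with rfl | hn
    · rw [hG]
      simp [hc0]
    · have hn0 : (0 : ℝ) < n := by exact_mod_cast hn
      have hnC : (n : ℂ) ≠ 0 := by exact_mod_cast hn.ne'
      have hNC : (N : ℂ) ≠ 0 := by exact_mod_cast hN0.ne'
      have g1 : c n = (dv (2 * k) n : ℝ) / (n : ℝ) ^ σ := by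
        rw [hc]
        simp only
        rw [LSeries.term_of_ne_zero hn.ne', norm_div, Complex.norm_natCast_cpow_of_pos hn, ofReal_re]
        simp
      have g2 : LSeries.term (fun n => (dv (2 * k) n : ℂ)) ((σ : ℂ) + (t : ℂ) * I) n =
          (c n : ℂ) * (n : ℂ) ^ (-((t : ℂ) * I)) := by
        rw [LSeries.term_of_ne_zero hn.ne', g1, cpow_add _ _ hnC, cpow_neg]
        push_cast
        rw [ofReal_cpow hn0.le]
        push_cast
        field_simp
      have g3 : (N : ℂ) ^ ((1 / 2 : ℂ) - ((σ : ℂ) + (t : ℂ) * I)) =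
          ((N ^ (1 / 2 - σ) : ℝ) : ℂ) * (N : ℂ) ^ (-((t : ℂ) * I)) := by
        rw [ofReal_cpow hN0.le, ← cpow_add _ _ hNC]
        congr 1
        push_cast
        ring
      have g4 : (((n * N : ℝ)) : ℂ) ^ (-((t : ℂ) * I)) = (n : ℂ) ^ (-((t : ℂ) * I)) * (N : ℂ) ^ (-((t : ℂ) * I)) := by
        rw [ofReal_mul, Complex.mul_cpow_ofReal_nonneg hn0.le hN0.le]
        norm_num
      rw [hG, hQ]
      simp only
      rw [g2, g3, g4]
      push_cast
      ring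
  have hsum : ∀ t : ℝ, HasSum (fun n => G n t) (Ps k N a b Δ ((σ : ℂ) + (t : ℂ) * I)) := by
    intro t
    have hst : (1 : ℝ) < ((σ : ℂ) + (t : ℂ) * I).re := by simpa using hσ1
    obtain ⟨d1, d2⟩ := dv_series (2 * k) hst
    have d3 : HasSum (LSeries.term (fun n => (dv (2 * k) n : ℂ)) ((σ : ℂ) + (t : ℂ) * I))
        (riemannZeta ((σ : ℂ) + (t : ℂ) * I) ^ (2 * k)) := by
      rw [← d2]
      exact d1.hasSum
    have d4 := d3.mul_right (XX ((σ : ℂ) + (t : ℂ) * I) ^ k * (N : ℂ) ^ ((1 / 2 : ℂ) - ((σ : ℂ) + (t : ℂ) * I)) *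
      Wd a b Δ ((t : ℂ) - ((σ - 1 / 2 : ℝ) : ℂ) * I))
    have e1 : Ps k N a b Δ ((σ : ℂ) + (t : ℂ) * I) = riemannZeta ((σ : ℂ) + (t : ℂ) * I) ^ (2 * k) *
        (XX ((σ : ℂ) + (t : ℂ) * I) ^ k * (N : ℂ) ^ ((1 / 2 : ℂ) - ((σ : ℂ) + (t : ℂ) * I)) *
          Wd a b Δ ((t : ℂ) - ((σ - 1 / 2 : ℝ) : ℂ) * I)) := by
      have f1 : ((σ : ℂ) + (t : ℂ) * I - 1 / 2) / I = (t : ℂ) - ((σ - 1 / 2 : ℝ) : ℂ) * I := by
        rw [div_eq_iff I_ne_zero]
        push_cast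
        ring_nf
        rw [I_sq]
        ring
      have f2 : riemannZeta (1 - ((σ : ℂ) + (t : ℂ) * I)) =
          XX ((σ : ℂ) + (t : ℂ) * I) * riemannZeta ((σ : ℂ) + (t : ℂ) * I) := by
        refine H345.zeta_fe _ (fun n h => ?_) (fun h => ?_)
        · have := congrArg Complex.re h
          simp at this
          have hn : (0 : ℝ) ≤ n := Nat.cast_nonneg n
          linarith
        · have := congrArg Complex.re h
          simp at this
          linarith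
      rw [Ps, f1, f2, mul_pow, two_mul, pow_add]
      ring
    rw [e1]
    have e2 : (fun n => G n t) = fun n => LSeries.term (fun n => (dv (2 * k) n : ℂ)) ((σ : ℂ) + (t : ℂ) * I) n *
      (XX ((σ : ℂ) + (t : ℂ) * I) ^ k * (N : ℂ) ^ ((1 / 2 : ℂ) - ((σ : ℂ) + (t : ℂ) * I)) *
        Wd a b Δ ((t : ℂ) - ((σ - 1 / 2 : ℝ) : ℂ) * I)) := funext fun n => hterm n t
    rw [e2]
    exact d4
  -- integrals
  have hGint : ∀ n, Integrable (G n) := by
    intro n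
    rcases Nat.eq_zero_or_pos n with rfl | hn
    · have : G 0 = fun _ => 0 := by
        funext t
        rw [hG]
        simp [hc0]
      rw [this]
      exact integrable_zero _ _ _
    · have hn0 : (0 : ℝ) < n := by exact_mod_cast hn
      exact ((h1 T hT a b Δ ha hab hb hΔ hΔ2 (n * N) (by positivity)).1).const_mul _
  set J : ℝ := ∫ t : ℝ, ‖Q 1 t‖ with hJ
  have hQn : ∀ n : ℕ, 0 < n → ∀ t, ‖Q n t‖ = ‖Q 1 t‖ := by
    intro n hn t
    have hn0 : (0 : ℝ) < n := by exact_mod_cast hn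
    rw [hQ]
    simp only [norm_mul]
    rw [Complex.norm_cpow_eq_rpow_re_of_pos (by positivity : 0 < (n : ℝ) * N),
      Complex.norm_cpow_eq_rpow_re_of_pos (by simpa using hN0 : 0 < ((1 : ℕ) : ℝ) * N)]
    simp
  have hGn : ∀ n, ∫ t, ‖G n t‖ = c n * (N ^ (1 / 2 - σ) * J) := by
    intro n
    rcases Nat.eq_zero_or_pos n with rfl | hn
    · rw [hG]
      simp [hc0]
    · rw [hG]
      simp only [norm_mul]
      rw [integral_const_mul]
      have : ∫ t, ‖Q n t‖ = J := by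
        rw [hJ]
        exact integral_congr_ae (Eventually.of_forall (hQn n hn))
      rw [this, Complex.norm_real, Real.norm_of_nonneg (by positivity)]
      ring
  have hsw := hasSum_integral_of_summable_integral_norm hGint (by
    simp only [hGn]
    exact hcs.mul_right _)
  have e3 : ∫ t : ℝ, Ps k N a b Δ ((σ : ℂ) + (t : ℂ) * I) = ∑' n, ∫ t, G n t := by
    rw [hsw.tsum_eq]
    refine integral_congr_ae (Eventually.of_forall fun t => ?_)
    exact (hsum t).tsum_eq.symm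
  have hGb : ∀ n, ‖∫ t, G n t‖ ≤ c n * (N ^ (1 / 2 - σ) * (C₁ * T ^ ((k : ℝ) * (σ - 1 / 2) + 1 / 2))) := by
    intro n
    rcases Nat.eq_zero_or_pos n with rfl | hn
    · rw [hG]
      simp [hc0]
    · have hn0 : (0 : ℝ) < n := by exact_mod_cast hn
      rw [hG]
      simp only
      rw [integral_const_mul, norm_mul, Complex.norm_real, Real.norm_of_nonneg (by positivity), mul_assoc]
      have h3 := (h1 T hT a b Δ ha hab hb hΔ hΔ2 (n * N) (by positivity)).2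
      have h4 : 0 ≤ c n := norm_nonneg _
      gcongr
  have h5 : ‖∫ t : ℝ, Ps k N a b Δ ((σ : ℂ) + (t : ℂ) * I)‖ ≤
      Z * (N ^ (1 / 2 - σ) * (C₁ * T ^ ((k : ℝ) * (σ - 1 / 2) + 1 / 2))) := by
    rw [e3, hZ, ← tsum_mul_right]
    refine (norm_tsum_le_tsum_norm ?_).trans ?_
    · exact Summable.of_nonneg_of_le (fun _ => norm_nonneg _) hGb (hcs.mul_right _)
    · exact (Summable.of_nonneg_of_le (fun _ => norm_nonneg _) hGb (hcs.mul_right _)).tsum_le_tsum hGb (hcs.mul_right _)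
  rw [e0]
  refine hct.trans ?_
  have hT1 : (1 : ℝ) ≤ T := by linarith
  have i1 : N ^ (1 / 2 - σ) ≤ N ^ (-(1 / 2) + ε) := by
    apply Real.rpow_le_rpow_of_exponent_le hN
    rw [hσ]
    linarith
  have i2 : N ^ (-(1 / 2) + δ / 2) ≤ N ^ (-(1 / 2) + ε) := by
    apply Real.rpow_le_rpow_of_exponent_le hN
    linarith
  have i3 : T ^ ((k : ℝ) * (σ - 1 / 2) + 1 / 2) ≤ T ^ (((k : ℝ) + 1) / 2 + ε) := by
    apply Real.rpow_le_rpow_of_exponent_le hT1
    rw [hσ]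
    linarith
  have i4 : (1 : ℝ) ≤ T ^ (((k : ℝ) + 1) / 2 + ε) := Real.one_le_rpow hT1 (by positivity)
  calc _ ≤ Z * (N ^ (1 / 2 - σ) * (C₁ * T ^ ((k : ℝ) * (σ - 1 / 2) + 1 / 2))) + C₂ * N ^ (-(1 / 2) + δ / 2) := by gcongr
    _ ≤ Z * (N ^ (-(1 / 2) + ε) * (C₁ * T ^ (((k : ℝ) + 1) / 2 + ε))) +
        C₂ * (T ^ (((k : ℝ) + 1) / 2 + ε) * N ^ (-(1 / 2) + ε)) := by
      have i5 : N ^ (-(1 / 2) + δ / 2) ≤ T ^ (((k : ℝ) + 1) / 2 + ε) * N ^ (-(1 / 2) + ε) := by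
        refine i2.trans ?_
        exact le_mul_of_one_le_left (by positivity) i4
      gcongr
    _ = _ := by ring

end Pool.Agent.J6H39.SP
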