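import Pool.Agent.J6H39.SP.Stm

/-!
# Project SP (MP_07318d_nt): `S_MAIN`, the sampling theorem with sharp cutoffs, from `S_W` and `S_SM`.
-/

set_option autoImplicit false

open MeasureTheory Set Filter Topology Complex

namespace Pool.Agent.J6H39.SP

open Pool.Agent.J6H39.CG (zh)

namespace MainAux

theorem F_nonneg (k : ℕ) (t : ℝ) : 0 ≤ F k t := by unfold F; positivity

theorem F_cont (k : ℕ) : Continuous (F k) := Pool.Agent.J6H39.CG.zh_cont.norm.pow _

theorem F_le (k : ℕ) (t : ℝ) : F k t ≤ (16 * (1 + |t|)) ^ (2 * k) :=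
  pow_le_pow_left₀ (norm_nonneg _) (Pool.Agent.J6H39.CG.zh_bound t) _

theorem pow_exp_bdd (m : ℕ) : ∃ C : ℝ, 0 ≤ C ∧ ∀ u : ℝ, 0 ≤ u → (1 + u) ^ m * Real.exp (-u ^ 2 / 2) ≤ C := by
  refine ⟨m.factorial * Real.exp (3 / 2), by positivity, fun u hu => ?_⟩
  have h1 : (1 + u) ^ m ≤ m.factorial * Real.exp (1 + u) := by
    have h := Real.pow_div_factorial_le_exp (1 + u) (by positivity) m
    have hf : (0:ℝ) < m.factorial := by positivity
    rw [div_le_iff₀ hf] at h
    linarith
  calc (1 + u) ^ m * Real.exp (-u ^ 2 / 2)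
      ≤ (m.factorial * Real.exp (1 + u)) * Real.exp (-u ^ 2 / 2) := by gcongr
    _ = m.factorial * Real.exp (1 + u - u ^ 2 / 2) := by
        rw [mul_assoc, ← Real.exp_add]; congr 2; ring
    _ ≤ m.factorial * Real.exp (3 / 2) := by
        gcongr
        nlinarith [sq_nonneg (u - 1)]

theorem ds_nonneg (a b t : ℝ) : 0 ≤ ds a b t := le_max_left _ _

theorem le_ds_left (a b t : ℝ) : a - t ≤ ds a b t := (le_max_left _ _).trans (le_max_right _ _)

theorem le_ds_right (a b t : ℝ) : t - b ≤ ds a b t := (le_max_right _ _).trans (le_max_right _ _)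

theorem ds_eq_zero {a b t : ℝ} (h1 : a ≤ t) (h2 : t ≤ b) : ds a b t = 0 := by
  unfold ds
  rw [max_eq_left]
  exact max_le (by linarith) (by linarith)

/-- growth -/
theorem growth (k : ℕ) : ∃ C : ℝ, 0 ≤ C ∧ ∀ T a b Δ t : ℝ, 1 ≤ T → -(2 * T) ≤ a → b ≤ 2 * T → 1 ≤ Δ → Δ ≤ T →
    F k t * Real.exp (-(ds a b t / Δ) ^ 2 / 2) ≤ C * T ^ (2 * k + 2) * (1 + t ^ 2)⁻¹ := by
  obtain ⟨C, hC0, hC⟩ := pow_exp_bdd (2 * k + 2)
  refine ⟨16 ^ (2 * k) * 3 ^ (2 * k + 2) * C, by positivity, fun T a b Δ t hT ha hb hΔ hΔT => ?_⟩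
  have hds := ds_nonneg a b t
  have hΔ0 : 0 < Δ := by linarith
  set u := ds a b t / Δ with hu
  have hu0 : 0 ≤ u := by positivity
  have hdu : ds a b t = u * Δ := by rw [hu]; field_simp
  have h1 : |t| ≤ 2 * T + ds a b t := by
    rw [abs_le]
    constructor
    · have := le_ds_left a b t; linarith
    · have := le_ds_right a b t; linarith
  have h2 : 1 + |t| ≤ 3 * T * (1 + u) := by
    have : u * Δ ≤ u * T := by gcongr
    have h3 : u * T ≤ 3 * T * u := by nlinarith
    nlinarith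
  have ht2 : 1 + t ^ 2 ≤ (1 + |t|) ^ 2 := by
    have := abs_nonneg t
    nlinarith [sq_abs t]
  rw [le_mul_inv_iff₀ (by positivity)]
  calc F k t * Real.exp (-u ^ 2 / 2) * (1 + t ^ 2)
      ≤ (16 * (1 + |t|)) ^ (2 * k) * Real.exp (-u ^ 2 / 2) * (1 + |t|) ^ 2 := by
        gcongr
        exact F_le k t
    _ = 16 ^ (2 * k) * (1 + |t|) ^ (2 * k + 2) * Real.exp (-u ^ 2 / 2) := by
        rw [mul_pow, pow_add]; ring
    _ ≤ 16 ^ (2 * k) * (3 * T * (1 + u)) ^ (2 * k + 2) * Real.exp (-u ^ 2 / 2) := by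
        gcongr
    _ = 16 ^ (2 * k) * 3 ^ (2 * k + 2) * T ^ (2 * k + 2) * ((1 + u) ^ (2 * k + 2) * Real.exp (-u ^ 2 / 2)) := by
        rw [mul_pow, mul_pow]; ring
    _ ≤ 16 ^ (2 * k) * 3 ^ (2 * k + 2) * T ^ (2 * k + 2) * C := by
        gcongr
        exact hC u hu0
    _ = _ := by ring

/-- the growth bound inside the window -/
theorem growth_in {k : ℕ} {C : ℝ} (hC : ∀ T a b Δ t : ℝ, 1 ≤ T → -(2 * T) ≤ a → b ≤ 2 * T → 1 ≤ Δ → Δ ≤ T →
    F k t * Real.exp (-(ds a b t / Δ) ^ 2 / 2) ≤ C * T ^ (2 * k + 2) * (1 + t ^ 2)⁻¹) {T t : ℝ} (hT : 1 ≤ T)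
    (h1 : -(2 * T) ≤ t) (h2 : t ≤ 2 * T) : F k t ≤ C * T ^ (2 * k + 2) * (1 + t ^ 2)⁻¹ := by
  have := hC T (-(2 * T)) (2 * T) 1 t hT le_rfl le_rfl le_rfl hT
  rw [ds_eq_zero h1 h2] at this
  simpa using this

theorem cauchy_sum (A : ℝ) : ∃ C : ℝ, 0 ≤ C ∧ ∀ α θ : ℝ, 0 < α → α ≤ A →
    Summable (fun n : ℤ => (1 + (θ + α * n) ^ 2)⁻¹) ∧ α * ∑' n : ℤ, (1 + (θ + α * n) ^ 2)⁻¹ ≤ C := by
  refine ⟨2 * (1 + A ^ 2) * Real.pi, by positivity, fun α θ hα hαA => ?_⟩
  set h : ℝ → ℝ := fun x => (1 + (θ + α * x) ^ 2)⁻¹ with hh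
  have hcont : Continuous h := by
    rw [hh]
    refine Continuous.inv₀ (by fun_prop) (fun x => by positivity)
  have hint0 : Integrable (fun y : ℝ => (1 + (θ + y) ^ 2)⁻¹) :=
    integrable_inv_one_add_sq.comp_add_left θ
  have hint : Integrable h := hint0.comp_mul_left' hα.ne'
  have hval : ∫ x, h x = α⁻¹ * Real.pi := by
    have h1 := Measure.integral_comp_mul_left (fun y : ℝ => (1 + (θ + y) ^ 2)⁻¹) α
    have h2 : ∫ y : ℝ, (1 + (θ + y) ^ 2)⁻¹ = Real.pi := by
      rw [integral_add_left_eq_self (fun y : ℝ => (1 + y ^ 2)⁻¹) θ]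
      exact integral_univ_inv_one_add_sq
    rw [h2, abs_of_pos (by positivity), smul_eq_mul] at h1
    exact h1
  set c : ℝ := (2 * (1 + A ^ 2))⁻¹ with hc
  have hc0 : 0 < c := by positivity
  have hsum := hint.hasSum_intervalIntegral 0
  have hle : ∀ n : ℤ, c * (1 + (θ + α * n) ^ 2)⁻¹ ≤ ∫ x in (0 + (n:ℝ))..(0 + (n:ℝ) + 1), h x := by
    intro n
    have h1 : ∫ x in (0 + (n:ℝ))..(0 + (n:ℝ) + 1), (c * (1 + (θ + α * n) ^ 2)⁻¹ : ℝ) = c * (1 + (θ + α * n) ^ 2)⁻¹ := by
      rw [intervalIntegral.integral_const]; simp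
    rw [← h1]
    apply intervalIntegral.integral_mono_on (by linarith) (by simp) (hcont.intervalIntegrable _ _)
    intro x hx
    rw [hh, hc, ← mul_inv]
    simp only
    apply inv_anti₀ (by positivity)
    have hx1 : 0 ≤ α * (x - n) := by
      have : (0:ℝ) ≤ x - n := by linarith [hx.1]
      positivity
    have hx2 : α * (x - n) ≤ A := by
      have : x - n ≤ 1 := by linarith [hx.2]
      nlinarith
    have hx3 : (α * (x - n)) ^ 2 ≤ A ^ 2 := by gcongr
    have hx4 : θ + α * x = (θ + α * n) + α * (x - n) := by ring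
    rw [hx4]
    generalize θ + α * (n:ℝ) = p at *
    generalize α * (x - (n:ℝ)) = q at *
    nlinarith [sq_nonneg (p - q), mul_nonneg (sq_nonneg p) (sq_nonneg A)]
  have hs1 : Summable (fun n : ℤ => c * (1 + (θ + α * n) ^ 2)⁻¹) :=
    Summable.of_nonneg_of_le (fun n => by positivity) hle hsum.summable
  have hs2 : Summable (fun n : ℤ => (1 + (θ + α * n) ^ 2)⁻¹) := (summable_mul_left_iff hc0.ne').1 hs1
  refine ⟨hs2, ?_⟩
  have h1 : c * ∑' n : ℤ, (1 + (θ + α * n) ^ 2)⁻¹ ≤ α⁻¹ * Real.pi := by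
    rw [← tsum_mul_left, ← hval, ← hsum.tsum_eq]
    exact hs1.tsum_le_tsum hle hsum.summable
  have h2 : ∑' n : ℤ, (1 + (θ + α * n) ^ 2)⁻¹ ≤ c⁻¹ * (α⁻¹ * Real.pi) := by
    rw [inv_mul_eq_div, le_div_iff₀ hc0]; linarith
  calc α * ∑' n : ℤ, (1 + (θ + α * n) ^ 2)⁻¹ ≤ α * (c⁻¹ * (α⁻¹ * Real.pi)) := by gcongr
    _ = 2 * (1 + A ^ 2) * Real.pi := by
        rw [hc, inv_inv]; field_simp

/-- a stretched exponential beats powers -/
theorem tiny_bdd (ε : ℝ) (hε : 0 < ε) (K : ℕ) : ∃ C : ℝ, 0 ≤ C ∧ ∀ T : ℝ, 1 ≤ T →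
    Real.exp (-(T ^ ε) / 2) * T ^ K ≤ C := by
  set m := ⌈(K:ℝ) / ε⌉₊ with hm
  refine ⟨2 ^ m * m.factorial, by positivity, fun T hT => ?_⟩
  have hT0 : 0 ≤ T := by linarith
  set v := T ^ ε / 2 with hv
  have hv0 : 0 ≤ v := by positivity
  have h1 : v ^ m ≤ m.factorial * Real.exp v := by
    have h := Real.pow_div_factorial_le_exp v hv0 m
    have hf : (0:ℝ) < m.factorial := by positivity
    rw [div_le_iff₀ hf] at h
    linarith
  have h2 : T ^ K ≤ (2 * v) ^ m := by
    have : 2 * v = T ^ ε := by rw [hv]; ring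
    rw [this, ← Real.rpow_natCast, ← Real.rpow_natCast (T ^ ε), ← Real.rpow_mul hT0]
    apply Real.rpow_le_rpow_of_exponent_le hT
    have h3 : (K:ℝ) / ε ≤ m := Nat.le_ceil _
    rw [div_le_iff₀ hε] at h3
    linarith
  have h4 : -(T ^ ε) / 2 = -v := by rw [hv]; ring
  rw [h4]
  calc Real.exp (-v) * T ^ K ≤ Real.exp (-v) * (2 ^ m * (m.factorial * Real.exp v)) := by
        gcongr
        calc T ^ K ≤ (2 * v) ^ m := h2
          _ = 2 ^ m * v ^ m := mul_pow _ _ _
          _ ≤ _ := by gcongr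
    _ = 2 ^ m * m.factorial * (Real.exp (-v) * Real.exp v) := by ring
    _ = 2 ^ m * m.factorial := by rw [← Real.exp_add]; simp

/-- an interval integral of a nonnegative function is at most the integral of a majorant -/
theorem int_le {f g : ℝ → ℝ} {p q : ℝ} (hf : Continuous f) (hf0 : ∀ t, 0 ≤ f t) (hg : Integrable g)
    (hg0 : ∀ t, 0 ≤ g t) (hfg : ∀ t, p < t → t ≤ q → f t ≤ g t) : ∫ t in p..q, f t ≤ ∫ t, g t := by
  rcases le_total p q with h | h
  · rw [intervalIntegral.integral_of_le h, ← integral_indicator measurableSet_Ioc]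
    apply integral_mono
    · exact (integrable_indicator_iff measurableSet_Ioc).2 ((hf.integrableOn_Icc).mono_set Ioc_subset_Icc_self)
    · exact hg
    · intro t
      by_cases ht : t ∈ Ioc p q
      · simp only [indicator_of_mem ht]; exact hfg t ht.1 ht.2
      · simp only [indicator_of_notMem ht]; exact hg0 t
  · have h1 : ∫ t in p..q, f t ≤ 0 := by
      rw [intervalIntegral.integral_symm]
      have := intervalIntegral.integral_nonneg h (fun t _ => hf0 t) (f := f) (μ := volume)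
      linarith
    have h2 : 0 ≤ ∫ t, g t := integral_nonneg hg0
    linarith

/-- the integral of a minorant -/
theorem int_ge {f g : ℝ → ℝ} {p q : ℝ} (hpq : p ≤ q) (hf : Continuous f) (hg : Integrable g) (r : ℝ → ℝ) (hr : Integrable r)
    (hr0 : ∀ t, 0 ≤ r t) (h1 : ∀ t, p < t → t ≤ q → g t ≤ f t) (h2 : ∀ t, ¬ (p < t ∧ t ≤ q) → g t ≤ r t) :
    ∫ t, g t ≤ (∫ t in p..q, f t) + ∫ t, r t := by
  have hi : Integrable (indicator (Ioc p q) f) :=
    (integrable_indicator_iff measurableSet_Ioc).2 ((hf.integrableOn_Icc).mono_set Ioc_subset_Icc_self)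
  rw [intervalIntegral.integral_of_le hpq, ← integral_indicator measurableSet_Ioc, ← integral_add hi hr]
  apply integral_mono hg (hi.add hr)
  intro t
  by_cases ht : t ∈ Ioc p q
  · simp only [Pi.add_apply, indicator_of_mem ht]; linarith [h1 t ht.1 ht.2, hr0 t]
  · simp only [Pi.add_apply, indicator_of_notMem ht]; linarith [h2 t ht]

theorem main_core (hW : S_W) (hSM : S_SM) (k : ℕ) (hk : 1 ≤ k) (x ε : ℝ) (hx : 0 < x) (hxk : x ≤ k + 1)
    (hε : 0 < ε) (hε2 : ε ≤ 1 / 2) : ∃ C : ℝ, 0 ≤ C ∧ ∀ T : ℝ, 2 ≤ T →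
    ∀ a b α θ h : ℝ, 0 ≤ a → a ≤ b → b ≤ T → 0 < α → α ≤ 2 * Real.pi / (x * Real.log T) → T ^ ε ≤ h →
    (∫ t in (a + h)..(b - h), F k t) - C * T ^ (((k : ℝ) + 1 - x) / 2 + ε) ≤ Ds k a b α θ ∧
    Ds k a b α θ ≤ (∫ t in (a - h)..(b + h), F k t) + C * T ^ (((k : ℝ) + 1 - x) / 2 + ε) := by
  classical
  obtain ⟨CG, hCG0, hCG⟩ := growth k
  obtain ⟨CS, hCS0, hCS⟩ := cauchy_sum (2 * Real.pi / (x * Real.log 2))
  obtain ⟨CM, hCM0, hCM⟩ := hSM k hk x ε hx hε
  obtain ⟨CT, hCT0, hCT⟩ := tiny_bdd (ε / 2) (by positivity) (2 * k + 2)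
  -- threshold
  set T0 : ℝ := 2 ^ (4 / ε) with hT0
  have hT0pos : 0 < T0 := by positivity
  set K := 2 * k + 2 with hK
  -- crude bounds
  set B1 := CG * (CS + Real.pi) with hB1
  have hB10 : 0 ≤ B1 := by have := Real.pi_pos; positivity
  refine ⟨B1 * T0 ^ K + CM + 2 * B1 * CT, by positivity, fun T hT a b α θ h ha hab hbT hα hαT hh => ?_⟩
  have hT1 : 1 ≤ T := by linarith
  have hTpos : 0 < T := by linarith
  have hE : 0 ≤ ((k : ℝ) + 1 - x) / 2 + ε := by
    have : 0 ≤ (k : ℝ) + 1 - x := by linarith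
    positivity
  have hTE : 1 ≤ T ^ (((k : ℝ) + 1 - x) / 2 + ε) := Real.one_le_rpow hT1 hE
  set TE := T ^ (((k : ℝ) + 1 - x) / 2 + ε) with hTEdef
  have hlog2 : 0 < Real.log 2 := Real.log_pos (by norm_num)
  have hlogT : Real.log 2 ≤ Real.log T := Real.log_le_log (by norm_num) hT
  have hαA : α ≤ 2 * Real.pi / (x * Real.log 2) := by
    refine hαT.trans ?_
    have := Real.pi_pos
    gcongr
  obtain ⟨hsC, hsCle⟩ := hCS α θ hα hαA
  have hh1 : 1 ≤ T ^ ε := Real.one_le_rpow hT1 hε.le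
  have hhpos : 0 < h := by linarith
  -- the majorant
  set M : ℝ → ℝ := fun t => CG * T ^ K * (1 + t ^ 2)⁻¹ with hM
  have hM0 : ∀ t, 0 ≤ M t := fun t => by rw [hM]; positivity
  have hMint : Integrable M := integrable_inv_one_add_sq.const_mul _
  have hMval : ∫ t, M t = CG * T ^ K * Real.pi := by
    rw [hM, integral_const_mul, integral_univ_inv_one_add_sq]
  have hMsum : Summable (fun n : ℤ => M (θ + α * n)) := hsC.mul_left _
  have hMsumle : α * ∑' n : ℤ, M (θ + α * n) ≤ CG * T ^ K * CS := by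
    rw [hM, tsum_mul_left]
    calc α * (CG * T ^ K * ∑' n : ℤ, (1 + (θ + α * n) ^ 2)⁻¹)
        = CG * T ^ K * (α * ∑' n : ℤ, (1 + (θ + α * n) ^ 2)⁻¹) := by ring
      _ ≤ _ := by gcongr
  have hFM : ∀ t, -(2 * T) ≤ t → t ≤ 2 * T → F k t ≤ M t := fun t h1 h2 => growth_in hCG hT1 h1 h2
  -- discrete
  set G : ℤ → ℝ := fun n => if a < θ + α * n ∧ θ + α * n ≤ b then F k (θ + α * n) else 0 with hG
  have hG0 : ∀ n, 0 ≤ G n := by
    intro n; rw [hG]; simp only; split_ifs
    · exact F_nonneg _ _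
    · exact le_rfl
  have hGM : ∀ n, G n ≤ M (θ + α * n) := by
    intro n; rw [hG]; simp only; split_ifs with h1
    · exact hFM _ (by linarith [h1.1]) (by linarith [h1.2])
    · exact hM0 _
  have hGs : Summable G := Summable.of_nonneg_of_le hG0 hGM hMsum
  have hDs : Ds k a b α θ = α * ∑' n, G n := rfl
  have hDs0 : 0 ≤ Ds k a b α θ := by
    rw [hDs]; exact mul_nonneg hα.le (tsum_nonneg hG0)
  have hDsle : Ds k a b α θ ≤ B1 * T ^ K := by
    rw [hDs]
    calc α * ∑' n, G n ≤ α * ∑' n : ℤ, M (θ + α * n) := by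
          gcongr
          exact hGM _
      _ ≤ CG * T ^ K * CS := hMsumle
      _ ≤ B1 * T ^ K := by
          rw [hB1]
          have : 0 ≤ CG * T ^ K * Real.pi := by have := Real.pi_pos; positivity
          nlinarith
  have hMvalle : ∫ t, M t ≤ B1 * T ^ K := by
    rw [hMval, hB1]
    have : 0 ≤ CG * T ^ K * CS := by positivity
    nlinarith
  have hMsumle' : α * ∑' n : ℤ, M (θ + α * n) ≤ B1 * T ^ K := by
    refine hMsumle.trans ?_
    rw [hB1]
    have : 0 ≤ CG * T ^ K * Real.pi := by have := Real.pi_pos; positivity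
    nlinarith
  have hinner : ∫ t in (a + h)..(b - h), F k t ≤ B1 * T ^ K :=
    (int_le (F_cont k) (F_nonneg k) hMint hM0 (fun t h1 h2 => hFM t (by linarith) (by linarith))).trans hMvalle
  have houter : 0 ≤ ∫ t in (a - h)..(b + h), F k t :=
    intervalIntegral.integral_nonneg (by linarith) (fun t _ => F_nonneg k t)
  have hCT0' : 0 ≤ 2 * B1 * CT := by positivity
  rcases lt_or_ge T T0 with hTs | hTl
  · -- small T
    have h1 : B1 * T ^ K ≤ B1 * T0 ^ K := by gcongr
    have h2 : B1 * T0 ^ K ≤ (B1 * T0 ^ K + CM + 2 * B1 * CT) * TE := by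
      have h3 : 0 ≤ B1 * T0 ^ K := by positivity
      nlinarith
    constructor
    · linarith
    · linarith
  · -- large T
    set Δ := T ^ (ε / 2) with hΔ
    set D := T ^ (3 * ε / 4) with hD
    have hΔ1 : 1 ≤ Δ := Real.one_le_rpow hT1 (by positivity)
    have hΔT : Δ ^ 2 ≤ T := by
      rw [hΔ, ← Real.rpow_natCast, ← Real.rpow_mul hTpos.le]
      calc T ^ (ε / 2 * ((2:ℕ):ℝ)) ≤ T ^ (1:ℝ) := Real.rpow_le_rpow_of_exponent_le hT1 (by push_cast; linarith)
        _ = T := Real.rpow_one T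
    have hΔT1 : Δ ≤ T := by nlinarith
    have hDT : D ≤ T := by
      rw [hD]
      calc T ^ (3 * ε / 4) ≤ T ^ (1:ℝ) := Real.rpow_le_rpow_of_exponent_le hT1 (by linarith)
        _ = T := Real.rpow_one T
    have hD0 : 0 ≤ D := by positivity
    have hDΔ : (D / Δ) ^ 2 = T ^ (ε / 2) := by
      rw [hD, hΔ, ← Real.rpow_sub hTpos, ← Real.rpow_natCast, ← Real.rpow_mul hTpos.le]
      congr 1; push_cast; ring
    have h2D : 2 * D ≤ T ^ ε := by
      have h1 : T ^ ε = T ^ (ε / 4) * D := by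
        rw [hD, ← Real.rpow_add hTpos]; congr 1; ring
      have h2 : 2 ≤ T ^ (ε / 4) := by
        calc (2:ℝ) = T0 ^ (ε / 4) := by
              rw [hT0, ← Real.rpow_mul (by norm_num)]
              have : 4 / ε * (ε / 4) = 1 := by field_simp
              rw [this, Real.rpow_one]
          _ ≤ T ^ (ε / 4) := Real.rpow_le_rpow hT0pos.le hTl (by positivity)
      rw [h1]; gcongr
    have h2Dh : 2 * D ≤ h := h2D.trans hh
    -- tiny factors
    set e1 := Real.exp (-(D / Δ) ^ 2) with he1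
    set e2 := Real.exp (-(D / Δ) ^ 2 / 2) with he2
    have he12 : e1 ≤ e2 := by
      rw [he1, he2]; apply Real.exp_le_exp.2
      have := sq_nonneg (D / Δ)
      linarith
    have he10 : 0 ≤ e1 := (Real.exp_pos _).le
    have he20 : 0 ≤ e2 := (Real.exp_pos _).le
    have he2T : e2 * T ^ K ≤ CT := by
      rw [he2, neg_div, hDΔ]
      have := hCT T hT1
      rw [neg_div] at this
      exact this
    have he1B : e1 * (B1 * T ^ K) ≤ B1 * CT := by
      calc e1 * (B1 * T ^ K) ≤ e2 * (B1 * T ^ K) := by gcongr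
        _ = B1 * (e2 * T ^ K) := by ring
        _ ≤ _ := by gcongr
    have he2B : e2 * (B1 * T ^ K) ≤ B1 * CT := by
      calc e2 * (B1 * T ^ K) = B1 * (e2 * T ^ K) := by ring
        _ ≤ _ := by gcongr
    -- tail of a window
    have htail : ∀ a' b' t, -(2 * T) ≤ a' → a' ≤ b' → b' ≤ 2 * T → D ≤ ds a' b' t →
        F k t * wr a' b' Δ t ≤ e2 * M t := by
      intro a' b' t h1 h2 h3 h4
      obtain ⟨-, -, -, -, -, -, hw2, -⟩ := hW a' b' Δ h2 hΔ1
      have h5 : Real.exp (-(ds a' b' t / Δ) ^ 2) ≤ e2 * Real.exp (-(ds a' b' t / Δ) ^ 2 / 2) := by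
        rw [he2, ← Real.exp_add]
        apply Real.exp_le_exp.2
        have h6 : (D / Δ) ^ 2 ≤ (ds a' b' t / Δ) ^ 2 := by gcongr
        linarith
      calc F k t * wr a' b' Δ t ≤ F k t * (e2 * Real.exp (-(ds a' b' t / Δ) ^ 2 / 2)) := by
            have := F_nonneg k t
            gcongr
            exact (hw2 t).trans h5
        _ = e2 * (F k t * Real.exp (-(ds a' b' t / Δ) ^ 2 / 2)) := by ring
        _ ≤ e2 * M t := by
            gcongr
            exact hCG T a' b' Δ t hT1 h1 h3 hΔ1 hΔT1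
    constructor
    · -- lower bound
      rcases lt_or_ge (b - h) (a + h) with hbh | hbh
      · have h1 : ∫ t in (a + h)..(b - h), F k t ≤ 0 := by
          rw [intervalIntegral.integral_symm]
          have := intervalIntegral.integral_nonneg hbh.le (fun t _ => F_nonneg k t) (f := F k) (μ := volume)
          linarith
        have h2 : 0 ≤ (B1 * T0 ^ K + CM + 2 * B1 * CT) * TE := by positivity
        linarith
      · set a' := a + D with ha'
        set b' := b - D with hb'
        have hab' : a' ≤ b' := by rw [ha', hb']; linarith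
        have ha'T : -(2 * T) ≤ a' := by rw [ha']; linarith
        have hb'T : b' ≤ 2 * T := by rw [hb']; linarith
        obtain ⟨-, -, -, -, hwc, hw0, hw2, hw3⟩ := hW a' b' Δ hab' hΔ1
        obtain ⟨hI, hS, hE3⟩ := hCM T hT a' b' Δ α θ ha'T hab' hb'T hΔ1 hΔT hα hαT
        -- the discrete side
        have hd1 : α * (∑' n : ℤ, F k (θ + α * n) * wr a' b' Δ (θ + α * n)) ≤ Ds k a b α θ + B1 * CT := by
          have h1 : ∑' n : ℤ, F k (θ + α * n) * wr a' b' Δ (θ + α * n) ≤ ∑' n : ℤ, (G n + e2 * M (θ + α * n)) := by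
            apply hS.tsum_le_tsum _ (hGs.add (hMsum.mul_left _))
            intro n
            by_cases hn : a < θ + α * n ∧ θ + α * n ≤ b
            · have h3 : G n = F k (θ + α * n) := by rw [hG]; simp only; rw [if_pos hn]
              have h4 : wr a' b' Δ (θ + α * n) ≤ 1 := (hw2 _).trans (Real.exp_le_one_iff.2 (by
                have := sq_nonneg (ds a' b' (θ + α * n) / Δ)
                linarith))
              have h5 : F k (θ + α * n) * wr a' b' Δ (θ + α * n) ≤ F k (θ + α * n) * 1 := by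
                have := F_nonneg k (θ + α * n)
                gcongr
              rw [h3]
              have := mul_nonneg he20 (hM0 (θ + α * n))
              linarith
            · have h3 : D ≤ ds a' b' (θ + α * n) := by
                rw [not_and_or] at hn
                rcases hn with hn | hn
                · have := le_ds_left a' b' (θ + α * n)
                  rw [ha'] at this ⊢
                  linarith
                · have := le_ds_right a' b' (θ + α * n)
                  rw [hb'] at this ⊢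
                  linarith
              have h4 := htail a' b' (θ + α * n) ha'T hab' hb'T h3
              have := hG0 n
              linarith
          rw [hGs.tsum_add (hMsum.mul_left _), tsum_mul_left] at h1
          calc α * (∑' n : ℤ, F k (θ + α * n) * wr a' b' Δ (θ + α * n))
              ≤ α * (∑' n : ℤ, G n + e2 * ∑' n : ℤ, M (θ + α * n)) := by gcongr
            _ = Ds k a b α θ + e2 * (α * ∑' n : ℤ, M (θ + α * n)) := by rw [hDs]; ring
            _ ≤ Ds k a b α θ + e2 * (B1 * T ^ K) := by gcongr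
            _ ≤ _ := by linarith
        -- the continuous side
        have hd2 : ∫ t in (a + h)..(b - h), F k t ≤ (∫ t, F k t * wr a' b' Δ t) + B1 * CT := by
          have h1 : ∫ t in (a + h)..(b - h), F k t ≤ ∫ t, (F k t * wr a' b' Δ t + e1 * M t) := by
            apply int_le (F_cont k) (F_nonneg k) (hI.add (hMint.const_mul e1))
            · intro t
              exact add_nonneg (mul_nonneg (F_nonneg k t) (hw0 t)) (mul_nonneg he10 (hM0 t))
            · intro t h2 h3
              have h4 := hw3 t D hD0 (by rw [ha']; linarith) (by rw [hb']; linarith)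
              have h5 : F k t ≤ M t := hFM t (by linarith) (by linarith)
              have h6 : F k t * (1 - e1) ≤ F k t * wr a' b' Δ t := by
                have := F_nonneg k t
                gcongr
              have h7 : e1 * F k t ≤ e1 * M t := by gcongr
              show F k t ≤ F k t * wr a' b' Δ t + e1 * M t
              linarith
          rw [integral_add hI (hMint.const_mul e1), integral_const_mul] at h1
          have h2 : e1 * ∫ t, M t ≤ e1 * (B1 * T ^ K) := by gcongr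
          linarith
        have hE4 := abs_le.1 hE3
        have h9 : CM * TE + 2 * B1 * CT ≤ (B1 * T0 ^ K + CM + 2 * B1 * CT) * TE := by
          have h3 : 0 ≤ B1 * T0 ^ K := by positivity
          nlinarith
        linarith [hE4.1, hE4.2]
    · -- upper bound
      set a' := a - D with ha'
      set b' := b + D with hb'
      have hab' : a' ≤ b' := by rw [ha', hb']; linarith
      have ha'T : -(2 * T) ≤ a' := by rw [ha']; linarith
      have hb'T : b' ≤ 2 * T := by rw [hb']; linarith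
      obtain ⟨-, -, -, -, hwc, hw0, hw2, hw3⟩ := hW a' b' Δ hab' hΔ1
      obtain ⟨hI, hS, hE3⟩ := hCM T hT a' b' Δ α θ ha'T hab' hb'T hΔ1 hΔT hα hαT
      have hd1 : Ds k a b α θ ≤ α * (∑' n : ℤ, F k (θ + α * n) * wr a' b' Δ (θ + α * n)) + B1 * CT := by
        have h1 : ∑' n : ℤ, G n ≤ ∑' n : ℤ, (F k (θ + α * n) * wr a' b' Δ (θ + α * n) + e1 * M (θ + α * n)) := by
          apply hGs.tsum_le_tsum _ (hS.add (hMsum.mul_left _))
          intro n
          by_cases hn : a < θ + α * n ∧ θ + α * n ≤ b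
          · have h3 : G n = F k (θ + α * n) := by rw [hG]; simp only; rw [if_pos hn]
            have h4 := hw3 (θ + α * n) D hD0 (by rw [ha']; linarith [hn.1]) (by rw [hb']; linarith [hn.2])
            have h5 : F k (θ + α * n) ≤ M (θ + α * n) := hFM _ (by linarith [hn.1]) (by linarith [hn.2])
            have h6 : F k (θ + α * n) * (1 - e1) ≤ F k (θ + α * n) * wr a' b' Δ (θ + α * n) := by
              have := F_nonneg k (θ + α * n)
              gcongr
            have h7 : e1 * F k (θ + α * n) ≤ e1 * M (θ + α * n) := by gcongr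
            rw [h3]
            linarith
          · have h3 : G n = 0 := by rw [hG]; simp only; rw [if_neg hn]
            rw [h3]
            exact add_nonneg (mul_nonneg (F_nonneg k _) (hw0 _)) (mul_nonneg he10 (hM0 _))
        rw [hS.tsum_add (hMsum.mul_left _), tsum_mul_left] at h1
        calc Ds k a b α θ = α * ∑' n, G n := hDs
          _ ≤ α * (∑' n : ℤ, F k (θ + α * n) * wr a' b' Δ (θ + α * n) + e1 * ∑' n : ℤ, M (θ + α * n)) := by gcongr
          _ = α * (∑' n : ℤ, F k (θ + α * n) * wr a' b' Δ (θ + α * n)) + e1 * (α * ∑' n : ℤ, M (θ + α * n)) := by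
              ring
          _ ≤ α * (∑' n : ℤ, F k (θ + α * n) * wr a' b' Δ (θ + α * n)) + e1 * (B1 * T ^ K) := by gcongr
          _ ≤ _ := by linarith
      have hd2 : ∫ t, F k t * wr a' b' Δ t ≤ (∫ t in (a - h)..(b + h), F k t) + B1 * CT := by
        have h1 : ∫ t, F k t * wr a' b' Δ t ≤ (∫ t in (a - h)..(b + h), F k t) + ∫ t, e2 * M t := by
          apply int_ge (by linarith) (F_cont k) hI _ (hMint.const_mul e2)
          · intro t; exact mul_nonneg he20 (hM0 t)
          · intro t h2 h3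
            have h4 : wr a' b' Δ t ≤ 1 := (hw2 _).trans (Real.exp_le_one_iff.2 (by
                have := sq_nonneg (ds a' b' t / Δ)
                linarith))
            have h5 : F k t * wr a' b' Δ t ≤ F k t * 1 := by
              have := F_nonneg k t
              gcongr
            linarith
          · intro t ht
            apply htail a' b' t ha'T hab' hb'T
            rw [not_and_or] at ht
            rcases ht with ht | ht
            · have := le_ds_left a' b' t
              rw [ha'] at this ⊢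
              linarith
            · have := le_ds_right a' b' t
              rw [hb'] at this ⊢
              linarith
        rw [integral_const_mul] at h1
        have h2 : e2 * ∫ t, M t ≤ e2 * (B1 * T ^ K) := by gcongr
        linarith
      have hE4 := abs_le.1 hE3
      have h9 : CM * TE + 2 * B1 * CT ≤ (B1 * T0 ^ K + CM + 2 * B1 * CT) * TE := by
        have h3 : 0 ≤ B1 * T0 ^ K := by positivity
        nlinarith
      linarith [hE4.1, hE4.2]

end MainAux

/-- **SP-MAIN** -/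
theorem t_MAIN (hW : S_W) (hSM : S_SM) : S_MAIN := by
  intro k hk x ε hx hxk hε
  obtain ⟨C, hC0, hC⟩ := MainAux.main_core hW hSM k hk x (min ε (1 / 2)) hx hxk (lt_min hε (by norm_num))
    (min_le_right _ _)
  refine ⟨C, hC0, fun T hT a b α θ ha hab hbT hα hαT => ?_⟩
  have hT1 : 1 ≤ T := by linarith
  have h1 : T ^ (min ε (1 / 2)) ≤ T ^ ε := Real.rpow_le_rpow_of_exponent_le hT1 (min_le_left _ _)
  obtain ⟨h2, h3⟩ := hC T hT a b α θ (T ^ ε) ha hab hbT hα hαT h1
  have h4 : C * T ^ (((k : ℝ) + 1 - x) / 2 + min ε (1 / 2)) ≤ C * T ^ (((k : ℝ) + 1 - x) / 2 + ε) := by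
    gcongr
    exact min_le_left _ _
  constructor
  · linarith
  · linarith

end Pool.Agent.J6H39.SP
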