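import Pool.Agent.J6H39.SP.Stm
import Pool.Agent.H345R2.Chi

/-!
# Project SP, module PH: the phase integral (`S_PH` from `S_W` and `S_VD`)
-/

set_option autoImplicit false

open MeasureTheory Set Filter Topology Complex

namespace Pool.Agent.J6H39.SP.PH

open H345 (XX)
open H345.Chi (L2)
open Pool.Agent.J6H39.SP

/-- the line -/
noncomputable def ln (σ t : ℝ) : ℂ := (σ : ℂ) + (t : ℂ) * I

lemma ln_re (σ t : ℝ) : (ln σ t).re = σ := by simp [ln]
lemma ln_im (σ t : ℝ) : (ln σ t).im = t := by simp [ln]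

lemma ln_deriv (σ t : ℝ) : HasDerivAt (ln σ) I t := by
  have h : HasDerivAt (ln σ) (((1 : ℝ) : ℂ) * I) t :=
    (((hasDerivAt_id t).ofReal_comp).mul_const I).const_add (σ : ℂ)
  rwa [ofReal_one, one_mul] at h

lemma ln_cont (σ : ℝ) : Continuous (ln σ) := by unfold ln; fun_prop

lemma XX_diff {s : ℂ} (h0 : 0 < s.re) : DifferentiableAt ℂ XX s := by
  have hGd : DifferentiableAt ℂ Gamma s := by
    apply Complex.differentiableAt_Gamma
    intro m hm
    rw [hm] at h0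
    simp at h0
    have : (0 : ℝ) ≤ m := Nat.cast_nonneg m
    linarith
  have d1 : DifferentiableAt ℂ (fun z : ℂ => (2 * (Real.pi : ℂ)) ^ (-z)) s :=
    ((hasDerivAt_neg s).const_cpow (c := 2 * (Real.pi : ℂ)) (Or.inl H345.Chi.two_pi_ne)).differentiableAt
  have d3 : DifferentiableAt ℂ (fun z : ℂ => Complex.cos (Real.pi * z / 2)) s := by fun_prop
  have d4 := ((d1.const_mul 2).mul hGd).mul d3
  exact d4

lemma XX_cont {σ : ℝ} (hσ : 0 < σ) : Continuous (fun t : ℝ => XX (ln σ t)) := by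
  refine continuous_iff_continuousAt.2 fun t => ?_
  have h1 : ContinuousAt XX (ln σ t) := (XX_diff (by rw [ln_re]; exact hσ)).continuousAt
  exact h1.comp (ln_cont σ).continuousAt

lemma L2_cont {σ : ℝ} (hσ : 0 < σ) {q : ℝ} : ContinuousOn (fun t : ℝ => L2 (ln σ t)) (Icc 12 q) := by
  have ho : IsOpen {s : ℂ | 0 < s.re} := isOpen_lt continuous_const Complex.continuous_re
  have hd : DifferentiableOn ℂ XX {s : ℂ | 0 < s.re} := fun s hs => (XX_diff hs).differentiableWithinAt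
  have hd2 : ContinuousOn (deriv XX) {s : ℂ | 0 < s.re} := (hd.deriv ho).continuousOn
  have h1 : Continuous (fun t : ℝ => deriv XX (ln σ t)) := by
    refine continuous_iff_continuousAt.2 fun t => ?_
    have hs : 0 < (ln σ t).re := by rw [ln_re]; exact hσ
    have h2 : ContinuousAt (deriv XX) (ln σ t) := hd2.continuousAt (ho.mem_nhds hs)
    exact h2.comp (ln_cont σ).continuousAt
  have h3 : ContinuousOn (fun t : ℝ => deriv XX (ln σ t) / XX (ln σ t)) (Icc 12 q) := by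
    refine h1.continuousOn.div (XX_cont hσ).continuousOn fun t ht => ?_
    exact H345.Chi.XX_ne (by rw [ln_re]; exact hσ) (by rw [ln_im]; linarith [ht.1])
  refine h3.congr fun t ht => ?_
  have h5 : XX (ln σ t) ≠ 0 := H345.Chi.XX_ne (by rw [ln_re]; exact hσ) (by rw [ln_im]; linarith [ht.1])
  simp only
  rw [(H345.Chi.hasDerivAt_XX (s := ln σ t) (by rw [ln_re]; exact hσ) (by rw [ln_im]; linarith [ht.1])).deriv]
  field_simp

/-- the phase of `XX` -/
noncomputable def gg (t : ℝ) : ℝ := t * Real.log (t / (2 * Real.pi)) - t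

lemma gg_deriv {t : ℝ} (ht : 0 < t) : HasDerivAt gg (Real.log (t / (2 * Real.pi))) t := by
  have hpi := Real.pi_pos
  have h0 : t / (2 * Real.pi) ≠ 0 := by positivity
  have h := ((hasDerivAt_id t).mul (((hasDerivAt_id t).div_const (2 * Real.pi)).log h0)).sub (hasDerivAt_id t)
  refine HasDerivAt.congr_deriv h ?_
  simp only [id]
  field_simp
  ring

lemma lg_deriv {t : ℝ} (ht : 0 < t) :
    HasDerivAt (fun t : ℝ => Real.log (t / (2 * Real.pi))) (1 / t) t := by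
  have hpi := Real.pi_pos
  have h0 : t / (2 * Real.pi) ≠ 0 := by positivity
  have h := ((hasDerivAt_id t).div_const (2 * Real.pi)).log h0
  refine HasDerivAt.congr_deriv h ?_
  simp only [id]
  field_simp

/-- the amplitude -/
noncomputable def AA (k : ℕ) (σ t : ℝ) : ℂ := XX (ln σ t) ^ k * cexp (-(I * ((k * gg t : ℝ) : ℂ)))

lemma AA_deriv {k : ℕ} {σ t : ℝ} (hσ : 0 < σ) (ht : 12 ≤ t) :
    HasDerivAt (AA k σ) (AA k σ t * (I * (k * (L2 (ln σ t) - (Real.log (t / (2 * Real.pi)) : ℂ))))) t := by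
  have ht0 : 0 < t := by linarith
  have hs1 : 0 < (ln σ t).re := by rw [ln_re]; exact hσ
  have hs2 : 1 ≤ (ln σ t).im := by rw [ln_im]; linarith
  have d1 : HasDerivAt (fun t : ℝ => XX (ln σ t)) (XX (ln σ t) * L2 (ln σ t) * I) t :=
    (H345.Chi.hasDerivAt_XX hs1 hs2).comp t (ln_deriv σ t)
  have d2 := d1.pow k
  have d3 : HasDerivAt (fun t : ℝ => -(I * ((k * gg t : ℝ) : ℂ)))
      (-(I * ((k * Real.log (t / (2 * Real.pi)) : ℝ) : ℂ))) t :=
    ((((gg_deriv ht0).const_mul (k : ℝ)).ofReal_comp).const_mul I).neg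
  have d4 := d2.mul d3.cexp
  refine HasDerivAt.congr_deriv d4 ?_
  have hX : XX (ln σ t) ≠ 0 := H345.Chi.XX_ne hs1 hs2
  rcases Nat.eq_zero_or_pos k with hk | hk
  · subst hk
    simp [AA]
  · have e : XX (ln σ t) ^ k = XX (ln σ t) ^ (k - 1) * XX (ln σ t) := by
      rw [← pow_succ, Nat.sub_add_cancel hk]
    unfold AA
    simp only [Pi.pow_apply]
    rw [e]
    push_cast
    ring

/-- the size of `XX` on the line -/
lemma XX_le : ∃ K : ℝ, 0 < K ∧ ∀ (k : ℕ) (σ t : ℝ), 1 / 2 ≤ σ → σ ≤ 4 → 1 ≤ t →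
    ‖XX (ln σ t) ^ k‖ ≤ Real.exp K ^ k * t ^ ((k : ℝ) * (σ - 1 / 2)) := by
  obtain ⟨K, hK, h⟩ := H345.Chi.XX_size
  refine ⟨K, hK, fun k σ t h1 h2 h3 => ?_⟩
  have h4 := (h (ln σ t) (by rw [ln_re]; exact h1) (by rw [ln_re]; exact h2) (by rw [ln_im]; exact h3)).2
  rw [ln_im, ln_re] at h4
  have ht : 0 ≤ t := by linarith
  rw [norm_pow, mul_comm (k : ℝ), Real.rpow_mul ht, Real.rpow_natCast, ← mul_pow]
  exact pow_le_pow_left₀ (norm_nonneg _) h4 k

lemma AA_norm (k : ℕ) (σ t : ℝ) : ‖AA k σ t‖ = ‖XX (ln σ t) ^ k‖ := by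
  unfold AA
  rw [norm_mul, Complex.norm_exp]
  simp

lemma y_eq {y : ℝ} (hy : 0 < y) (t : ℝ) :
    (y : ℂ) ^ (-((t : ℂ) * I)) = cexp (-(I * ((t * Real.log y : ℝ) : ℂ))) := by
  rw [Complex.cpow_def_of_ne_zero (by exact_mod_cast hy.ne'), ← Complex.ofReal_log hy.le]
  congr 1
  push_cast
  ring

lemma y_norm {y : ℝ} (hy : 0 < y) (t : ℝ) : ‖(y : ℂ) ^ (-((t : ℂ) * I))‖ = 1 := by
  rw [y_eq hy, Complex.norm_exp]
  simp

/-- the middle part -/
lemma mid (hVD : S_VD) {k : ℕ} (hk : 1 ≤ k) {σ : ℝ} (h1 : 1 < σ) (h2 : σ ≤ 2) {M : ℝ} (hM : 0 ≤ M) :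
    ∃ C : ℝ, 0 ≤ C ∧ ∀ T : ℝ, 2 ≤ T → ∀ W W' : ℝ → ℂ, (∀ t, HasDerivAt W (W' t) t) → Continuous W' →
    (∀ t, ‖W t‖ ≤ M) → (∫ t in (12 : ℝ)..(12 * T), ‖W' t‖) ≤ M → ∀ y : ℝ, 0 < y →
    ‖∫ t in (12 : ℝ)..(12 * T), XX (ln σ t) ^ k * (y : ℂ) ^ (-((t : ℂ) * I)) * W t‖ ≤
      C * T ^ ((k : ℝ) * (σ - 1 / 2) + 1 / 2) := by
  obtain ⟨K, hK, hX⟩ := XX_le
  have hk1 : (1 : ℝ) ≤ k := by exact_mod_cast hk
  have hσ : 0 < σ := by linarith
  obtain ⟨κ, hκd⟩ : ∃ κ : ℝ, κ = (k : ℝ) * (σ - 1 / 2) := ⟨_, rfl⟩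
  have hκ : 1 / 2 ≤ κ := by rw [hκd]; nlinarith
  obtain ⟨E, hE⟩ : ∃ E : ℝ, E = Real.exp K ^ k := ⟨_, rfl⟩
  have hE0 : 0 < E := by rw [hE]; positivity
  rw [← hκd]
  refine ⟨10 * Real.sqrt 12 * (E * 12 ^ κ * M + (14 * k * E * M * (2 * 12 ^ κ) + E * 12 ^ κ * M)),
    by positivity, fun T hT W W' hW hW' hWM hWI y hy => ?_⟩
  have hT0 : 0 < T := by linarith
  have hpq : (12 : ℝ) ≤ 12 * T := by linarith
  have hWc : Continuous W := continuous_iff_continuousAt.2 fun t => (hW t).continuousAt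
  -- the amplitude
  obtain ⟨R, hR⟩ : ∃ R : ℝ → ℂ, R = fun t => AA k σ t *
    (I * (k * (L2 (ln σ t) - (Real.log (t / (2 * Real.pi)) : ℂ)))) := ⟨_, rfl⟩
  have hAd : ∀ t, 12 ≤ t → HasDerivAt (AA k σ) (R t) t := fun t ht => by rw [hR]; exact AA_deriv hσ ht
  have hAc : ContinuousOn (AA k σ) (Icc 12 (12 * T)) := fun t ht =>
    (hAd t ht.1).continuousAt.continuousWithinAt
  have hRc : ContinuousOn R (Icc 12 (12 * T)) := by
    rw [hR]
    refine hAc.mul (continuousOn_const.mul (continuousOn_const.mul ((L2_cont hσ).sub ?_)))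
    refine Complex.continuous_ofReal.comp_continuousOn ?_
    intro t ht
    exact (lg_deriv (by linarith [ht.1])).continuousAt.continuousWithinAt
  have hAn : ∀ t, 12 ≤ t → ‖AA k σ t‖ ≤ E * t ^ κ := fun t ht => by
    rw [AA_norm, hE, hκd]
    exact hX k σ t (by linarith) (by linarith) (by linarith)
  have hRn : ∀ t, 12 ≤ t → ‖R t‖ ≤ 14 * k * E * t ^ (κ - 1) := fun t ht => by
    have ht0 : 0 < t := by linarith
    have h3 := H345.Chi.L2_close (s := ln σ t) (by rw [ln_re]; exact hσ) (by rw [ln_re]; linarith)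
      (by rw [ln_im]; exact ht)
    rw [ln_im] at h3
    have h4 := hAn t ht
    rw [hR]
    simp only [norm_mul, norm_I, one_mul, Complex.norm_natCast]
    calc ‖AA k σ t‖ * (k * ‖L2 (ln σ t) - (Real.log (t / (2 * Real.pi)) : ℂ)‖)
        ≤ (E * t ^ κ) * (k * (14 / t)) := by gcongr
      _ = 14 * k * E * t ^ (κ - 1) := by
        rw [Real.rpow_sub_one ht0.ne']
        ring
  -- the second derivative test
  have hl : 0 < (k : ℝ) / (12 * T) := by positivity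
  have key := hVD 12 (12 * T) (k / (12 * T)) (fun t => k * gg t - t * Real.log y)
    (fun t => k * Real.log (t / (2 * Real.pi)) - Real.log y) (fun t => k * (1 / t))
    (fun t => AA k σ t * W t) (fun t => R t * W t + AA k σ t * W' t) hpq hl
    (fun t ht => by
      have ht0 : 0 < t := by linarith [ht.1]
      have h := ((gg_deriv ht0).const_mul (k : ℝ)).sub ((hasDerivAt_id t).mul_const (Real.log y))
      rw [one_mul] at h
      exact h)
    (fun t ht => by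
      have ht0 : 0 < t := by linarith [ht.1]
      exact ((lg_deriv ht0).const_mul (k : ℝ)).sub_const _)
    (fun t ht => by
      have ht0 : 0 < t := by linarith [ht.1]
      rw [mul_one_div]
      exact div_le_div_of_nonneg_left (by positivity) ht0 ht.2)
    (by
      refine continuousOn_const.mul (continuousOn_const.div continuousOn_id fun t ht => ?_)
      have : (12 : ℝ) ≤ t := ht.1
      intro h0
      change t = 0 at h0
      linarith)
    (fun t ht => (hAd t ht.1).mul (hW t))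
    ((hRc.mul hWc.continuousOn).add (hAc.mul hW'.continuousOn))
  have e1 : (∫ t in (12 : ℝ)..(12 * T), XX (ln σ t) ^ k * (y : ℂ) ^ (-((t : ℂ) * I)) * W t) =
      ∫ t in (12 : ℝ)..(12 * T), AA k σ t * W t * cexp (I * ((k * gg t - t * Real.log y : ℝ) : ℂ)) := by
    congr 1
    funext t
    rw [y_eq hy]
    unfold AA
    have e2 : cexp (-(I * ((k * gg t : ℝ) : ℂ))) * cexp (I * ((k * gg t - t * Real.log y : ℝ) : ℂ)) =
        cexp (-(I * ((t * Real.log y : ℝ) : ℂ))) := by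
      rw [← Complex.exp_add]
      congr 1
      push_cast
      ring
    rw [← e2]
    ring
  rw [e1]
  refine key.trans ?_
  have hc1 : 10 / Real.sqrt ((k : ℝ) / (12 * T)) ≤ 10 * Real.sqrt 12 * T ^ (1 / 2 : ℝ) := by
    rw [← Real.sqrt_eq_rpow, mul_assoc, ← Real.sqrt_mul (by norm_num : (0:ℝ) ≤ 12)]
    rw [div_le_iff₀ (Real.sqrt_pos.2 hl), mul_assoc, ← Real.sqrt_mul (by positivity)]
    have : 12 * T * (k / (12 * T)) = k := by field_simp
    rw [this]
    have : 1 ≤ Real.sqrt k := Real.one_le_sqrt.2 hk1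
    linarith
  have hq : (12 * T) ^ κ = 12 ^ κ * T ^ κ := Real.mul_rpow (by norm_num) hT0.le
  have hTκ : 0 ≤ T ^ κ := by positivity
  have hc2 : ‖AA k σ (12 * T) * W (12 * T)‖ ≤ E * 12 ^ κ * M * T ^ κ := by
    rw [norm_mul]
    calc ‖AA k σ (12 * T)‖ * ‖W (12 * T)‖ ≤ (E * (12 * T) ^ κ) * M :=
          mul_le_mul (hAn _ hpq) (hWM _) (norm_nonneg _) (by positivity)
      _ = _ := by rw [hq]; ring
  have hi1 : IntervalIntegrable (fun t : ℝ => t ^ (κ - 1)) volume 12 (12 * T) :=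
    intervalIntegral.intervalIntegrable_rpow' (by linarith)
  have hi2 : IntervalIntegrable (fun t : ℝ => ‖W' t‖) volume 12 (12 * T) := hW'.norm.intervalIntegrable _ _
  have hc3 : (∫ t in (12 : ℝ)..(12 * T), ‖R t * W t + AA k σ t * W' t‖) ≤
      (14 * k * E * M * (2 * 12 ^ κ) + E * 12 ^ κ * M) * T ^ κ := by
    have h5 : (∫ t in (12 : ℝ)..(12 * T), ‖R t * W t + AA k σ t * W' t‖) ≤
        ∫ t in (12 : ℝ)..(12 * T), (14 * k * E * M * t ^ (κ - 1) + E * (12 * T) ^ κ * ‖W' t‖) := by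
      refine intervalIntegral.integral_mono_on hpq ?_ ((hi1.const_mul _).add (hi2.const_mul _)) fun t ht => ?_
      · refine ContinuousOn.intervalIntegrable ?_
        rw [uIcc_of_le hpq]
        exact ((hRc.mul hWc.continuousOn).add (hAc.mul hW'.continuousOn)).norm
      · have ht0 : 0 < t := by linarith [ht.1]
        refine (norm_add_le _ _).trans (add_le_add ?_ ?_)
        · rw [norm_mul]
          calc ‖R t‖ * ‖W t‖ ≤ (14 * k * E * t ^ (κ - 1)) * M :=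
                mul_le_mul (hRn t ht.1) (hWM t) (norm_nonneg _) (by positivity)
            _ = _ := by ring
        · rw [norm_mul]
          refine mul_le_mul_of_nonneg_right ((hAn t ht.1).trans ?_) (norm_nonneg _)
          refine mul_le_mul_of_nonneg_left ?_ hE0.le
          exact Real.rpow_le_rpow ht0.le ht.2 (by linarith)
    refine h5.trans ?_
    rw [intervalIntegral.integral_add (hi1.const_mul _) (hi2.const_mul _),
      intervalIntegral.integral_const_mul, intervalIntegral.integral_const_mul,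
      integral_rpow (Or.inl (by linarith))]
    have h6 : ((12 * T) ^ (κ - 1 + 1) - 12 ^ (κ - 1 + 1)) / (κ - 1 + 1) ≤ 2 * (12 ^ κ * T ^ κ) := by
      rw [sub_add_cancel, ← hq, div_le_iff₀ (by linarith)]
      have h7 : (0 : ℝ) ≤ 12 ^ κ := by positivity
      have h8 : (0 : ℝ) ≤ (12 * T) ^ κ := by positivity
      nlinarith
    calc 14 * k * E * M * (((12 * T) ^ (κ - 1 + 1) - 12 ^ (κ - 1 + 1)) / (κ - 1 + 1)) +
          E * (12 * T) ^ κ * ∫ t in (12 : ℝ)..(12 * T), ‖W' t‖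
        ≤ 14 * k * E * M * (2 * (12 ^ κ * T ^ κ)) + E * (12 * T) ^ κ * M := by gcongr
      _ = _ := by rw [hq]; ring
  calc 10 / Real.sqrt ((k : ℝ) / (12 * T)) *
        (‖AA k σ (12 * T) * W (12 * T)‖ + ∫ t in (12 : ℝ)..(12 * T), ‖R t * W t + AA k σ t * W' t‖)
      ≤ (10 * Real.sqrt 12 * T ^ (1 / 2 : ℝ)) * (E * 12 ^ κ * M * T ^ κ +
          (14 * k * E * M * (2 * 12 ^ κ) + E * 12 ^ κ * M) * T ^ κ) := by
        refine mul_le_mul hc1 (add_le_add hc2 hc3) ?_ (by positivity)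
        refine add_nonneg (norm_nonneg _) ?_
        exact intervalIntegral.integral_nonneg hpq fun t _ => norm_nonneg _
    _ = 10 * Real.sqrt 12 * (E * 12 ^ κ * M + (14 * k * E * M * (2 * 12 ^ κ) + E * 12 ^ κ * M)) *
        T ^ (κ + 1 / 2) := by
        rw [Real.rpow_add hT0]
        ring

/-- the function is continuous -/
lemma f_cont {k : ℕ} {σ : ℝ} (hσ : 0 < σ) {W : ℝ → ℂ} (hW : Continuous W) {y : ℝ} (hy : 0 < y) :
    Continuous (fun t : ℝ => XX (ln σ t) ^ k * (y : ℂ) ^ (-((t : ℂ) * I)) * W t) := by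
  have h1 : Continuous (fun t : ℝ => (y : ℂ) ^ (-((t : ℂ) * I))) := by
    have : (fun t : ℝ => (y : ℂ) ^ (-((t : ℂ) * I))) = fun t => cexp (-(I * ((t * Real.log y : ℝ) : ℂ))) := by
      funext t
      exact y_eq hy t
    rw [this]
    fun_prop
  exact (((XX_cont hσ).pow k).mul h1).mul hW

/-- the half line -/
lemma half (hVD : S_VD) {k : ℕ} (hk : 1 ≤ k) {σ : ℝ} (h1 : 1 < σ) (h2 : σ ≤ 2) {M : ℝ} (hM : 0 ≤ M) :
    ∃ C : ℝ, 0 ≤ C ∧ ∀ T : ℝ, 2 ≤ T → ∀ W W' : ℝ → ℂ, (∀ t, HasDerivAt W (W' t) t) → Continuous W' →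
    (∀ t, ‖W t‖ ≤ M) → (∀ t, 12 * T ≤ t → ‖W t‖ ≤ M * Real.exp (-(3 * t))) →
    (∫ t in (12 : ℝ)..(12 * T), ‖W' t‖) ≤ M → ∀ y : ℝ, 0 < y →
    IntegrableOn (fun t : ℝ => XX (ln σ t) ^ k * (y : ℂ) ^ (-((t : ℂ) * I)) * W t) (Ioi 0) ∧
    ‖∫ t in Ioi (0 : ℝ), XX (ln σ t) ^ k * (y : ℂ) ^ (-((t : ℂ) * I)) * W t‖ ≤
      C * T ^ ((k : ℝ) * (σ - 1 / 2) + 1 / 2) := by
  obtain ⟨K, hK, hX⟩ := XX_le
  obtain ⟨C₁, hC₁, hmid⟩ := mid hVD hk h1 h2 hM
  have hk1 : (1 : ℝ) ≤ k := by exact_mod_cast hk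
  have hσ : 0 < σ := by linarith
  obtain ⟨κ, hκd⟩ : ∃ κ : ℝ, κ = (k : ℝ) * (σ - 1 / 2) := ⟨_, rfl⟩
  have hκ : 1 / 2 ≤ κ := by rw [hκd]; nlinarith
  obtain ⟨E, hE⟩ : ∃ E : ℝ, E = Real.exp K ^ k := ⟨_, rfl⟩
  have hE0 : 0 < E := by rw [hE]; positivity
  rw [← hκd] at hmid ⊢
  -- the compact part
  obtain ⟨N, hN⟩ : ∃ N : ℝ, ∀ t ∈ Icc (0 : ℝ) 12, ‖XX (ln σ t) ^ k‖ ≤ N :=
    isCompact_Icc.exists_bound_of_continuousOn ((XX_cont hσ).pow k).continuousOn
  have hN0 : 0 ≤ N := (norm_nonneg _).trans (hN 0 (by constructor <;> norm_num))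
  -- the tail
  have hg : IntegrableOn (fun t : ℝ => t ^ κ * Real.exp (-(3 * t))) (Ioi 0) := by
    have := integrableOn_rpow_mul_exp_neg_mul_rpow (s := κ) (p := 1) (b := 3) (by linarith) one_pos (by norm_num)
    refine this.congr_fun (fun t _ => ?_) measurableSet_Ioi
    simp only [Real.rpow_one, neg_mul]
  obtain ⟨G, hG⟩ : ∃ G : ℝ, G = ∫ t in Ioi (0 : ℝ), t ^ κ * Real.exp (-(3 * t)) := ⟨_, rfl⟩
  have hG0 : 0 ≤ G := by
    rw [hG]
    exact setIntegral_nonneg measurableSet_Ioi fun t ht => mul_nonneg (Real.rpow_nonneg (le_of_lt ht) _) (Real.exp_pos _).le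
  refine ⟨12 * (N * M) + C₁ + E * M * G, by positivity, fun T hT W W' hW hW' hWM hWt hWI y hy => ?_⟩
  have hT0 : 0 < T := by linarith
  have hWc : Continuous W := continuous_iff_continuousAt.2 fun t => (hW t).continuousAt
  obtain ⟨f, hf⟩ : ∃ f : ℝ → ℂ, f = fun t : ℝ => XX (ln σ t) ^ k * (y : ℂ) ^ (-((t : ℂ) * I)) * W t := ⟨_, rfl⟩
  have hfc : Continuous f := by rw [hf]; exact f_cont hσ hWc hy
  have hm := hmid T hT W W' hW hW' hWM hWI y hy
  rw [← hf] at hm ⊢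
  have h12 : (12 : ℝ) ≤ 12 * T := by linarith
  have hfn : ∀ t, ‖f t‖ = ‖XX (ln σ t) ^ k‖ * ‖W t‖ := fun t => by
    rw [hf]
    simp only
    rw [norm_mul, norm_mul, y_norm hy, mul_one]
  have htb : ∀ t, 12 * T ≤ t → ‖f t‖ ≤ E * M * (t ^ κ * Real.exp (-(3 * t))) := fun t ht => by
    have ht1 : 1 ≤ t := by linarith
    rw [hfn]
    have h3 := hX k σ t (by linarith) (by linarith) ht1
    rw [← hκd, ← hE] at h3
    calc ‖XX (ln σ t) ^ k‖ * ‖W t‖ ≤ (E * t ^ κ) * (M * Real.exp (-(3 * t))) :=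
          mul_le_mul h3 (hWt t ht) (norm_nonneg _) (by positivity)
      _ = _ := by ring
  have hg2 : IntegrableOn (fun t : ℝ => E * M * (t ^ κ * Real.exp (-(3 * t)))) (Ioi (12 * T)) :=
    (hg.mono_set (Ioi_subset_Ioi (by positivity))).const_mul _
  have hft : IntegrableOn f (Ioi (12 * T)) := by
    refine Integrable.mono' hg2 hfc.aestronglyMeasurable ?_
    refine (ae_restrict_iff' measurableSet_Ioi).2 (Filter.Eventually.of_forall fun t ht => htb t (le_of_lt ht))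
  have hf0 : IntegrableOn f (Ioc 0 (12 * T)) := (hfc.intervalIntegrable 0 (12 * T)).1
  have hun : Ioc 0 (12 * T) ∪ Ioi (12 * T) = Ioi (0 : ℝ) := Ioc_union_Ioi_eq_Ioi (by positivity)
  have hfi : IntegrableOn f (Ioi 0) := by
    rw [← hun]
    exact hf0.union hft
  refine ⟨hfi, ?_⟩
  have hsplit : ∫ t in Ioi (0 : ℝ), f t = (∫ t in (0 : ℝ)..12, f t) + (∫ t in (12 : ℝ)..(12 * T), f t) +
      ∫ t in Ioi (12 * T), f t := by
    rw [intervalIntegral.integral_add_adjacent_intervals (hfc.intervalIntegrable _ _) (hfc.intervalIntegrable _ _),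
      intervalIntegral.integral_of_le (by positivity), ← hun,
      setIntegral_union (Set.Ioc_disjoint_Ioi le_rfl) measurableSet_Ioi hf0 hft]
  have hT1 : 1 ≤ T ^ (κ + 1 / 2) := Real.one_le_rpow (by linarith) (by linarith)
  have b1 : ‖∫ t in (0 : ℝ)..12, f t‖ ≤ 12 * (N * M) := by
    have := intervalIntegral.norm_integral_le_of_norm_le_const (a := (0:ℝ)) (b := 12) (f := f) (C := N * M)
      (fun t ht => by
        rw [uIoc_of_le (by norm_num)] at ht
        rw [hfn]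
        exact mul_le_mul (hN t ⟨ht.1.le, ht.2⟩) (hWM t) (norm_nonneg _) hN0)
    rw [sub_zero, abs_of_pos (by norm_num : (0:ℝ) < 12)] at this
    linarith
  have b3 : ‖∫ t in Ioi (12 * T), f t‖ ≤ E * M * G := by
    refine (norm_integral_le_of_norm_le hg2 ?_).trans ?_
    · exact (ae_restrict_iff' measurableSet_Ioi).2 (Filter.Eventually.of_forall fun t ht => htb t (le_of_lt ht))
    · rw [integral_const_mul, hG]
      refine mul_le_mul_of_nonneg_left ?_ (by positivity)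
      refine setIntegral_mono_set hg ?_ (Ioi_subset_Ioi (by positivity : (0:ℝ) ≤ 12 * T)).eventuallyLE
      exact (ae_restrict_iff' measurableSet_Ioi).2 (Filter.Eventually.of_forall fun t ht =>
        mul_nonneg (Real.rpow_nonneg (le_of_lt ht) _) (Real.exp_pos _).le)
  rw [hsplit]
  have hc : 0 ≤ 12 * (N * M) + E * M * G := by positivity
  calc ‖(∫ t in (0 : ℝ)..12, f t) + (∫ t in (12 : ℝ)..(12 * T), f t) + ∫ t in Ioi (12 * T), f t‖
      ≤ 12 * (N * M) + C₁ * T ^ (κ + 1 / 2) + E * M * G :=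
        (norm_add_le _ _).trans (add_le_add ((norm_add_le _ _).trans (add_le_add b1 hm)) b3)
    _ ≤ (12 * (N * M) + C₁ + E * M * G) * T ^ (κ + 1 / 2) := by nlinarith

/-- the Gaussian -/
lemma gauss_int {Δ : ℝ} (hΔ : 0 < Δ) (a : ℝ) :
    Integrable (fun t : ℝ => Real.exp (-((t - a) / Δ) ^ 2)) ∧
    ∫ t : ℝ, Real.exp (-((t - a) / Δ) ^ 2) = Δ * Real.sqrt Real.pi := by
  have hb : 0 < 1 / Δ ^ 2 := by positivity
  have e : (fun t : ℝ => Real.exp (-((t - a) / Δ) ^ 2)) =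
      fun t => (fun x : ℝ => Real.exp (-(1 / Δ ^ 2) * x ^ 2)) (t - a) := by
    funext t
    simp only
    congr 1
    field_simp
  refine ⟨?_, ?_⟩
  · rw [e]
    exact (integrable_exp_neg_mul_sq hb).comp_sub_right a
  · rw [e, integral_sub_right_eq_self (fun x : ℝ => Real.exp (-(1 / Δ ^ 2) * x ^ 2)) a, integral_gaussian]
    have : Real.pi / (1 / Δ ^ 2) = Δ ^ 2 * Real.pi := by field_simp
    rw [this, Real.sqrt_mul (by positivity), Real.sqrt_sq hΔ.le]

lemma gauss_norm {Δ c : ℝ} (hΔ : 1 ≤ Δ) (hc : c ^ 2 ≤ 4) (a t : ℝ) :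
    ‖cexp (-((((t : ℂ) - (c : ℂ) * I) - (a : ℂ)) / (Δ : ℂ)) ^ 2)‖ ≤
      Real.exp 4 * Real.exp (-((t - a) / Δ) ^ 2) := by
  have hΔ0 : 0 < Δ := by linarith
  have hΔc : (Δ : ℂ) ≠ 0 := by exact_mod_cast hΔ0.ne'
  have e : (-((((t : ℂ) - (c : ℂ) * I) - (a : ℂ)) / (Δ : ℂ)) ^ 2) =
      (((c ^ 2 - (t - a) ^ 2) / Δ ^ 2 : ℝ) : ℂ) + ((2 * (t - a) * c / Δ ^ 2 : ℝ) : ℂ) * I := by
    push_cast
    field_simp
    ring_nf
    rw [I_sq]
    ring
  rw [e, Complex.norm_exp, ← Real.exp_add]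
  have e2 : ((((c ^ 2 - (t - a) ^ 2) / Δ ^ 2 : ℝ) : ℂ) + ((2 * (t - a) * c / Δ ^ 2 : ℝ) : ℂ) * I).re =
      (c ^ 2 - (t - a) ^ 2) / Δ ^ 2 := by
    rw [add_re, re_ofReal_mul, ofReal_re, I_re, mul_zero, add_zero]
  rw [e2]
  apply Real.exp_le_exp.2
  have h1 : c ^ 2 / Δ ^ 2 ≤ 4 := by
    rw [div_le_iff₀ (by positivity)]
    nlinarith
  rw [div_pow, sub_div]
  linarith

end Pool.Agent.J6H39.SP.PH

namespace Pool.Agent.J6H39.SP

open H345 (XX)
open PH

/-- **SP-PH** -/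
theorem t_PH (hW : S_W) (hVD : S_VD) : S_PH := by
  intro k hk σ h1 h2
  obtain ⟨C, hC, H⟩ := half hVD hk h1 h2 (M := 2 * Real.exp 4) (by positivity)
  refine ⟨2 * C, by positivity, fun T hT a b Δ ha hab hb hΔ hΔT y hy => ?_⟩
  obtain ⟨w1, -, w3, w4, -, -, -, -⟩ := hW a b Δ hab hΔ
  have hσ : 0 < σ := by linarith
  have hT0 : 0 < T := by linarith
  have hΔ0 : 0 < Δ := by linarith
  have hpi := Real.pi_pos
  obtain ⟨c, hc⟩ : ∃ c : ℝ, c = σ - 1 / 2 := ⟨_, rfl⟩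
  have hc2 : c ^ 2 ≤ 4 := by rw [hc]; nlinarith
  obtain ⟨W, hWd⟩ : ∃ W : ℝ → ℂ, W = fun t : ℝ => Wd a b Δ ((t : ℂ) - (c : ℂ) * I) := ⟨_, rfl⟩
  obtain ⟨D, hD⟩ : ∃ D : ℝ → ℂ, D = fun t : ℝ => deriv (Wd a b Δ) ((t : ℂ) - (c : ℂ) * I) := ⟨_, rfl⟩
  have hWD : ∀ t, HasDerivAt W (D t) t := by
    intro t
    rw [hWd, hD]
    have h3 : HasDerivAt (fun z : ℂ => Wd a b Δ (z - (c : ℂ) * I)) (deriv (Wd a b Δ) ((t : ℂ) - (c : ℂ) * I)) (t : ℂ) :=
      HasDerivAt.comp_sub_const (t : ℂ) ((c : ℂ) * I) (w1 _).hasDerivAt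
    exact h3.comp_ofReal
  have hDc : Continuous D := by
    rw [hD]
    have h3 : Continuous (deriv (Wd a b Δ)) := (w1.contDiff (n := 1)).continuous_deriv le_rfl
    exact h3.comp (by fun_prop)
  have hWc : Continuous W := continuous_iff_continuousAt.2 fun t => (hWD t).continuousAt
  have hWn : ∀ t, ‖W t‖ ≤ Real.exp 4 * Real.exp (-(ds a b t / Δ) ^ 2) := by
    intro t
    have h3 := w3 t (-c) (by rw [abs_le, hc]; constructor <;> linarith)
    rw [hWd]
    simp only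
    have e : (t : ℂ) - (c : ℂ) * I = (t : ℂ) + ((-c : ℝ) : ℂ) * I := by push_cast; ring
    rw [e]
    exact h3
  have hWM : ∀ t, ‖W t‖ ≤ 2 * Real.exp 4 := by
    intro t
    refine (hWn t).trans ?_
    have h3 : Real.exp (-(ds a b t / Δ) ^ 2) ≤ 1 := Real.exp_le_one_iff.2 (by
      have := sq_nonneg (ds a b t / Δ)
      linarith)
    have := Real.exp_pos 4
    nlinarith
  have hWt : ∀ t, 12 * T ≤ |t| → ‖W t‖ ≤ 2 * Real.exp 4 * Real.exp (-(3 * |t|)) := by
    intro t ht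
    refine (hWn t).trans ?_
    have h3 : |t| / 2 ≤ ds a b t := by
      unfold ds
      rcases abs_cases t with ⟨h, h'⟩ | ⟨h, h'⟩
      · refine le_trans ?_ ((le_max_right _ _).trans (le_max_right _ _))
        rw [h] at ht ⊢
        linarith
      · refine le_trans ?_ ((le_max_left _ _).trans (le_max_right _ _))
        rw [h] at ht ⊢
        linarith
    have ht0 : 0 ≤ |t| := abs_nonneg t
    have h4 : 3 * |t| ≤ (ds a b t / Δ) ^ 2 := by
      rw [div_pow, le_div_iff₀ (by positivity)]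
      calc 3 * |t| * Δ ^ 2 ≤ 3 * |t| * T := by gcongr
        _ ≤ (|t| / 2) ^ 2 := by nlinarith
        _ ≤ ds a b t ^ 2 := by gcongr
    have h5 : Real.exp (-(ds a b t / Δ) ^ 2) ≤ Real.exp (-(3 * |t|)) := Real.exp_le_exp.2 (by linarith)
    have h6 := Real.exp_pos 4
    have h7 := Real.exp_pos (-(3 * |t|))
    calc Real.exp 4 * Real.exp (-(ds a b t / Δ) ^ 2) ≤ Real.exp 4 * Real.exp (-(3 * |t|)) := by gcongr
      _ ≤ _ := by nlinarith [mul_pos h6 h7]
  -- the derivative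
  obtain ⟨g, hg⟩ : ∃ g : ℝ → ℝ, g = fun t => (Δ * Real.sqrt Real.pi)⁻¹ * (Real.exp 4 * Real.exp (-((t - a) / Δ) ^ 2) +
    Real.exp 4 * Real.exp (-((t - b) / Δ) ^ 2)) := ⟨_, rfl⟩
  have hDg : ∀ t, ‖D t‖ ≤ g t := by
    intro t
    rw [hD, hg]
    simp only
    rw [w4, norm_mul, norm_inv, Complex.norm_real, Real.norm_of_nonneg (by positivity)]
    refine mul_le_mul_of_nonneg_left ?_ (by positivity)
    exact (norm_sub_le _ _).trans (add_le_add (gauss_norm hΔ hc2 a t) (gauss_norm hΔ hc2 b t))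
  have hgi : Integrable g := by
    rw [hg]
    exact (((gauss_int hΔ0 a).1.const_mul _).add ((gauss_int hΔ0 b).1.const_mul _)).const_mul _
  have hgI : ∫ t, g t = 2 * Real.exp 4 := by
    rw [hg, integral_const_mul, integral_add ((gauss_int hΔ0 a).1.const_mul _) ((gauss_int hΔ0 b).1.const_mul _),
      integral_const_mul, integral_const_mul, (gauss_int hΔ0 a).2, (gauss_int hΔ0 b).2]
    have : 0 < Real.sqrt Real.pi := Real.sqrt_pos.2 hpi
    field_simp
    ring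
  have hg0 : ∀ t, 0 ≤ g t := fun t => (norm_nonneg _).trans (hDg t)
  have hDI : ∀ (D' : ℝ → ℂ) (g' : ℝ → ℝ), Continuous D' → (∀ t, ‖D' t‖ ≤ g' t) → Integrable g' →
      ∫ t, g' t = 2 * Real.exp 4 → (∫ t in (12 : ℝ)..(12 * T), ‖D' t‖) ≤ 2 * Real.exp 4 := by
    intro D' g' hD' hDg' hgi' hgI'
    have hle : (12 : ℝ) ≤ 12 * T := by linarith
    calc (∫ t in (12 : ℝ)..(12 * T), ‖D' t‖) ≤ ∫ t in (12 : ℝ)..(12 * T), g' t :=
          intervalIntegral.integral_mono_on hle (hD'.norm.intervalIntegrable _ _) hgi'.intervalIntegrable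
            fun t _ => hDg' t
      _ = ∫ t in Ioc 12 (12 * T), g' t := intervalIntegral.integral_of_le hle
      _ ≤ ∫ t, g' t := setIntegral_le_integral hgi' (Filter.Eventually.of_forall fun t =>
          (norm_nonneg _).trans (hDg' t))
      _ = _ := hgI'
  -- the positive half line
  have P1 := H T hT W D hWD hDc hWM (fun t ht => by
    have h3 : |t| = t := abs_of_nonneg (by linarith)
    have h4 := hWt t (by rw [h3]; exact ht)
    rwa [h3] at h4) (hDI D g hDc hDg hgi hgI) y hy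
  -- the negative half line
  obtain ⟨W₂, hW₂⟩ : ∃ W₂ : ℝ → ℂ, W₂ = fun t => (starRingEnd ℂ) (W (-t)) := ⟨_, rfl⟩
  obtain ⟨D₂, hD₂⟩ : ∃ D₂ : ℝ → ℂ, D₂ = fun t => (starRingEnd ℂ) (-(D (-t))) := ⟨_, rfl⟩
  have hWD₂ : ∀ t, HasDerivAt W₂ (D₂ t) t := by
    intro t
    have h3 : HasDerivAt (fun t : ℝ => W (-t)) (-(D (-t))) t := by
      have := (hWD (-t)).scomp t (hasDerivAt_neg t)
      rw [neg_one_smul] at this
      exact this
    have h4 := (Complex.conjCLE.hasFDerivAt (x := W (-t))).comp_hasDerivAt t h3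
    rw [hW₂, hD₂]
    exact h4
  have hD₂c : Continuous D₂ := by
    rw [hD₂]
    exact Complex.continuous_conj.comp ((hDc.comp continuous_neg).neg)
  have P2 := H T hT W₂ D₂ hWD₂ hD₂c (fun t => by
      rw [hW₂]
      simp only [RCLike.norm_conj]
      exact hWM _) (fun t ht => by
      have h3 : |-t| = t := by rw [abs_neg]; exact abs_of_nonneg (by linarith)
      have h4 := hWt (-t) (by rw [h3]; exact ht)
      rw [h3] at h4
      rw [hW₂]
      simp only [RCLike.norm_conj]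
      exact h4) (hDI D₂ (fun t => g (-t)) hD₂c (fun t => by
        rw [hD₂]
        simp only [RCLike.norm_conj, norm_neg]
        exact hDg _) hgi.comp_neg (by rw [integral_neg_eq_self g]; exact hgI)) y hy
  obtain ⟨f, hf⟩ : ∃ f : ℝ → ℂ, f = fun t : ℝ => XX (ln σ t) ^ k * (y : ℂ) ^ (-((t : ℂ) * I)) * W t := ⟨_, rfl⟩
  obtain ⟨f₂, hf₂⟩ : ∃ f₂ : ℝ → ℂ, f₂ = fun t : ℝ => XX (ln σ t) ^ k * (y : ℂ) ^ (-((t : ℂ) * I)) * W₂ t := ⟨_, rfl⟩
  rw [← hf] at P1
  rw [← hf₂] at P2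
  have hff : ∀ t, f (-t) = (starRingEnd ℂ) (f₂ t) := by
    intro t
    have e1 : ln σ (-t) = (starRingEnd ℂ) (ln σ t) := by
      unfold ln
      simp
    rw [hf, hf₂]
    simp only
    rw [e1, H345.Chi.XX_conj, y_eq hy, y_eq hy, map_mul, map_mul, map_pow, ← Complex.exp_conj, hW₂]
    simp only [map_neg, map_mul, conj_I, conj_ofReal, Complex.conj_conj]
    congr 2
    push_cast
    ring_nf
  have hfn : IntegrableOn f (Iic 0) := by
    have h3 : IntegrableOn (fun t => f (-t)) (Ioi 0) := by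
      have h4 : IntegrableOn (fun t => (starRingEnd ℂ) (f₂ t)) (Ioi 0) := by
        have h5 : Integrable f₂ (volume.restrict (Ioi 0)) := P2.1
        exact (Complex.conjCLE.toContinuousLinearMap.integrable_comp h5)
      exact h4.congr_fun (fun t _ => (hff t).symm) measurableSet_Ioi
    have h6 : IntegrableOn (fun t => f (-t)) (Ici 0) := (integrableOn_Ici_iff_integrableOn_Ioi (by finiteness)).2 h3
    have h7 := (Measure.measurePreserving_neg (volume : Measure ℝ)).integrableOn_comp_preimage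
      (Homeomorph.neg ℝ).measurableEmbedding (f := f) (s := Iic 0)
    have h8 : (Neg.neg ⁻¹' (Iic (0 : ℝ))) = Ici (0 : ℝ) := by
      ext t
      simp
    rw [h8] at h7
    exact h7.1 h6
  have hfi : Integrable f := by
    rw [← integrableOn_univ, ← Iic_union_Ioi (a := (0 : ℝ))]
    exact hfn.union P1.1
  have hfe : (fun t : ℝ => XX ((σ : ℂ) + (t : ℂ) * I) ^ k * (y : ℂ) ^ (-((t : ℂ) * I)) *
      Wd a b Δ ((t : ℂ) - ((σ - 1 / 2 : ℝ) : ℂ) * I)) = f := by
    rw [hf, hWd, hc]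
    rfl
  rw [hfe]
  refine ⟨hfi, ?_⟩
  have hsum : ∫ t, f t = (∫ t in Iic 0, f t) + ∫ t in Ioi 0, f t :=
    (intervalIntegral.integral_Iic_add_Ioi hfn P1.1).symm
  have hneg : ∫ t in Iic 0, f t = (starRingEnd ℂ) (∫ t in Ioi 0, f₂ t) := by
    have h3 := integral_comp_neg_Ioi (0 : ℝ) f
    rw [neg_zero] at h3
    rw [← h3, ← integral_conj]
    exact setIntegral_congr_fun measurableSet_Ioi fun t _ => hff t
  rw [hsum, hneg]
  refine (norm_add_le _ _).trans ?_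
  rw [RCLike.norm_conj]
  linarith [P1.2, P2.2]

end Pool.Agent.J6H39.SP
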