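import Pool.Agent.J6H39.SP.Stm

/-! Project SP: Poisson summation (`S_PO`). -/

set_option autoImplicit false

open MeasureTheory Set Filter Topology Complex
open scoped FourierTransform

namespace Pool.Agent.J6H39.SP

open Pool.Agent.J6H39.CG (zh)

namespace PO

theorem F_cont (k : ℕ) : Continuous (F k) := by
  unfold F
  exact (Pool.Agent.J6H39.CG.zh_cont.norm).pow _

theorem F_nonneg (k : ℕ) (t : ℝ) : 0 ≤ F k t := by
  unfold F; positivity

theorem F_le (k : ℕ) (t : ℝ) : F k t ≤ (16 * (1 + |t|)) ^ (2 * k) :=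
  pow_le_pow_left₀ (norm_nonneg _) (Pool.Agent.J6H39.CG.zh_bound t) _

/-- powers against the Gaussian -/
theorem pow_gauss (m : ℕ) {v : ℝ} (hv : 0 ≤ v) :
    (1 + v) ^ (2 * m) * Real.exp (-v ^ 2) ≤ 2 ^ m * (m.factorial * Real.exp 1) := by
  have h1 : (1 + v) ^ 2 ≤ 2 * (1 + v ^ 2) := by nlinarith [sq_nonneg (1 - v)]
  have h2 : (1 + v) ^ (2 * m) ≤ (2 * (1 + v ^ 2)) ^ m := by
    rw [pow_mul]
    exact pow_le_pow_left₀ (by positivity) h1 m
  have h3 : (1 + v ^ 2) ^ m / (m.factorial : ℝ) ≤ Real.exp (1 + v ^ 2) :=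
    Real.pow_div_factorial_le_exp _ (by positivity) m
  have hf : (0 : ℝ) < m.factorial := by exact_mod_cast m.factorial_pos
  rw [div_le_iff₀ hf] at h3
  calc (1 + v) ^ (2 * m) * Real.exp (-v ^ 2)
      ≤ (2 ^ m * (Real.exp (1 + v ^ 2) * m.factorial)) * Real.exp (-v ^ 2) := by
        refine mul_le_mul_of_nonneg_right ?_ (Real.exp_nonneg _)
        rw [mul_pow] at h2
        refine h2.trans ?_
        exact mul_le_mul_of_nonneg_left h3 (by positivity)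
    _ = 2 ^ m * (m.factorial * Real.exp 1) := by
        have : Real.exp (1 + v ^ 2) * Real.exp (-v ^ 2) = Real.exp 1 := by
          rw [← Real.exp_add]; congr 1; ring
        calc _ = 2 ^ m * (m.factorial * (Real.exp (1 + v ^ 2) * Real.exp (-v ^ 2))) := by ring
          _ = _ := by rw [this]

theorem ds_nonneg (a b t : ℝ) : 0 ≤ ds a b t := le_max_left _ _

theorem abs_le_ds (a b t : ℝ) : |t| ≤ ds a b t + (|a| + |b|) := by
  unfold ds
  have h1 : a - t ≤ max 0 (max (a - t) (t - b)) := (le_max_left _ _).trans (le_max_right _ _)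
  have h2 : t - b ≤ max 0 (max (a - t) (t - b)) := (le_max_right _ _).trans (le_max_right _ _)
  have ha := neg_abs_le a
  have ha' := le_abs_self a
  have hb := neg_abs_le b
  have hb' := le_abs_self b
  have hna := abs_nonneg a
  have hnb := abs_nonneg b
  rcases abs_cases t with ⟨h, _⟩ | ⟨h, _⟩ <;> rw [h] <;> linarith

/-- decay of the windowed function -/
theorem g_decay (hW : S_W) (k : ℕ) (a b Δ : ℝ) (hab : a ≤ b) (hΔ : 1 ≤ Δ) :
    ∃ C : ℝ, 0 ≤ C ∧ ∀ t : ℝ, F k t * wr a b Δ t ≤ C * ((1 + |t|) ^ 2)⁻¹ := by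
  obtain ⟨-, -, -, -, -, h0, h1, -⟩ := hW a b Δ hab hΔ
  have hΔ0 : 0 < Δ := by linarith
  set M : ℝ := 1 + (|a| + |b|) with hM
  have hM1 : 1 ≤ M := by rw [hM]; have := abs_nonneg a; have := abs_nonneg b; linarith
  refine ⟨16 ^ (2 * k) * ((M * Δ) ^ (2 * (k + 1)) * (2 ^ (k + 1) * ((k + 1).factorial * Real.exp 1))),
    by positivity, fun t => ?_⟩
  set v : ℝ := ds a b t / Δ with hv
  have hv0 : 0 ≤ v := div_nonneg (ds_nonneg _ _ _) hΔ0.le
  have hds : ds a b t = Δ * v := by rw [hv]; field_simp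
  have ht : 1 + |t| ≤ (M * Δ) * (1 + v) := by
    have h3 := abs_le_ds a b t
    rw [hds] at h3
    have h4 : 1 + |t| ≤ M + Δ * v := by rw [hM]; linarith
    have h5 : M ≤ M * Δ := by nlinarith
    have h6 : Δ * v ≤ M * Δ * v := by
      have : 0 ≤ Δ * v := by positivity
      nlinarith
    calc 1 + |t| ≤ M + Δ * v := h4
      _ ≤ M * Δ + M * Δ * v := add_le_add h5 h6
      _ = _ := by ring
  have htp : 0 < 1 + |t| := by positivity
  have h7 : (1 + |t|) ^ (2 * (k + 1)) * Real.exp (-v ^ 2) ≤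
      (M * Δ) ^ (2 * (k + 1)) * (2 ^ (k + 1) * ((k + 1).factorial * Real.exp 1)) := by
    calc (1 + |t|) ^ (2 * (k + 1)) * Real.exp (-v ^ 2)
        ≤ ((M * Δ) * (1 + v)) ^ (2 * (k + 1)) * Real.exp (-v ^ 2) :=
          mul_le_mul_of_nonneg_right (pow_le_pow_left₀ htp.le ht _) (Real.exp_nonneg _)
      _ = (M * Δ) ^ (2 * (k + 1)) * ((1 + v) ^ (2 * (k + 1)) * Real.exp (-v ^ 2)) := by
          rw [mul_pow]; ring
      _ ≤ _ := mul_le_mul_of_nonneg_left (pow_gauss (k + 1) hv0) (by positivity)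
  rw [← div_eq_mul_inv, le_div_iff₀ (by positivity)]
  calc F k t * wr a b Δ t * (1 + |t|) ^ 2
      ≤ (16 * (1 + |t|)) ^ (2 * k) * Real.exp (-v ^ 2) * (1 + |t|) ^ 2 := by
        refine mul_le_mul_of_nonneg_right ?_ (by positivity)
        exact mul_le_mul (F_le k t) (h1 t) (h0 t) (by positivity)
    _ = 16 ^ (2 * k) * ((1 + |t|) ^ (2 * (k + 1)) * Real.exp (-v ^ 2)) := by
        rw [mul_pow]; ring
    _ ≤ _ := mul_le_mul_of_nonneg_left h7 (by positivity)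


theorem fourier_zero_one (m : ℤ) : fourier m ((0 : ℝ) : UnitAddCircle) = 1 := by
  simp

theorem split_Z (f : ℤ → ℂ) (h0 : Summable (fun m : ℕ => f (m : ℤ)))
    (h2 : Summable (fun m : ℕ => f (-((m : ℤ) + 1)))) :
    ∑' m : ℤ, f m = f 0 + ((∑' m : ℕ, f ((m : ℤ) + 1)) + ∑' m : ℕ, f (-((m : ℤ) + 1))) := by
  rw [tsum_of_nat_of_neg_add_one h0 h2, h0.tsum_eq_zero_add]
  push_cast
  ring

/-- the abstract statement -/
theorem poisson_abs (g : ℝ → ℝ) (hg : Continuous g) {C : ℝ} (hC : 0 ≤ C)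
    (hd : ∀ t, |g t| ≤ C * ((1 + |t|) ^ 2)⁻¹) {α : ℝ} (hα : 0 < α) (θ : ℝ)
    (hs : Summable (fun m : ℕ => ‖∫ t : ℝ, ((g t : ℝ) : ℂ) *
      ((Real.exp (2 * Real.pi / α * (m + 1)) : ℝ) : ℂ) ^ (-((t : ℂ) * I))‖)) :
    Integrable g ∧ Summable (fun n : ℤ => g (θ + α * n)) ∧
    |α * (∑' n : ℤ, g (θ + α * n)) - ∫ t, g t| ≤
      2 * ∑' m : ℕ, ‖∫ t : ℝ, ((g t : ℝ) : ℂ) *
        ((Real.exp (2 * Real.pi / α * (m + 1)) : ℝ) : ℂ) ^ (-((t : ℂ) * I))‖ := by
  have hint : Integrable g := by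
    have h1 : Integrable (fun t : ℝ => C * (1 + t ^ 2)⁻¹) := integrable_inv_one_add_sq.const_mul C
    refine h1.mono' hg.aestronglyMeasurable (Eventually.of_forall fun t => ?_)
    rw [Real.norm_eq_abs]
    refine (hd t).trans (mul_le_mul_of_nonneg_left ?_ hC)
    refine inv_anti₀ (by positivity) ?_
    have : t ^ 2 = |t| ^ 2 := (sq_abs t).symm
    nlinarith [abs_nonneg t]
  -- the scaled function
  set h : ℝ → ℂ := fun x => ((g (θ + α * x) : ℝ) : ℂ) with hh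
  have hhc : Continuous h := by
    rw [hh]
    exact Complex.continuous_ofReal.comp (hg.comp (by fun_prop))
  have hdec : h =O[cocompact ℝ] fun x : ℝ => |x| ^ (-(2:ℝ)) := by
    refine Asymptotics.IsBigO.of_bound (C * ((1 + |θ|) / α) ^ 2) ?_
    have h0 : ∀ᶠ x : ℝ in cocompact ℝ, x ≠ 0 := by
      have := (isCompact_singleton (x := (0:ℝ))).compl_mem_cocompact
      filter_upwards [this] with x hx
      simpa using hx
    filter_upwards [h0] with x hx
    have hxa : 0 < |x| := abs_pos.2 hx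
    rw [hh]
    simp only [Complex.norm_real, Real.norm_eq_abs]
    have h2 : |(|x| ^ (-(2:ℝ)))| = (|x| ^ 2)⁻¹ := by
      rw [Real.rpow_neg (abs_nonneg x), abs_of_nonneg (by positivity)]
      norm_cast
    rw [h2]
    refine (hd _).trans ?_
    rw [mul_assoc]
    refine mul_le_mul_of_nonneg_left ?_ hC
    have h3 : |x| ≤ ((1 + |θ|) / α) * (1 + |θ + α * x|) := by
      have h4 : α * |x| ≤ |θ + α * x| + |θ| := by
        have : α * x = (θ + α * x) - θ := by ring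
        rw [← abs_of_pos hα, ← abs_mul, abs_of_pos hα, this]
        simpa using abs_sub (θ + α * x) θ
      rw [div_mul_eq_mul_div, le_div_iff₀ hα]
      nlinarith [abs_nonneg θ, abs_nonneg (θ + α * x)]
    have h5 : 0 < 1 + |θ + α * x| := by positivity
    have h6 : |x| ^ 2 ≤ ((1 + |θ|) / α) ^ 2 * (1 + |θ + α * x|) ^ 2 := by
      rw [← mul_pow]
      exact pow_le_pow_left₀ hxa.le h3 2
    rw [inv_le_iff_one_le_mul₀ (by positivity)]
    calc (1:ℝ) = |x| ^ 2 * (|x| ^ 2)⁻¹ := (mul_inv_cancel₀ (by positivity)).symm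
      _ ≤ (((1 + |θ|) / α) ^ 2 * (1 + |θ + α * x|) ^ 2) * (|x| ^ 2)⁻¹ :=
        mul_le_mul_of_nonneg_right h6 (by positivity)
      _ = _ := by ring
  -- the Fourier transform
  set J : ℝ → ℂ := fun r => ∫ t : ℝ, ((g t : ℝ) : ℂ) * cexp (-(2 * Real.pi * r / α * t : ℝ) * I) with hJ
  have hF : ∀ r : ℝ, 𝓕 h r = (α : ℂ)⁻¹ * cexp ((2 * Real.pi * r / α * θ : ℝ) * I) * J r := by
    intro r
    rw [Real.fourier_real_eq_integral_exp_smul]
    have e1 : (fun v : ℝ => cexp ((↑(-2 * Real.pi * v * r) : ℂ) * I) • h v) =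
        fun v : ℝ => (fun u : ℝ => cexp ((2 * Real.pi * r / α * θ : ℝ) * I) *
          (((g u : ℝ) : ℂ) * cexp (-(2 * Real.pi * r / α * u : ℝ) * I))) (θ + α * v) := by
      funext v
      simp only [hh, smul_eq_mul]
      have e2 : cexp ((↑(-2 * Real.pi * v * r) : ℂ) * I) = cexp ((2 * Real.pi * r / α * θ : ℝ) * I) *
          cexp (-(2 * Real.pi * r / α * (θ + α * v) : ℝ) * I) := by
        rw [← Complex.exp_add]
        congr 1
        have hα' : (α : ℂ) ≠ 0 := by exact_mod_cast hα.ne'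
        push_cast
        field_simp
        ring
      rw [e2]; ring
    rw [e1]
    set u : ℝ → ℂ := fun u : ℝ => cexp ((2 * Real.pi * r / α * θ : ℝ) * I) *
          (((g u : ℝ) : ℂ) * cexp (-(2 * Real.pi * r / α * u : ℝ) * I)) with hu
    have e3 : ∫ v : ℝ, u (θ + α * v) = |α⁻¹| • ∫ v : ℝ, u v := by
      have := Measure.integral_comp_mul_left (fun x => u (θ + x)) α
      rw [this, integral_add_left_eq_self u θ]
    rw [e3, hu, integral_const_mul, hJ, abs_of_pos (inv_pos.2 hα)]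
    rw [Complex.real_smul]
    push_cast
    ring
  have hJpos : ∀ m : ℕ, J ((m : ℝ) + 1) = ∫ t : ℝ, ((g t : ℝ) : ℂ) *
      ((Real.exp (2 * Real.pi / α * (m + 1)) : ℝ) : ℂ) ^ (-((t : ℂ) * I)) := by
    intro m
    rw [hJ]
    refine integral_congr_ae (Eventually.of_forall fun t => ?_)
    simp only
    have hne : ((Real.exp (2 * Real.pi / α * (m + 1)) : ℝ) : ℂ) ≠ 0 := by
      exact_mod_cast (Real.exp_pos _).ne'
    rw [Complex.cpow_def_of_ne_zero hne, ← Complex.ofReal_log (Real.exp_pos _).le, Real.log_exp]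
    congr 2
    push_cast
    ring
  have hJneg : ∀ r : ℝ, J (-r) = (starRingEnd ℂ) (J r) := by
    intro r
    rw [hJ]
    simp only
    rw [← integral_conj]
    refine integral_congr_ae (Eventually.of_forall fun t => ?_)
    simp only [map_mul, Complex.conj_ofReal, ← Complex.exp_conj, map_neg, Complex.conj_I]
    congr 2
    push_cast
    ring
  have hJ0 : J 0 = ((∫ t, g t : ℝ) : ℂ) := by
    rw [hJ]
    simp only
    rw [← integral_complex_ofReal]
    refine integral_congr_ae (Eventually.of_forall fun t => ?_)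
    simp
  set S : ℕ → ℝ := fun m => ‖∫ t : ℝ, ((g t : ℝ) : ℂ) *
      ((Real.exp (2 * Real.pi / α * (m + 1)) : ℝ) : ℂ) ^ (-((t : ℂ) * I))‖ with hS
  have hnF : ∀ r : ℝ, ‖𝓕 h r‖ = α⁻¹ * ‖J r‖ := by
    intro r
    rw [hF, norm_mul, norm_mul, Complex.norm_exp_ofReal_mul_I, mul_one, norm_inv, Complex.norm_real,
      Real.norm_eq_abs, abs_of_pos hα]
  have hn1 : ∀ m : ℕ, ‖𝓕 h (((m : ℤ) + 1 : ℤ) : ℝ)‖ = α⁻¹ * S m := by
    intro m
    rw [hnF, hS]
    simp only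
    rw [← hJpos]
    push_cast
    rfl
  have hn2 : ∀ m : ℕ, ‖𝓕 h ((-((m : ℤ) + 1) : ℤ) : ℝ)‖ = α⁻¹ * S m := by
    intro m
    rw [hnF, hS]
    simp only
    rw [← hJpos]
    push_cast
    rw [hJneg, RCLike.norm_conj]
  have hsum1 : Summable (fun m : ℕ => 𝓕 h (((m : ℤ) + 1 : ℤ) : ℝ)) := by
    refine Summable.of_norm ?_
    simp only [hn1]
    exact hs.mul_left _
  have hsum2 : Summable (fun m : ℕ => 𝓕 h ((-((m : ℤ) + 1) : ℤ) : ℝ)) := by
    refine Summable.of_norm ?_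
    simp only [hn2]
    exact hs.mul_left _
  have hsum0 : Summable (fun m : ℕ => 𝓕 h (((m : ℤ) : ℤ) : ℝ)) := by
    rw [← summable_nat_add_iff 1]
    simpa using hsum1
  have hsumZ : Summable (fun m : ℤ => 𝓕 h (m : ℝ)) := Summable.of_nat_of_neg_add_one hsum0 hsum2
  have hP := Real.tsum_eq_tsum_fourier_of_rpow_decay_of_summable hhc (by norm_num : (1:ℝ) < 2) hdec hsumZ 0
  have hsh : Summable (fun n : ℤ => h (n : ℝ)) := by
    refine summable_of_isBigO (Real.summable_abs_int_rpow (by norm_num : (1:ℝ) < 2)) ?_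
    exact hdec.comp_tendsto Int.tendsto_coe_cofinite
  have hsr : Summable (fun n : ℤ => g (θ + α * n)) := by
    have := Complex.hasSum_re hsh.hasSum
    simpa [hh] using this.summable
  refine ⟨hint, hsr, ?_⟩
  have hP2 : ((∑' n : ℤ, g (θ + α * n) : ℝ) : ℂ) = 𝓕 h ((0 : ℤ) : ℝ) +
      ((∑' m : ℕ, 𝓕 h (((m : ℤ) + 1 : ℤ) : ℝ)) + ∑' m : ℕ, 𝓕 h ((-((m : ℤ) + 1) : ℤ) : ℝ)) := by
    have e1 : ∑' n : ℤ, h (0 + n) = ((∑' n : ℤ, g (θ + α * n) : ℝ) : ℂ) := by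
      rw [Complex.ofReal_tsum]
      simp [hh]
    have e2 : ∀ m : ℤ, 𝓕 h (m : ℝ) * fourier m ((0 : ℝ) : UnitAddCircle) = 𝓕 h (m : ℝ) := fun m => by
      rw [fourier_zero_one, mul_one]
    rw [tsum_congr e2] at hP
    rw [← e1, hP]
    exact split_Z (fun m : ℤ => 𝓕 h (m : ℝ)) hsum0 hsum2
  have hα' : (α : ℂ) ≠ 0 := by exact_mod_cast hα.ne'
  have h00 : 𝓕 h ((0 : ℤ) : ℝ) = (α : ℂ)⁻¹ * ((∫ t, g t : ℝ) : ℂ) := by
    rw [hF]
    simp [hJ0]
  have hfin : ((α * (∑' n : ℤ, g (θ + α * n)) - ∫ t, g t : ℝ) : ℂ) =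
      α * ((∑' m : ℕ, 𝓕 h (((m : ℤ) + 1 : ℤ) : ℝ)) + ∑' m : ℕ, 𝓕 h ((-((m : ℤ) + 1) : ℤ) : ℝ)) := by
    rw [Complex.ofReal_sub, Complex.ofReal_mul, hP2, h00]
    field_simp
    ring
  have hb1 : ‖∑' m : ℕ, 𝓕 h (((m : ℤ) + 1 : ℤ) : ℝ)‖ ≤ α⁻¹ * ∑' m, S m := by
    refine (norm_tsum_le_tsum_norm ?_).trans ?_
    · simp only [hn1]; exact hs.mul_left _
    · simp only [hn1]; rw [tsum_mul_left]
  have hb2 : ‖∑' m : ℕ, 𝓕 h ((-((m : ℤ) + 1) : ℤ) : ℝ)‖ ≤ α⁻¹ * ∑' m, S m := by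
    refine (norm_tsum_le_tsum_norm ?_).trans ?_
    · simp only [hn2]; exact hs.mul_left _
    · simp only [hn2]; rw [tsum_mul_left]
  rw [← Real.norm_eq_abs, ← Complex.norm_real, hfin, norm_mul, Complex.norm_real, Real.norm_eq_abs,
    abs_of_pos hα]
  calc α * ‖(∑' m : ℕ, 𝓕 h (((m : ℤ) + 1 : ℤ) : ℝ)) + ∑' m : ℕ, 𝓕 h ((-((m : ℤ) + 1) : ℤ) : ℝ)‖
      ≤ α * (α⁻¹ * ∑' m, S m + α⁻¹ * ∑' m, S m) :=
        mul_le_mul_of_nonneg_left ((norm_add_le _ _).trans (add_le_add hb1 hb2)) hα.le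
    _ = 2 * ∑' m, S m := by field_simp; ring

end PO

open PO in
theorem t_PO (hW : S_W) : S_PO := by
  intro k a b Δ α θ hab hΔ hα hs
  obtain ⟨-, -, -, -, hc, h0, -, -⟩ := hW a b Δ hab hΔ
  obtain ⟨C, hC, hd⟩ := g_decay hW k a b Δ hab hΔ
  refine poisson_abs (fun t => F k t * wr a b Δ t) ((F_cont k).mul hc) hC (fun t => ?_) hα θ hs
  rw [abs_of_nonneg (mul_nonneg (F_nonneg k t) (h0 t))]
  exact hd t

end Pool.Agent.J6H39.SP
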