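import Pool.Agent.J6H39.SP.Stm
import Pool.Agent.Helper276.VdC

/-!
# Project SP (helper39), module SP-VD: the second derivative test with an amplitude. Author: helper92
-/

set_option autoImplicit false

open MeasureTheory Set Filter Topology Complex

namespace Pool.Agent.J6H39.SP

theorem t_VD : S_VD := by
  intro p q l φ φ' φ'' B B' hpq hl h1 h2 h3 h4 h5 h6
  have hφc : ContinuousOn φ (Icc p q) := fun t ht => (h1 t ht).continuousAt.continuousWithinAt
  have hfc : ContinuousOn (fun t => cexp (I * (φ t : ℂ))) (Icc p q) :=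
    (continuousOn_const.mul (Complex.continuous_ofReal.comp_continuousOn hφc)).cexp
  obtain ⟨g, hgc, hgf⟩ : ∃ g : ℝ → ℂ, Continuous g ∧
      ∀ t ∈ Icc p q, g t = cexp (I * (φ t : ℂ)) := by
    refine ⟨Set.IccExtend hpq (fun t : Icc p q => cexp (I * (φ t : ℂ))), ?_, ?_⟩
    · exact (continuousOn_iff_continuous_domRestrict.1 hfc).Icc_extend'
    · intro t ht
      rw [IccExtend_of_mem hpq _ ht]
  set E : ℝ → ℂ := fun t => ∫ s in p..t, g s with hEdef
  have hE : ∀ t, HasDerivAt E (g t) t := fun t =>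
    intervalIntegral.integral_hasDerivAt_right (hgc.intervalIntegrable _ _)
      (hgc.stronglyMeasurableAtFilter _ _) hgc.continuousAt
  have hEc : Continuous E := continuous_iff_continuousAt.2 fun t => (hE t).continuousAt
  have hs : 0 < Real.sqrt l := Real.sqrt_pos.2 hl
  have hEb : ∀ t ∈ Icc p q, ‖E t‖ ≤ 8 / Real.sqrt l := by
    intro t ht
    have e1 : E t = ∫ s in p..t, cexp (I * (φ s : ℂ)) := by
      refine intervalIntegral.integral_congr fun s hs => ?_
      rw [uIcc_of_le ht.1] at hs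
      exact hgf s ⟨hs.1, hs.2.trans ht.2⟩
    rw [e1]
    have hsub : Icc p t ⊆ Icc p q := Icc_subset_Icc le_rfl ht.2
    exact Pool.Agent.Helper276.VdC.second_test_pos ht.1 hl (fun x hx => h1 x (hsub hx))
      (fun x hx => h2 x (hsub hx)) (h4.mono hsub) (fun x hx => h3 x (hsub hx))
  have hB'i : IntervalIntegrable B' volume p q := h6.intervalIntegrable_of_Icc hpq
  have hparts := intervalIntegral.integral_mul_deriv_eq_deriv_mul (u := B) (v := E) (u' := B')
    (v' := g) (a := p) (b := q) (fun x hx => h5 x (by rwa [uIcc_of_le hpq] at hx))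
    (fun x _ => hE x) hB'i (hgc.intervalIntegrable _ _)
  have e0 : E p = 0 := by simp [hEdef]
  have e2 : ∫ t in p..q, B t * cexp (I * (φ t : ℂ)) = ∫ t in p..q, B t * g t := by
    refine intervalIntegral.integral_congr fun s hs => ?_
    rw [uIcc_of_le hpq] at hs
    show B s * cexp (I * (φ s : ℂ)) = B s * g s
    rw [hgf s hs]
  rw [e2, hparts, e0, mul_zero, sub_zero]
  have hn1 : ‖B q * E q‖ ≤ 8 / Real.sqrt l * ‖B q‖ := by
    rw [norm_mul, mul_comm]
    exact mul_le_mul_of_nonneg_right (hEb q (right_mem_Icc.2 hpq)) (norm_nonneg _)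
  have hB'n : IntervalIntegrable (fun t => ‖B' t‖) volume p q := hB'i.norm
  have hn2 : ‖∫ t in p..q, B' t * E t‖ ≤ 8 / Real.sqrt l * ∫ t in p..q, ‖B' t‖ := by
    rw [← intervalIntegral.integral_const_mul]
    refine intervalIntegral.norm_integral_le_of_norm_le hpq ?_ (hB'n.const_mul _)
    refine Eventually.of_forall fun t ht => ?_
    rw [norm_mul, mul_comm]
    exact mul_le_mul_of_nonneg_right (hEb t ⟨ht.1.le, ht.2⟩) (norm_nonneg _)
  have hI0 : 0 ≤ ∫ t in p..q, ‖B' t‖ :=
    intervalIntegral.integral_nonneg hpq fun t _ => norm_nonneg _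
  calc ‖B q * E q - ∫ t in p..q, B' t * E t‖
      ≤ ‖B q * E q‖ + ‖∫ t in p..q, B' t * E t‖ := norm_sub_le _ _
    _ ≤ 8 / Real.sqrt l * (‖B q‖ + ∫ t in p..q, ‖B' t‖) := by
        rw [mul_add]; exact add_le_add hn1 hn2
    _ ≤ 10 / Real.sqrt l * (‖B q‖ + ∫ t in p..q, ‖B' t‖) := by
        refine mul_le_mul_of_nonneg_right ?_ (add_nonneg (norm_nonneg _) hI0)
        exact div_le_div_of_nonneg_right (by norm_num) hs.le

end Pool.Agent.J6H39.SP
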