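import Pool.Agent.J6H39.SP.Stm

/-! # SP-W: facts on the window (helper58) -/

set_option autoImplicit false

open MeasureTheory Set Filter Topology Complex

namespace Pool.Agent.J6H39.SP

/-- the Gaussian of width `Δ` -/
lemma gs_eq (Δ : ℝ) (w : ℝ) : Real.exp (-(w / Δ) ^ 2) = Real.exp (-(Δ ^ 2)⁻¹ * w ^ 2) := by
  congr 1
  rw [div_pow, div_eq_mul_inv]
  ring

lemma gs_integrable {Δ : ℝ} (hΔ : 0 < Δ) : Integrable (fun w : ℝ => Real.exp (-(w / Δ) ^ 2)) := by
  simp_rw [gs_eq]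
  exact integrable_exp_neg_mul_sq (by positivity)

lemma gs_integral {Δ : ℝ} (hΔ : 0 < Δ) : ∫ w : ℝ, Real.exp (-(w / Δ) ^ 2) = Δ * Real.sqrt Real.pi := by
  simp_rw [gs_eq]
  rw [integral_gaussian]
  rw [div_inv_eq_mul, mul_comm, Real.sqrt_mul (by positivity), Real.sqrt_sq hΔ.le]

lemma gs_integrable' {Δ : ℝ} (hΔ : 0 < Δ) (c : ℝ) :
    Integrable (fun u : ℝ => Real.exp (-((c - u) / Δ) ^ 2)) :=
  (gs_integrable hΔ).comp_sub_left c

lemma gs_integral' {Δ : ℝ} (hΔ : 0 < Δ) (c : ℝ) :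
    ∫ u : ℝ, Real.exp (-((c - u) / Δ) ^ 2) = Δ * Real.sqrt Real.pi := by
  rw [integral_sub_left_eq_self (fun w : ℝ => Real.exp (-(w / Δ) ^ 2)) volume c, gs_integral hΔ]

lemma gs_part {Δ : ℝ} (hΔ : 0 < Δ) (c : ℝ) (s : Set ℝ) :
    ∫ u in s, Real.exp (-((c - u) / Δ) ^ 2) ≤ Δ * Real.sqrt Real.pi := by
  rw [← gs_integral' hΔ c]
  exact setIntegral_le_integral (gs_integrable' hΔ c) (Eventually.of_forall fun u => (Real.exp_pos _).le)

lemma gs_cont (Δ t : ℝ) : Continuous (fun u : ℝ => Real.exp (-((t - u) / Δ) ^ 2)) := by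
  fun_prop

/-- the bound for the window -/
lemma wr_le {a b Δ : ℝ} (hab : a ≤ b) (hΔ : 0 < Δ) (t : ℝ) :
    wr a b Δ t ≤ Real.exp (-(ds a b t / Δ) ^ 2) := by
  have hπ : 0 < Δ * Real.sqrt Real.pi := by positivity
  obtain ⟨c, hc⟩ : ∃ c, c = max a (min t b) := ⟨_, rfl⟩
  have h1 : ds a b t ^ 2 = (t - c) ^ 2 ∧ ∀ u ∈ Icc a b, 0 ≤ (t - c) * (c - u) := by
    rw [hc]
    unfold ds
    rcases le_total t a with h | h
    · have e1 : min t b = t := min_eq_left (h.trans hab)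
      rw [e1, max_eq_left h, max_eq_left (by linarith : t - b ≤ a - t), max_eq_right (by linarith)]
      refine ⟨by ring, fun u hu => ?_⟩
      exact mul_nonneg_of_nonpos_of_nonpos (by linarith) (by linarith [hu.1])
    · rcases le_total t b with h' | h'
      · rw [min_eq_left h', max_eq_right h, max_eq_left (max_le (by linarith) (by linarith))]
        refine ⟨by ring, fun u hu => by simp⟩
      · rw [min_eq_right h', max_eq_right hab, max_eq_right (by linarith : a - t ≤ t - b),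
          max_eq_right (by linarith)]
        refine ⟨by ring, fun u hu => ?_⟩
        exact mul_nonneg (by linarith) (by linarith [hu.2])
  obtain ⟨h1, h2⟩ := h1
  have h3 : ∫ u in a..b, Real.exp (-((t - u) / Δ) ^ 2) ≤
      ∫ u in a..b, Real.exp (-(ds a b t / Δ) ^ 2) * Real.exp (-((c - u) / Δ) ^ 2) := by
    apply intervalIntegral.integral_mono_on hab ((gs_cont Δ t).intervalIntegrable _ _)
      (((gs_cont Δ c).const_mul _).intervalIntegrable _ _)
    intro u hu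
    rw [← Real.exp_add]
    apply Real.exp_le_exp.2
    have h4 := h2 u hu
    have h5 : (ds a b t / Δ) ^ 2 + ((c - u) / Δ) ^ 2 ≤ ((t - u) / Δ) ^ 2 := by
      rw [div_pow, div_pow, div_pow, ← add_div]
      apply div_le_div_of_nonneg_right _ (by positivity)
      rw [h1]
      nlinarith
    linarith
  have h6 : ∫ u in a..b, Real.exp (-(ds a b t / Δ) ^ 2) * Real.exp (-((c - u) / Δ) ^ 2) ≤
      Real.exp (-(ds a b t / Δ) ^ 2) * (Δ * Real.sqrt Real.pi) := by
    rw [intervalIntegral.integral_const_mul, intervalIntegral.integral_of_le hab]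
    exact mul_le_mul_of_nonneg_left (gs_part hΔ c _) (Real.exp_pos _).le
  unfold wr
  rw [inv_mul_le_iff₀ hπ]
  linarith

lemma wr_nonneg {a b Δ : ℝ} (hab : a ≤ b) (hΔ : 0 < Δ) (t : ℝ) : 0 ≤ wr a b Δ t := by
  unfold wr
  exact mul_nonneg (by positivity) (intervalIntegral.integral_nonneg hab fun u _ => (Real.exp_pos _).le)

lemma gs_half {Δ : ℝ} (hΔ : 0 < Δ) : ∫ w in Ioi (0 : ℝ), Real.exp (-(w / Δ) ^ 2) =
    Δ * Real.sqrt Real.pi / 2 := by
  simp_rw [gs_eq]
  rw [integral_gaussian_Ioi]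
  rw [div_inv_eq_mul, mul_comm Real.pi, Real.sqrt_mul (by positivity), Real.sqrt_sq hΔ.le]

/-- the tail of a Gaussian -/
lemma gs_tail {Δ : ℝ} (hΔ : 0 < Δ) {D : ℝ} (hD : 0 ≤ D) :
    ∫ w in Ioi D, Real.exp (-(w / Δ) ^ 2) ≤ Real.exp (-(D / Δ) ^ 2) * (Δ * Real.sqrt Real.pi / 2) := by
  have h1 : ∫ w in Ioi D, Real.exp (-(w / Δ) ^ 2) =
      ∫ w in Ioi (0 : ℝ), Real.exp (-((w + D) / Δ) ^ 2) := by
    have h := (measurePreserving_add_right (volume : Measure ℝ) D).setIntegral_preimage_emb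
      (measurableEmbedding_addRight D) (fun w : ℝ => Real.exp (-(w / Δ) ^ 2)) (Ioi D)
    rw [preimage_add_const_Ioi, sub_self] at h
    exact h.symm
  rw [h1, ← gs_half hΔ, ← integral_const_mul]
  apply setIntegral_mono_on
  · exact ((gs_integrable hΔ).comp_add_right D).integrableOn
  · exact ((gs_integrable hΔ).const_mul _).integrableOn
  · exact measurableSet_Ioi
  · intro w hw
    have hw0 : 0 < w := hw
    rw [← Real.exp_add]
    apply Real.exp_le_exp.2
    have h5 : (D / Δ) ^ 2 + (w / Δ) ^ 2 ≤ ((w + D) / Δ) ^ 2 := by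
      rw [div_pow, div_pow, div_pow, ← add_div]
      apply div_le_div_of_nonneg_right _ (by positivity)
      nlinarith [mul_nonneg hD hw0.le]
    linarith

lemma wr_ge {a b Δ : ℝ} (hΔ : 0 < Δ) {t D : ℝ} (hD : 0 ≤ D) (h1 : a + D ≤ t)
    (h2 : t ≤ b - D) : 1 - Real.exp (-(D / Δ) ^ 2) ≤ wr a b Δ t := by
  have hπ : 0 < Δ * Real.sqrt Real.pi := by positivity
  have hab : a ≤ b := by linarith
  -- the integral as an integral over the line minus tails
  have e1 : ∫ u in a..b, Real.exp (-((t - u) / Δ) ^ 2) =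
      ∫ w in (t - b)..(t - a), Real.exp (-(w / Δ) ^ 2) := by
    rw [intervalIntegral.integral_comp_sub_left (fun w : ℝ => Real.exp (-(w / Δ) ^ 2)) t]
  have hi := gs_integrable hΔ
  have e2 : (∫ w in Iic (t - b), Real.exp (-(w / Δ) ^ 2)) +
      (∫ w in (t - b)..(t - a), Real.exp (-(w / Δ) ^ 2)) =
      ∫ w in Iic (t - a), Real.exp (-(w / Δ) ^ 2) := by
    have := intervalIntegral.integral_Iic_sub_Iic (μ := volume)
      (f := fun w : ℝ => Real.exp (-(w / Δ) ^ 2)) (a := t - b) (b := t - a) hi.integrableOn hi.integrableOn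
    linarith
  have e3 : (∫ w in Iic (t - a), Real.exp (-(w / Δ) ^ 2)) +
      (∫ w in Ioi (t - a), Real.exp (-(w / Δ) ^ 2)) = Δ * Real.sqrt Real.pi := by
    rw [← gs_integral hΔ]
    exact intervalIntegral.integral_Iic_add_Ioi hi.integrableOn hi.integrableOn
  have e4 : (∫ w in Iic (t - b), Real.exp (-(w / Δ) ^ 2)) =
      ∫ w in Ioi (b - t), Real.exp (-(w / Δ) ^ 2) := by
    have := integral_comp_neg_Iic (t - b) (fun w : ℝ => Real.exp (-(w / Δ) ^ 2))
    rw [neg_sub] at this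
    rw [← this]
    congr 1
    funext w
    rw [neg_div, neg_sq]
  have k1 : ∀ x : ℝ, D ≤ x → ∫ w in Ioi x, Real.exp (-(w / Δ) ^ 2) ≤
      Real.exp (-(D / Δ) ^ 2) * (Δ * Real.sqrt Real.pi / 2) := by
    intro x hx
    refine le_trans ?_ (gs_tail hΔ hD)
    exact setIntegral_mono_set hi.integrableOn
      (Eventually.of_forall fun w => (Real.exp_pos _).le) (Ioi_subset_Ioi hx).eventuallyLE
  have k2 := k1 (t - a) (by linarith)
  have k3 := k1 (b - t) (by linarith)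
  unfold wr
  rw [e1, le_inv_mul_iff₀ hπ]
  linarith

lemma wd_real (a b Δ t : ℝ) : Wd a b Δ (t : ℂ) = (wr a b Δ t : ℂ) := by
  unfold Wd wr
  push_cast
  congr 1
  rw [← intervalIntegral.integral_ofReal]
  apply intervalIntegral.integral_congr
  intro u _
  push_cast
  rfl

lemma wd_norm {a b Δ : ℝ} (hab : a ≤ b) (hΔ : 1 ≤ Δ) (t y : ℝ) (hy : |y| ≤ 2) :
    ‖Wd a b Δ ((t : ℂ) + (y : ℂ) * I)‖ ≤ Real.exp 4 * Real.exp (-(ds a b t / Δ) ^ 2) := by
  have hΔ0 : 0 < Δ := by linarith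
  have hπ : 0 < Δ * Real.sqrt Real.pi := by positivity
  have h1 : ‖∫ u in a..b, cexp (-((((t : ℂ) + (y : ℂ) * I) - (u : ℂ)) / (Δ : ℂ)) ^ 2)‖ ≤
      ∫ u in a..b, Real.exp 4 * Real.exp (-((t - u) / Δ) ^ 2) := by
    refine intervalIntegral.norm_integral_le_of_norm_le hab ?_
      (((gs_cont Δ t).const_mul _).intervalIntegrable _ _)
    refine Eventually.of_forall fun u _ => ?_
    rw [Complex.norm_exp, ← Real.exp_add]
    apply Real.exp_le_exp.2
    have e1 : ((((t : ℂ) + (y : ℂ) * I) - (u : ℂ)) / (Δ : ℂ)) ^ 2 =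
        (((((t - u) ^ 2 - y ^ 2) / Δ ^ 2 : ℝ)) : ℂ) + (((2 * (t - u) * y / Δ ^ 2 : ℝ)) : ℂ) * I := by
      have hc : (Δ : ℂ) ≠ 0 := by exact_mod_cast hΔ0.ne'
      push_cast
      field_simp
      ring_nf
      rw [I_sq]
      ring
    rw [neg_re, e1, add_re, ofReal_re, mul_re, ofReal_re, ofReal_im, I_re, I_im]
    have h2 : y ^ 2 / Δ ^ 2 ≤ 4 := by
      rw [div_le_iff₀ (by positivity)]
      have h3 : y ^ 2 ≤ 4 := by
        rw [← sq_abs]
        nlinarith [abs_nonneg y]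
      nlinarith
    rw [div_pow, sub_div]
    linarith
  rw [intervalIntegral.integral_const_mul] at h1
  have h2 := wr_le hab hΔ0 t
  unfold wr at h2
  rw [inv_mul_le_iff₀ hπ] at h2
  unfold Wd
  rw [norm_mul, norm_inv, norm_real, Real.norm_of_nonneg hπ.le, inv_mul_le_iff₀ hπ]
  refine h1.trans ?_
  calc Real.exp 4 * ∫ u in a..b, Real.exp (-((t - u) / Δ) ^ 2)
      ≤ Real.exp 4 * (Δ * Real.sqrt Real.pi * Real.exp (-(ds a b t / Δ) ^ 2)) :=
        mul_le_mul_of_nonneg_left h2 (Real.exp_pos _).le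
    _ = Δ * Real.sqrt Real.pi * (Real.exp 4 * Real.exp (-(ds a b t / Δ) ^ 2)) := by ring

lemma wd_deriv (a b Δ : ℝ) (z : ℂ) : HasDerivAt (Wd a b Δ) (((Δ * Real.sqrt Real.pi : ℝ) : ℂ)⁻¹ *
    (cexp (-((z - (a : ℂ)) / (Δ : ℂ)) ^ 2) - cexp (-((z - (b : ℂ)) / (Δ : ℂ)) ^ 2))) z := by
  have hG : Differentiable ℂ (fun w : ℂ => cexp (-(w / (Δ : ℂ)) ^ 2)) := by fun_prop
  obtain ⟨H, hH⟩ := hG.isExactOn_univ
  have hH' : ∀ w : ℂ, HasDerivAt H (cexp (-(w / (Δ : ℂ)) ^ 2)) w := fun w => hH w (mem_univ w)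
  have e1 : Wd a b Δ = fun z => ((Δ * Real.sqrt Real.pi : ℝ) : ℂ)⁻¹ * (H (z - a) - H (z - b)) := by
    funext z
    unfold Wd
    congr 1
    have h1 : ∀ u ∈ uIcc a b, HasDerivAt (fun u : ℝ => -H (z - (u : ℂ)))
        (cexp (-((z - (u : ℂ)) / (Δ : ℂ)) ^ 2)) u := by
      intro u _
      have h2 : HasDerivAt (fun u : ℝ => z - (u : ℂ)) (-1) u := by
        have := (hasDerivAt_id u).ofReal_comp.const_sub z
        simpa using this
      have h3 := ((hH' (z - u)).comp u h2).neg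
      rw [mul_neg_one, neg_neg] at h3
      exact h3
    rw [intervalIntegral.integral_eq_sub_of_hasDerivAt h1 (Continuous.intervalIntegrable (by fun_prop) _ _)]
    ring
  rw [e1]
  have h4 : ∀ c : ℝ, HasDerivAt (fun z : ℂ => H (z - c)) (cexp (-((z - (c : ℂ)) / (Δ : ℂ)) ^ 2)) z := by
    intro c
    exact (hH' (z - c)).comp_sub_const z c
  exact ((h4 a).sub (h4 b)).const_mul _

/-- **SP-W** -/
theorem t_W : S_W := by
  intro a b Δ hab hΔ
  have hΔ0 : 0 < Δ := by linarith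
  refine ⟨fun z => (wd_deriv a b Δ z).differentiableAt, wd_real a b Δ, fun t y hy => wd_norm hab hΔ t y hy,
    fun z => (wd_deriv a b Δ z).deriv, ?_, wr_nonneg hab hΔ0, wr_le hab hΔ0, fun t D hD h1 h2 => wr_ge hΔ0 hD h1 h2⟩
  have h1 : Continuous (fun t : ℝ => (Wd a b Δ (t : ℂ)).re) := by
    have h2 : Continuous (Wd a b Δ) :=
      (show Differentiable ℂ (Wd a b Δ) from fun z => (wd_deriv a b Δ z).differentiableAt).continuous
    exact continuous_re.comp (h2.comp continuous_ofReal)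
  convert h1 using 1
  funext t
  rw [wd_real, ofReal_re]

end Pool.Agent.J6H39.SP
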