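import Pool.Agent.J6H39.SP.SM
import Pool.Agent.J6H39.SP.W
import Pool.Agent.J6H39.SP.VD
import Pool.Agent.J6H39.SP.PH
import Pool.Agent.J6H39.SP.CT
import Pool.Agent.J6H39.SP.PO
import Pool.Agent.J6H39.SP.MAIN
import Pool.Agent.J6H39.SP.EQ2
import Pool.Agent.J6H39.SP.EQ3
import Pool.Agent.Results.MP_f9aece_nt.SharpNearFourthMoment

/-! Project SP: assembly, and the fourth moment. -/

set_option autoImplicit false

open MeasureTheory Set Filter Topology Complex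

namespace Pool.Agent.J6H39.SP

open Pool.Agent.J6H39.CG (zh)

theorem main : S_MAIN := t_MAIN t_W (t_SM (t_FT t_W (t_PH t_W t_VD) (t_CT t_W)) (t_PO t_W))

/-- Ingham's asymptotic formula (from the start theorem `SharpNearFourthMoment`) -/
theorem fourth : Tendsto (fun T : ℝ => (∫ t in (0:ℝ)..T, F 2 t) / (T * Real.log T ^ (2 ^ 2))) atTop
    (𝓝 (1 / (2 * Real.pi ^ 2))) := by
  rw [Metric.tendsto_nhds]
  intro ε hε
  obtain ⟨δ, hδ, h1, -⟩ := Pool.Agent.Results.MP_f9aece_nt.SharpNearFourthMoment.result (ε / 2) (by positivity)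
  filter_upwards [h1 0, eventually_gt_atTop 1] with T h2 hT
  have hT0 : 0 < T := by linarith
  have hL : 0 < Real.log T := Real.log_pos hT
  have e1 : ∫ u in (0:ℝ)..1, ‖riemannZeta (1 / 2 + ((0:ℝ) : ℂ) * Complex.I + ((u : ℂ) * (T : ℂ)) * Complex.I)‖ ^ (4:ℝ) =
      (∫ t in (0:ℝ)..T, F 2 t) / T := by
    have e2 : ∀ u : ℝ, ‖riemannZeta (1 / 2 + ((0:ℝ) : ℂ) * Complex.I + ((u : ℂ) * (T : ℂ)) * Complex.I)‖ ^ (4:ℝ) =
        F 2 (u * T) := by
      intro u
      rw [F, zh]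
      have : (1 / 2 + ((0:ℝ) : ℂ) * Complex.I + ((u : ℂ) * (T : ℂ)) * Complex.I) =
          1 / 2 + ((u * T : ℝ) : ℂ) * I := by
        push_cast
        ring
      rw [this]
      norm_cast
    simp only [e2]
    rw [intervalIntegral.integral_comp_mul_right (fun t => F 2 t) hT0.ne']
    simp only [zero_mul, one_mul, smul_eq_mul]
    rw [div_eq_inv_mul]
  have e3 : Real.exp ((4:ℝ) ^ 2 / 4 * Real.log (Real.log T)) = Real.log T ^ (2 ^ 2) := by
    have : (4:ℝ) ^ 2 / 4 * Real.log (Real.log T) = ((2 ^ 2 : ℕ) : ℝ) * Real.log (Real.log T) := by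
      push_cast
      ring
    rw [this, Real.exp_nat_mul, Real.exp_log hL]
  have h3 := h2.1 4 (by linarith) le_rfl
  have h4 := h2.2 4 le_rfl (by linarith)
  rw [e3] at h3 h4
  rw [e1] at h3 h4
  have hp : 0 < Real.log T ^ (2 ^ 2) := by positivity
  rw [Real.dist_eq]
  have e5 : (∫ t in (0:ℝ)..T, F 2 t) / (T * Real.log T ^ (2 ^ 2)) = (∫ t in (0:ℝ)..T, F 2 t) / T / Real.log T ^ (2 ^ 2) := by
    rw [div_div]
  rw [e5, abs_sub_lt_iff]
  have h5 : (∫ t in (0:ℝ)..T, F 2 t) / T / Real.log T ^ (2 ^ 2) ≤ 1 / (2 * Real.pi ^ 2) + ε / 2 := by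
    rw [div_le_iff₀ hp]
    exact h3
  have h6 : 1 / (2 * Real.pi ^ 2) - ε / 2 ≤ (∫ t in (0:ℝ)..T, F 2 t) / T / Real.log T ^ (2 ^ 2) := by
    rw [le_div_iff₀ hp]
    exact h4
  constructor <;> linarith

/-- the discrete fourth moment -/
theorem fourth_discrete {x : ℝ} (hx : 1 < x) : Tendsto (fun T : ℝ => Ds 2 0 T (st x T) 0 / (T * Real.log T ^ (2 ^ 2))) atTop
    (𝓝 (1 / (2 * Real.pi ^ 2))) :=
  (t_EQ3 main 2 (by norm_num) x (by linarith) (by push_cast; linarith) _).1 fourth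

end Pool.Agent.J6H39.SP
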