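import Pool.Agent.J6H39.SP.FT

/-! Project SP: the smoothed sampling theorem (`S_SM`), finite sums (`S_DS`). -/

set_option autoImplicit false

open MeasureTheory Set Filter Topology Complex

namespace Pool.Agent.J6H39.SP

open Pool.Agent.J6H39.CG (zh)

/-- **SP-SM** -/
theorem t_SM (hFT : S_FT) (hPO : S_PO) : S_SM := by
  intro k hk x ε hx hε
  set η : ℝ := min (1 / 4) (ε / (1 + x)) with hη
  have hx1 : 0 < 1 + x := by linarith
  have hη0 : 0 < η := lt_min (by norm_num) (by positivity)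
  have hη1 : η ≤ 1 / 4 := min_le_left _ _
  have hη2 : η * (1 + x) ≤ ε := by
    have h1 : η ≤ ε / (1 + x) := min_le_right _ _
    rwa [le_div_iff₀ hx1] at h1
  obtain ⟨C, hC, hF⟩ := hFT k hk η hη0
  set ρ : ℝ := Real.exp (-(x * Real.log 2 / 4)) with hρ
  have hl2 : 0 < Real.log 2 := Real.log_pos (by norm_num)
  have hρ0 : 0 < ρ := Real.exp_pos _
  have hρ1 : ρ < 1 := by
    rw [hρ, Real.exp_lt_one_iff]
    have : 0 < x * Real.log 2 / 4 := by positivity
    linarith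
  refine ⟨2 * (C / (1 - ρ)), by have := sub_pos.2 hρ1; positivity, ?_⟩
  intro T hT a b Δ α θ ha hab hb hΔ hΔ2 hα hα2
  have hT0 : 0 < T := by linarith
  have hT1 : 1 ≤ T := by linarith
  have hlT : 0 < Real.log T := Real.log_pos (by linarith)
  set L : ℝ := 2 * Real.pi / α with hL
  have hL1 : x * Real.log T ≤ L := by
    rw [hL, le_div_iff₀ hα]
    have h1 : α * (x * Real.log T) ≤ 2 * Real.pi := (le_div_iff₀ (by positivity)).1 hα2
    linarith
  have hL0 : 0 < L := lt_of_lt_of_le (by positivity) hL1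
  set κ : ℝ := 1 / 2 - η with hκ
  have hκ0 : 1 / 4 ≤ κ := by linarith
  have hbd : ∀ m : ℕ, ‖∫ t : ℝ, ((F k t * wr a b Δ t : ℝ) : ℂ) *
      ((Real.exp (2 * Real.pi / α * (m + 1)) : ℝ) : ℂ) ^ (-((t : ℂ) * I))‖ ≤
      C * T ^ (((k : ℝ) + 1) / 2 + η) * Real.exp (-(L * κ)) * ρ ^ m := by
    intro m
    have hm : (1 : ℝ) ≤ Real.exp (2 * Real.pi / α * (m + 1)) := Real.one_le_exp (by positivity)
    refine (hF T hT a b Δ ha hab hb hΔ hΔ2 _ hm).trans ?_
    have h1 : Real.exp (2 * Real.pi / α * (m + 1)) ^ (-(1 / 2) + η) ≤ Real.exp (-(L * κ)) * ρ ^ m := by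
      rw [← Real.exp_mul, hρ, ← Real.exp_nat_mul, ← Real.exp_add, Real.exp_le_exp, ← hL]
      have h2 : x * Real.log 2 / 4 ≤ L * κ := by
        have h3 : Real.log 2 ≤ Real.log T := Real.log_le_log (by norm_num) hT
        calc x * Real.log 2 / 4 = x * Real.log 2 * (1 / 4) := by ring
          _ ≤ x * Real.log T * κ := by gcongr
          _ ≤ L * κ := by gcongr
      have h4 : (0 : ℝ) ≤ m := Nat.cast_nonneg m
      have h5 : L * (m + 1) * (-(1 / 2) + η) = -(L * κ) + (m : ℝ) * (-(L * κ)) := by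
        rw [hκ]
        ring
      rw [h5]
      have h6 : (m : ℝ) * (-(L * κ)) ≤ (m : ℝ) * (-(x * Real.log 2 / 4)) := by
        apply mul_le_mul_of_nonneg_left _ h4
        linarith
      linarith
    calc C * T ^ (((k : ℝ) + 1) / 2 + η) * Real.exp (2 * Real.pi / α * (m + 1)) ^ (-(1 / 2) + η) ≤
        C * T ^ (((k : ℝ) + 1) / 2 + η) * (Real.exp (-(L * κ)) * ρ ^ m) := by gcongr
      _ = _ := by ring
  have hgs : Summable (fun m : ℕ => C * T ^ (((k : ℝ) + 1) / 2 + η) * Real.exp (-(L * κ)) * ρ ^ m) :=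
    (summable_geometric_of_lt_one hρ0.le hρ1).mul_left _
  have hsum : Summable (fun m : ℕ => ‖∫ t : ℝ, ((F k t * wr a b Δ t : ℝ) : ℂ) *
      ((Real.exp (2 * Real.pi / α * (m + 1)) : ℝ) : ℂ) ^ (-((t : ℂ) * I))‖) :=
    Summable.of_nonneg_of_le (fun _ => norm_nonneg _) hbd hgs
  obtain ⟨h1, h2, h3⟩ := hPO k a b Δ α θ hab hΔ hα hsum
  refine ⟨h1, h2, h3.trans ?_⟩
  have h4 := hsum.tsum_le_tsum hbd hgs
  rw [tsum_mul_left, tsum_geometric_of_lt_one hρ0.le hρ1] at h4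
  have h5 : Real.exp (-(L * κ)) ≤ T ^ (-(x / 2) + x * η) := by
    rw [Real.rpow_def_of_pos hT0, Real.exp_le_exp]
    have h6 : x * Real.log T * κ ≤ L * κ := by gcongr
    have h7 : Real.log T * (-(x / 2) + x * η) = -(x * Real.log T * κ) := by
      rw [hκ]
      ring
    rw [h7]
    linarith
  have h8 : T ^ (((k : ℝ) + 1) / 2 + η) * T ^ (-(x / 2) + x * η) ≤ T ^ (((k : ℝ) + 1 - x) / 2 + ε) := by
    rw [← Real.rpow_add hT0]
    apply Real.rpow_le_rpow_of_exponent_le hT1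
    nlinarith
  have h9 : 0 < 1 - ρ := sub_pos.2 hρ1
  calc 2 * ∑' m : ℕ, ‖∫ t : ℝ, ((F k t * wr a b Δ t : ℝ) : ℂ) *
      ((Real.exp (2 * Real.pi / α * (m + 1)) : ℝ) : ℂ) ^ (-((t : ℂ) * I))‖ ≤
      2 * (C * T ^ (((k : ℝ) + 1) / 2 + η) * Real.exp (-(L * κ)) * (1 - ρ)⁻¹) := by gcongr
    _ ≤ 2 * (C * T ^ (((k : ℝ) + 1) / 2 + η) * T ^ (-(x / 2) + x * η) * (1 - ρ)⁻¹) := by gcongr
    _ = 2 * (C / (1 - ρ)) * (T ^ (((k : ℝ) + 1) / 2 + η) * T ^ (-(x / 2) + x * η)) := by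
      rw [div_eq_mul_inv]
      ring
    _ ≤ _ := by gcongr

/-- **SP-DS** -/
theorem t_DS : S_DS := by
  intro k T α hα hT
  rw [Ds]
  congr 1
  classical
  set e : ℕ → ℤ := fun n => (n : ℤ) with he
  have hinj : Function.Injective e := fun a b h => by simpa [he] using h
  have hsupp : Function.support (fun n : ℤ => if 0 < 0 + α * n ∧ 0 + α * n ≤ T then F k (0 + α * n) else 0) ⊆
      (Finset.image e (Finset.Icc 1 ⌊T / α⌋₊) : Finset ℤ) := by
    intro n hn
    rw [Function.mem_support] at hn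
    have h1 : 0 < 0 + α * n ∧ 0 + α * n ≤ T := by
      by_contra h
      exact hn (if_neg h)
    rw [zero_add] at h1
    have h2 : (0 : ℝ) < n := by
      by_contra h
      push Not at h
      have := mul_nonpos_of_nonneg_of_nonpos hα.le h
      linarith [h1.1]
    have h3 : 0 < n := by exact_mod_cast h2
    obtain ⟨m, rfl⟩ := Int.eq_ofNat_of_zero_le h3.le
    simp only [Finset.coe_image, Set.mem_image, Finset.coe_Icc, Set.mem_Icc]
    refine ⟨m, ⟨by exact_mod_cast h3, ?_⟩, rfl⟩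
    rw [Nat.le_floor_iff (by positivity), le_div_iff₀ hα]
    have := h1.2
    push_cast at this
    linarith
  rw [tsum_eq_sum (s := Finset.image e (Finset.Icc 1 ⌊T / α⌋₊)) (fun n hn => by
    by_contra h
    exact hn (by exact_mod_cast hsupp h)), Finset.sum_image (fun a _ b _ h => hinj h)]
  refine Finset.sum_congr rfl fun n hn => ?_
  rw [Finset.mem_Icc] at hn
  have hn1 : (1 : ℝ) ≤ n := by exact_mod_cast hn.1
  have h2 : (n : ℝ) ≤ T / α := (Nat.le_floor_iff (by positivity)).1 hn.2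
  rw [le_div_iff₀ hα] at h2
  have h3 : ((e n : ℤ) : ℝ) = n := by simp [he]
  rw [h3, zero_add, if_pos ⟨by positivity, by linarith⟩, F]

end Pool.Agent.J6H39.SP
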