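import Pool.Agent.J6H39.CG.Ker

/-!
# Project SP (MP_07318d_nt): sampling theorem for the moments of zeta. Statements.

`F k t = |ζ(1/2+it)|^(2k)`. For `x > 0` and every step `0 < α ≤ 2π/(x log T)`, offset `θ` and `0 ≤ a ≤ b ≤ T`,
`∫_{a+T^ε}^{b-T^ε} F - C T^((k+1-x)/2+ε) ≤ α ∑_{a < θ+αn ≤ b} F(θ+αn) ≤ ∫_{a-T^ε}^{b+T^ε} F + C T^((k+1-x)/2+ε)`.
So discrete moments with steps `c/log T`, `c < 2π/(k-1)`, equal the continuous ones up to a power of `T`, and for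
`c ≤ 2π/k` up to `T^(1/2+ε)`: the moment conjecture with its square root remainder is equivalent to the discrete one.

Proof: Poisson summation, contour shift to `Re s = 1+δ`, the functional equation `ζ(1-s) = XX(s) ζ(s)` and the second
derivative test. Every statement is a `Prop` with its proof in the docstring.
-/

set_option autoImplicit false

open MeasureTheory Set Filter Topology Complex

namespace Pool.Agent.J6H39.SP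

open Pool.Agent.J6H39.CG (zh)
open H345 (XX)

/-- `|ζ(1/2+it)|^(2k)` -/
noncomputable def F (k : ℕ) (t : ℝ) : ℝ := ‖zh t‖ ^ (2 * k)

/-- the window: the convolution of the indicator function of `[a,b]` with a Gaussian of width `Δ`, as an entire function -/
noncomputable def Wd (a b Δ : ℝ) (z : ℂ) : ℂ :=
  ((Δ * Real.sqrt Real.pi : ℝ) : ℂ)⁻¹ * ∫ u in a..b, cexp (-((z - (u : ℂ)) / (Δ : ℂ)) ^ 2)

/-- the same on the real line -/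
noncomputable def wr (a b Δ : ℝ) (t : ℝ) : ℝ :=
  (Δ * Real.sqrt Real.pi)⁻¹ * ∫ u in a..b, Real.exp (-((t - u) / Δ) ^ 2)

/-- distance of `t` from `[a,b]` -/
noncomputable def ds (a b t : ℝ) : ℝ := max 0 (max (a - t) (t - b))

/-- **SP-W**: facts on the window, for `a ≤ b`, `Δ ≥ 1`. Proof. `Wd` is an integral of entire functions over a compact
interval (`Pool.Agent.HP.differentiableOn_integral` or Mathlib's `hasDerivAt_integral_of_dominated_loc_of_deriv_le`); in `t`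
it is `(Δ√π)⁻¹` times `∫` of the Gaussian, so its derivative is the difference of the values of the Gaussian at `a` and `b`
(substitute `v = u - t`, or differentiate under the integral and use `d/dz g(z-u) = - d/du g(z-u)`).
`|exp(-((t+iy-u)/Δ)²)| = exp(-(t-u)²/Δ² + y²/Δ²) ≤ e^4 exp(-(t-u)²/Δ²)` for `|y| ≤ 2`, and
`(Δ√π)⁻¹ ∫_{|v| ≥ d} exp(-v²/Δ²) dv ≤ exp(-d²/Δ²)` (`v² ≥ d² + (|v|-d)²`). `integral_gaussian` gives `Δ√π`. -/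
def S_W : Prop := ∀ a b Δ : ℝ, a ≤ b → 1 ≤ Δ →
  Differentiable ℂ (Wd a b Δ) ∧
  (∀ t : ℝ, Wd a b Δ (t : ℂ) = (wr a b Δ t : ℂ)) ∧
  (∀ t y : ℝ, |y| ≤ 2 → ‖Wd a b Δ ((t : ℂ) + (y : ℂ) * I)‖ ≤ Real.exp 4 * Real.exp (-(ds a b t / Δ) ^ 2)) ∧
  (∀ z : ℂ, deriv (Wd a b Δ) z = ((Δ * Real.sqrt Real.pi : ℝ) : ℂ)⁻¹ *
    (cexp (-((z - (a : ℂ)) / (Δ : ℂ)) ^ 2) - cexp (-((z - (b : ℂ)) / (Δ : ℂ)) ^ 2))) ∧
  Continuous (wr a b Δ) ∧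
  (∀ t, 0 ≤ wr a b Δ t) ∧ (∀ t, wr a b Δ t ≤ Real.exp (-(ds a b t / Δ) ^ 2)) ∧
  (∀ t D : ℝ, 0 ≤ D → a + D ≤ t → t ≤ b - D → 1 - Real.exp (-(D / Δ) ^ 2) ≤ wr a b Δ t)

/-- **SP-VD**: the second derivative test with an amplitude. Proof. Without amplitude: `φ'` is increasing, `|φ'| ≥ μ` outside an
interval of length `2μ/λ`, and where `φ' ≥ μ` (or `≤ -μ`) `|∫ e^(iφ)| ≤ 3/μ` (integrate `(1/(iφ')) (e^(iφ))'` by parts, the variation of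
`1/φ'` is at most `1/μ`); `μ = √(3λ)` gives `8/√λ`. With amplitude: integrate by parts with `E(t) = ∫_p^t e^(iφ)`, `|E| ≤ 8/√λ`. (`H17Arc/Osc2.lean` has such a
bound for a special integral.) -/
def S_VD : Prop := ∀ (p q l : ℝ) (φ φ' φ'' : ℝ → ℝ) (B B' : ℝ → ℂ), p ≤ q → 0 < l →
  (∀ t ∈ Icc p q, HasDerivAt φ (φ' t) t) → (∀ t ∈ Icc p q, HasDerivAt φ' (φ'' t) t) → (∀ t ∈ Icc p q, l ≤ φ'' t) →
  ContinuousOn φ'' (Icc p q) → (∀ t ∈ Icc p q, HasDerivAt B (B' t) t) → ContinuousOn B' (Icc p q) →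
  ‖∫ t in p..q, B t * cexp (I * (φ t : ℂ))‖ ≤ 10 / Real.sqrt l * (‖B q‖ + ∫ t in p..q, ‖B' t‖)

/-- **SP-PH** (from `S_W`, `S_VD`): the phase integral on the line `Re s = σ`; `W` is evaluated at `(s - 1/2)/i = t - i(σ - 1/2)`. Proof.
`XX(s)^k y^(-it) = A(t) e^(iφ(t))` for `t ≥ 12`, with `φ(t) = k (t log(t/2π) - t) - t log y` and
`A(t) = XX(s)^k e^(-ik(t log(t/2π) - t))`. `H345.Chi.hasDerivAt_XX`, `H345.Chi.L2_close`: `|A'| ≤ 14 k |A|/t`, and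
`H345.Chi.XX_size`: `|A| ≤ C t^κ`, `κ = k(σ-1/2)`. `φ'' = k/t`. Second derivative test on `[12, 4T]`
(for monotone `φ'` with `φ'' ≥ λ`: `|∫_p^q e^(iφ)| ≤ 8/√λ`; with an amplitude `B` the bound is multiplied by `|B(q)| + ∫|B'|`),
`λ = k/(4T)`, `B = A W`, `∫ |W'| ≤ C` (`S_W`: two Gaussians), `∫_12^(4T) |A'| ≤ C T^κ`: the contribution is
`C T^(κ+1/2)`. For `t ≥ 4T` use `ds ≥ t/2`, `Δ² ≤ T`: `|W| ≤ e^4 e^(-t)`; for `|t| ≤ 12` the integrand is bounded. For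
`t < 0` use `XX(conj s) = conj (XX s)` (`H345.Chi.XX_conj`); the phase is then `-φ(|t|)` with `1/y` for `y`. -/
def S_PH : Prop := ∀ (k : ℕ), 1 ≤ k → ∀ σ : ℝ, 1 < σ → σ ≤ 2 → ∃ C : ℝ, 0 ≤ C ∧ ∀ T : ℝ, 2 ≤ T → ∀ a b Δ : ℝ,
  -(2 * T) ≤ a → a ≤ b → b ≤ 2 * T → 1 ≤ Δ → Δ ^ 2 ≤ T → ∀ y : ℝ, 0 < y →
  Integrable (fun t : ℝ => XX ((σ : ℂ) + (t : ℂ) * I) ^ k * (y : ℂ) ^ (-((t : ℂ) * I)) *
    Wd a b Δ ((t : ℂ) - ((σ - 1 / 2 : ℝ) : ℂ) * I)) ∧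
  ‖∫ t : ℝ, XX ((σ : ℂ) + (t : ℂ) * I) ^ k * (y : ℂ) ^ (-((t : ℂ) * I)) *
    Wd a b Δ ((t : ℂ) - ((σ - 1 / 2 : ℝ) : ℂ) * I)‖ ≤ C * T ^ ((k : ℝ) * (σ - 1 / 2) + 1 / 2)

/-- the integrand -/
noncomputable def Ps (k : ℕ) (N a b Δ : ℝ) (s : ℂ) : ℂ :=
  riemannZeta s ^ k * riemannZeta (1 - s) ^ k * (N : ℂ) ^ (1 / 2 - s) * Wd a b Δ ((s - 1 / 2) / I)

/-- **SP-CT**: the contour shift. Proof. `Ps` is holomorphic on `1/2 ≤ Re s ≤ σ` except at `s = 1`; `ζ(s)`, `ζ(1-s)` are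
`O((1+|t|)^2)` there away from `1` (for instance from the growth of `(s-1)ζ(s)`, `Pool.Agent.H437R2.A1`, `KV/B`, or `CG.zeta_growth`
and the functional equation with `XX_size`), the window decays like a Gaussian (`S_W`). Cauchy for the rectangle with vertices
`1/2 ± iR`, `σ ± iR` minus the disc of radius `r` about `1` (see `J6H39/KV` for such a shift with the residue written as a circle
integral; there `Pool.Agent.E8helper52.OR.Contour`). Last part: bounds on the circle. -/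
def S_CT : Prop := ∀ (k : ℕ), 1 ≤ k → ∀ σ r : ℝ, 1 < σ → σ ≤ 2 → 0 < r → r < 1 / 2 → r < σ - 1 → ∃ C : ℝ, 0 ≤ C ∧
  ∀ a b Δ N : ℝ, a ≤ b → 1 ≤ Δ → 1 ≤ N →
  Integrable (fun t : ℝ => Ps k N a b Δ (1 / 2 + (t : ℂ) * I)) ∧
  Integrable (fun t : ℝ => Ps k N a b Δ ((σ : ℂ) + (t : ℂ) * I)) ∧
  ‖∫ t : ℝ, Ps k N a b Δ (1 / 2 + (t : ℂ) * I)‖ ≤ ‖∫ t : ℝ, Ps k N a b Δ ((σ : ℂ) + (t : ℂ) * I)‖ +
    C * N ^ (-(1 / 2) + r)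

/-- **SP-FT** (from `S_PH`, `S_CT`): the Fourier transform of `F` times a window. Proof. On the critical line
`Ps k N a b Δ (1/2+it) = F k t * wr a b Δ t * N^(-it)` (`zh` and its conjugate). Take `σ = 1+δ`, `r = δ/2`, `δ = ε/(k+1)` small. On
`Re s = σ`: `ζ(1-s)^k = XX(s)^k ζ(s)^k` (`H345.zeta_fe`), `ζ(s)^(2k) = ∑ d_{2k}(n) n^(-s)` (`KV.dv_series`), so the integral is
`N^(1/2-σ) ∑_n d_{2k}(n) n^(-σ) ∫ XX^k (nN)^(-it) W dt`, at most `N^(1/2-σ) (∑ d_{2k}(n) n^(-σ)) C T^(k(σ-1/2)+1/2)`. -/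
def S_FT : Prop := ∀ (k : ℕ), 1 ≤ k → ∀ ε : ℝ, 0 < ε → ∃ C : ℝ, 0 ≤ C ∧ ∀ T : ℝ, 2 ≤ T → ∀ a b Δ : ℝ,
  -(2 * T) ≤ a → a ≤ b → b ≤ 2 * T → 1 ≤ Δ → Δ ^ 2 ≤ T → ∀ N : ℝ, 1 ≤ N →
  ‖∫ t : ℝ, ((F k t * wr a b Δ t : ℝ) : ℂ) * (N : ℂ) ^ (-((t : ℂ) * I))‖ ≤
    C * T ^ (((k : ℝ) + 1) / 2 + ε) * N ^ (-(1 / 2) + ε)

/-- **SP-PO**: Poisson summation (no input). Proof. `g(t) = F k (θ+αt) wr a b Δ (θ+αt)` is continuous and `O(|t|^(-2))` (`F` has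
polynomial growth, `CG.zh_bound`; the window decays). `Real.tsum_eq_tsum_fourier_of_rpow_decay_of_summable` (or the version in
this Mathlib). The Fourier coefficient at `m` is `α⁻¹ e(mθ/α) ∫ F wr e^(-2πimt/α) dt`, for `-m` it is the conjugate. -/
def S_PO : Prop := ∀ (k : ℕ) (a b Δ α θ : ℝ), a ≤ b → 1 ≤ Δ → 0 < α →
  Summable (fun m : ℕ => ‖∫ t : ℝ, ((F k t * wr a b Δ t : ℝ) : ℂ) *
    ((Real.exp (2 * Real.pi / α * (m + 1)) : ℝ) : ℂ) ^ (-((t : ℂ) * I))‖) →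
  Integrable (fun t => F k t * wr a b Δ t) ∧
  Summable (fun n : ℤ => F k (θ + α * n) * wr a b Δ (θ + α * n)) ∧
  |α * (∑' n : ℤ, F k (θ + α * n) * wr a b Δ (θ + α * n)) - ∫ t, F k t * wr a b Δ t| ≤
    2 * ∑' m : ℕ, ‖∫ t : ℝ, ((F k t * wr a b Δ t : ℝ) : ℂ) *
      ((Real.exp (2 * Real.pi / α * (m + 1)) : ℝ) : ℂ) ^ (-((t : ℂ) * I))‖

/-- **SP-SM** (from `S_FT`, `S_PO`): smoothed sampling. Proof. `N_m = exp(2π(m+1)/α) = N_0^(m+1)`, `N_0 ≥ T^x ≥ 2^x`, so the sum over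
`m` is at most `C T^((k+1)/2+ε') N_0^(-1/2+ε') / (1 - 2^(-x(1/2-ε')))`. (`ε' ≤ 1/4`, `ε' (1 + x) ≤ ε`.) -/
def S_SM : Prop := ∀ (k : ℕ), 1 ≤ k → ∀ x ε : ℝ, 0 < x → 0 < ε → ∃ C : ℝ, 0 ≤ C ∧ ∀ T : ℝ, 2 ≤ T → ∀ a b Δ α θ : ℝ,
  -(2 * T) ≤ a → a ≤ b → b ≤ 2 * T → 1 ≤ Δ → Δ ^ 2 ≤ T → 0 < α → α ≤ 2 * Real.pi / (x * Real.log T) →
  Integrable (fun t => F k t * wr a b Δ t) ∧
  Summable (fun n : ℤ => F k (θ + α * n) * wr a b Δ (θ + α * n)) ∧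
  |α * (∑' n : ℤ, F k (θ + α * n) * wr a b Δ (θ + α * n)) - ∫ t, F k t * wr a b Δ t| ≤
    C * T ^ (((k : ℝ) + 1 - x) / 2 + ε)

open Classical in
/-- the discrete moment over the points `θ + αn` in `(a, b]` -/
noncomputable def Ds (k : ℕ) (a b α θ : ℝ) : ℝ :=
  α * ∑' n : ℤ, if a < θ + α * n ∧ θ + α * n ≤ b then F k (θ + α * n) else 0

/-- **SP-MAIN** (from `S_SM`, `S_W`): the sampling theorem with sharp cutoffs. Proof. `ε ≤ 1/2`, `Δ = T^(ε/2)`,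
`D = T^(3ε/4)` (so `D/Δ = T^(ε/4)`, `exp(-(D/Δ)²)` is smaller than every power; `2 D ≤ T^ε ≤ T` for `T ≥ T₀`; for smaller `T`
everything is bounded because `F` is bounded on bounded sets: enlarge `C`). Upper bound: the window on `[a-D, b+D]`
(inside `[-2T, 2T]`): `wr ≥ 1 - exp(-(D/Δ)²)` on `[a, b]`, so `Ds ≤ (1 - tiny)⁻¹ α ∑ F wr ≤ (1 + tiny) (∫ F wr + E)` and
`∫ F wr ≤ ∫_{a-2D}^{b+2D} F + ∫_{outside} F exp(-(ds/Δ)²)`, the last term is tiny (`F(t) ≤ C (1+|t|)^(2k)`, `ds ≥ D`). Lower bound: if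
`a + D ≤ b - D` the window on `[a+D, b-D]`, `wr ≤ 1` and `wr ≤ exp(-(ds/Δ)²)` outside `(a, b]` (so that part of the discrete sum is
tiny), and `∫ F wr ≥ (1 - tiny) ∫_{a+2D}^{b-2D} F`; otherwise the left side is `≤ 0`. `tiny · T^(2k+2)` is bounded, and the exponent
`(k+1-x)/2` is `≥ 0`. -/
def S_MAIN : Prop := ∀ (k : ℕ), 1 ≤ k → ∀ x ε : ℝ, 0 < x → x ≤ k + 1 → 0 < ε → ∃ C : ℝ, 0 ≤ C ∧ ∀ T : ℝ, 2 ≤ T →
  ∀ a b α θ : ℝ, 0 ≤ a → a ≤ b → b ≤ T → 0 < α → α ≤ 2 * Real.pi / (x * Real.log T) →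
  (∫ t in (a + T ^ ε)..(b - T ^ ε), F k t) - C * T ^ (((k : ℝ) + 1 - x) / 2 + ε) ≤ Ds k a b α θ ∧
  Ds k a b α θ ≤ (∫ t in (a - T ^ ε)..(b + T ^ ε), F k t) + C * T ^ (((k : ℝ) + 1 - x) / 2 + ε)

/-- the main term with polynomial `P`: `∫_0^T P(log(t/2π)) dt` -/
noncomputable def Mt (P : Polynomial ℝ) (T : ℝ) : ℝ := ∫ t in (0:ℝ)..T, P.eval (Real.log (t / (2 * Real.pi)))

/-- the step -/
noncomputable def st (x T : ℝ) : ℝ := 2 * Real.pi / (x * Real.log T)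

/-- **SP-EQ2** (from `S_MAIN`): the full moment conjecture with square root remainder, continuous and discrete. Proof.
`Mt P (T + h) - Mt P T = O(T^(2ε))` for `|h| ≤ 3 T^ε` (`|P(log(t/2π))| ≤ C t^ε` for `t ≥ 1`). `∫_{-h}^{h} F = O(h^(2k+1))`. From the
continuous to the discrete formula: `S_MAIN` with `a = 0`, `b = T`, `θ = 0` (`x = k`, and all `x ≥ k`: `α` only has to be
`≤ 2π/(k log T)`). Conversely apply `S_MAIN` at `T₁ = T + 2T^ε`: `∫_{T₁^ε}^{T₁ - T₁^ε} F ≤ Ds + E`, `T₁ - T₁^ε ≥ T`, and at `T₂ = T - 2T^ε`: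
`Ds - E ≤ ∫_{-T₂^ε}^{T₂ + T₂^ε} F`, `T₂ + T₂^ε ≤ T`. Use the hypothesis with the exponent `ε` at `T₁`, `T₂`. -/
def S_EQ2 : Prop := ∀ (k : ℕ), 1 ≤ k → ∀ x : ℝ, (k : ℝ) ≤ x → ∀ P : Polynomial ℝ,
  ((∀ ε : ℝ, 0 < ε → ∃ C : ℝ, ∀ T : ℝ, 2 ≤ T → |(∫ t in (0:ℝ)..T, F k t) - Mt P T| ≤ C * T ^ (1 / 2 + ε)) ↔
  (∀ ε : ℝ, 0 < ε → ∃ C : ℝ, ∀ T : ℝ, 2 ≤ T → |Ds k 0 T (st x T) 0 - Mt P T| ≤ C * T ^ (1 / 2 + ε)))

/-- **SP-EQ3** (from `S_MAIN`): leading term. Proof as for `S_EQ2`; the error is `T^((k+1-x)/2+ε)`, `< T^(1-δ)`. -/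
def S_EQ3 : Prop := ∀ (k : ℕ), 1 ≤ k → ∀ x : ℝ, 0 < x → (k : ℝ) - 1 < x → ∀ γ : ℝ,
  (Tendsto (fun T : ℝ => (∫ t in (0:ℝ)..T, F k t) / (T * Real.log T ^ (k ^ 2))) atTop (𝓝 γ) ↔
  Tendsto (fun T : ℝ => Ds k 0 T (st x T) 0 / (T * Real.log T ^ (k ^ 2))) atTop (𝓝 γ))

/-- **SP-DS**: the discrete moment as a finite sum. -/
def S_DS : Prop := ∀ (k : ℕ) (T α : ℝ), 0 < α → 0 ≤ T →
  Ds k 0 T α 0 = α * ∑ n ∈ Finset.Icc 1 ⌊T / α⌋₊, ‖zh (α * n)‖ ^ (2 * k)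

end Pool.Agent.J6H39.SP
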